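import Pool.Agent.H671R2.ZDefs

set_option autoImplicit false

/-! Strongly 2-divisible graphs (problem MP_65ccf5_lc). -/

namespace Pool.Agent.H320Z.Div

/-- The vertices can be coloured with two colours so that no inclusion-maximal clique with at least
two vertices is monochromatic. -/
def TwoCliqueColourable {V : Type} (H : SimpleGraph V) : Prop :=
  ∃ c : V → Bool, ∀ K : Set V, Maximal H.IsClique K → K.Nontrivial →
    ∃ u ∈ K, ∃ v ∈ K, c u ≠ c v

/-- Every induced subgraph has a 2-clique-colouring. -/
def StronglyTwoDivisible {V : Type} (G : SimpleGraph V) : Prop :=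
  ∀ S : Set V, TwoCliqueColourable (G.induce S)

end Pool.Agent.H320Z.Div
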