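import Pool.Agent.H320Z.DivDefs
import Pool.Agent.NPC.Sat2
import Pool.Agent.H671R2.PolyAuto

set_option autoImplicit false

/-! Recognising strongly 2-divisible graphs is coNP-hard. -/

namespace Pool.Agent.H320Z.Div

open Pool.Agent.NPC Pool.Agent.NPC.R671

/-- Clique colourings of the subgraph induced on `S`, without subtypes. -/
def CC {V : Type} (A : V → V → Prop) (S : Set V) : Prop :=
  ∃ c : V → Bool, ∀ K : Set V, K ⊆ S → (∀ u ∈ K, ∀ v ∈ K, u ≠ v → A u v) →
    (∀ v ∈ S, (∀ u ∈ K, u ≠ v → A u v) → v ∈ K) → K.Nontrivial → ∃ u ∈ K, ∃ v ∈ K, c u ≠ c v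

theorem maximal_iff {W : Type} (H : SimpleGraph W) (K : Set W) : Maximal H.IsClique K ↔
    (∀ u ∈ K, ∀ v ∈ K, u ≠ v → H.Adj u v) ∧ ∀ v, (∀ u ∈ K, u ≠ v → H.Adj u v) → v ∈ K := by
  constructor
  · intro h
    refine ⟨fun u hu v hv huv => h.1 hu hv huv, fun v hv => ?_⟩
    have h1 : H.IsClique (insert v K) := h.1.insert fun u hu hne => (hv u hu hne.symm).symm
    exact h.2 h1 (Set.subset_insert _ _) (Set.mem_insert _ _)
  · rintro ⟨h1, h2⟩
    refine ⟨fun u hu v hv huv => h1 u hu v hv huv, fun K' hK' hle v hv => ?_⟩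
    exact h2 v fun u hu hne => hK' (hle hu) hv hne

theorem tcc_iff {W V : Type} (H : SimpleGraph W) (A : V → V → Prop) (f : W → V)
    (hf : Function.Injective f) (hA : ∀ x y, H.Adj x y ↔ A (f x) (f y)) :
    TwoCliqueColourable H ↔ CC A (Set.range f) := by
  classical
  constructor
  · rintro ⟨c, hc⟩
    refine ⟨fun v => if h : ∃ x, f x = v then c h.choose else false, fun K hK h1 h2 h3 => ?_⟩
    have key : ∀ x, (if h : ∃ y, f y = f x then c h.choose else false) = c x := by
      intro x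
      have h : ∃ y, f y = f x := ⟨x, rfl⟩
      rw [dif_pos h, hf h.choose_spec]
    obtain ⟨u, hu, v, hv, huv⟩ := hc (f ⁻¹' K) ((maximal_iff H _).2
      ⟨fun u hu v hv huv => (hA u v).2 (h1 _ hu _ hv (hf.ne huv)), fun v hv =>
        h2 (f v) ⟨v, rfl⟩ fun u hu hne => by
          obtain ⟨x, rfl⟩ := hK hu
          exact (hA x v).1 (hv x hu fun h => hne (by rw [h]))⟩) (by
      obtain ⟨u, hu, v, hv, huv⟩ := h3
      obtain ⟨x, rfl⟩ := hK hu
      obtain ⟨y, rfl⟩ := hK hv
      exact ⟨x, hu, y, hv, fun h => huv (by rw [h])⟩)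
    exact ⟨f u, hu, f v, hv, by simp only [key]; exact huv⟩
  · rintro ⟨c, hc⟩
    refine ⟨fun x => c (f x), fun K hK hn => ?_⟩
    obtain ⟨h1, h2⟩ := (maximal_iff H K).1 hK
    obtain ⟨_, ⟨u, hu, rfl⟩, _, ⟨v, hv, rfl⟩, huv⟩ := hc (f '' K) (Set.image_subset_range _ _)
      (by
        rintro _ ⟨u, hu, rfl⟩ _ ⟨v, hv, rfl⟩ hne
        exact (hA u v).1 (h1 u hu v hv fun h => hne (by rw [h])))
      (by
        rintro _ ⟨v, rfl⟩ hv
        exact ⟨v, h2 v fun u hu hne => (hA u v).2 (hv _ ⟨u, hu, rfl⟩ (hf.ne hne)), rfl⟩)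
      (hn.image hf)
    exact ⟨u, hu, v, hv, huv⟩

theorem strong_iff {Λ : Type} (vs : List Λ) (hn : vs.Nodup) (ad : Λ → Λ → Bool)
    (hs : ∀ a b, ad a b = ad b a) (hi : ∀ a, ad a a = false) :
    StronglyTwoDivisible (listGraph vs ad hs hi) ↔
      ∀ S : Set Λ, (∀ v ∈ S, v ∈ vs) → CC (fun a b => ad a b = true) S := by
  have inj : Function.Injective fun i : Fin vs.length => vs[i] := fun i j h =>
    Fin.ext ((List.Nodup.getElem_inj_iff hn).1 h)
  have key : ∀ S : Set (Fin vs.length), TwoCliqueColourable ((listGraph vs ad hs hi).induce S) ↔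
      CC (fun a b => ad a b = true) (Set.range fun i : S => vs[i.1]) := fun S =>
    tcc_iff _ _ _ (inj.comp Subtype.val_injective) fun x y => Iff.rfl
  constructor
  · intro h S hS
    have := (key {i | vs[i] ∈ S}).1 (h _)
    convert this using 1
    ext v
    constructor
    · intro hv
      obtain ⟨i, hi, rfl⟩ := List.getElem_of_mem (hS v hv)
      exact ⟨⟨⟨i, hi⟩, hv⟩, rfl⟩
    · rintro ⟨i, rfl⟩
      exact i.2
  · intro h S
    refine (key S).2 (h _ ?_)
    rintro _ ⟨i, rfl⟩
    exact List.getElem_mem _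

abbrev Cl : Type := Lit ℕ × Lit ℕ × Lit ℕ
abbrev AV : Type := Lit ℕ × ℕ
abbrev BV : Type := Bool × AV × AV
abbrev Vx : Type := AV ⊕ BV

def cmp (u v : AV) : Bool := decide (u.1.2 = v.1.2) && (u.1.1 ^^ v.1.1)

def valid (m : ℕ) (u v : AV) : Bool := decide ((u.2 + 1) % m = v.2) && !cmp u v

def ep (b : BV) : AV := bif b.1 then b.2.2 else b.2.1

def kills (w : AV) (e : AV × AV) : Bool := cmp w e.1 || cmp w e.2

def adAB (w : AV) (b : BV) : Bool := decide (w = ep b) || kills w b.2

def adBB (m : ℕ) (b b' : BV) : Bool :=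
  (b.1 ^^ b'.1) && (decide (b.2 = b'.2) && valid m b.2.1 b.2.2)

def ad (m : ℕ) (x y : Vx) : Bool :=
  Sum.elim (fun u => Sum.elim (fun v => !decide (u = v)) (fun b => adAB u b) y)
    (fun b => Sum.elim (fun v => adAB v b) (fun b' => adBB m b b') y) x

theorem ad_symm (m : ℕ) (x y : Vx) : ad m x y = ad m y x := by
  rcases x with u | b <;> rcases y with v | b' <;> simp only [ad, Sum.elim_inl, Sum.elim_inr]
  · simp only [eq_comm]
  · unfold adBB
    by_cases h : b.2 = b'.2
    · simp [h, Bool.xor_comm]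
    · simp [h, Ne.symm h]

theorem ad_irrefl (m : ℕ) (x : Vx) : ad m x x = false := by
  rcases x with u | b <;> simp [ad, adBB]

def As (ψ : List Cl) : List AV :=
  ψ.zipIdx.flatMap fun p => [(p.1.1, p.2), (p.1.2.1, p.2), (p.1.2.2, p.2)]

def vs (ψ : List Cl) : List Vx :=
  (As ψ).map Sum.inl ++ ([false, true] ×ˢ (As ψ ×ˢ As ψ)).map Sum.inr

def mat (ψ : List Cl) : List (List Bool) :=
  (vs ψ).map fun u => (vs ψ).map fun w => ad ψ.length u w

section PolyT
variable {α : Type} [TEnc α]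

@[fun_prop] theorem poly_cmp {u v : α → AV} (hu : Poly u) (hv : Poly v) :
    Poly (fun x => cmp (u x) (v x)) := by
  unfold cmp; fun_prop

@[fun_prop] theorem poly_adAB {u : α → AV} {v : α → BV} (hu : Poly u) (hv : Poly v) :
    Poly (fun x => adAB (u x) (v x)) := by
  unfold adAB kills ep; fun_prop

@[fun_prop] theorem poly_adBB {m : α → ℕ} {u v : α → BV} (hm : Poly m) (hu : Poly u)
    (hv : Poly v) : Poly (fun x => adBB (m x) (u x) (v x)) := by
  unfold adBB valid; fun_prop

@[fun_prop] theorem poly_ad {m : α → ℕ} {u v : α → Vx} (hm : Poly m) (hu : Poly u)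
    (hv : Poly v) : Poly (fun x => ad (m x) (u x) (v x)) := by
  unfold ad; fun_prop

@[fun_prop] theorem poly_As {l : α → List Cl} (hl : Poly l) : Poly (fun x => As (l x)) := by
  unfold As; fun_prop

@[fun_prop] theorem poly_vs {l : α → List Cl} (hl : Poly l) : Poly (fun x => vs (l x)) := by
  unfold vs; fun_prop

theorem poly_mat {l : α → List Cl} (hl : Poly l) : Poly (fun x => mat (l x)) := by
  unfold mat; fun_prop

end PolyT

theorem mem_As {ψ : List Cl} {u : AV} : u ∈ As ψ ↔
    ∃ c, ψ[u.2]? = some c ∧ (u.1 = c.1 ∨ u.1 = c.2.1 ∨ u.1 = c.2.2) := by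
  obtain ⟨l, i⟩ := u
  simp only [As, List.mem_flatMap, List.mem_zipIdx_iff_getElem?, List.mem_cons, Prod.mk.injEq,
    List.not_mem_nil, or_false]
  constructor
  · rintro ⟨⟨c, j⟩, h1, h2⟩
    rcases h2 with ⟨h, rfl⟩ | ⟨h, rfl⟩ | ⟨h, rfl⟩
    · exact ⟨c, h1, Or.inl h⟩
    · exact ⟨c, h1, Or.inr (Or.inl h)⟩
    · exact ⟨c, h1, Or.inr (Or.inr h)⟩
  · rintro ⟨c, h1, h2⟩
    refine ⟨(c, i), h1, ?_⟩
    simp only [and_true]
    exact h2

def DistL (ψ : List Cl) : Prop := ∀ c ∈ ψ, c.1 ≠ c.2.1 ∧ c.1 ≠ c.2.2 ∧ c.2.1 ≠ c.2.2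

theorem nodup_As {ψ : List Cl} (hd : DistL ψ) : (As ψ).Nodup := by
  rw [As, List.nodup_flatMap]
  refine ⟨fun p hp => ?_, ?_⟩
  · obtain ⟨h1, h2, h3⟩ := hd p.1 (List.fst_mem_of_mem_zipIdx hp)
    simp [h1, h2, h3]
  · have h : (ψ.zipIdx.map Prod.snd).Nodup := by
      rw [List.zipIdx_map_snd]; exact List.nodup_range' _
    rw [List.Nodup, List.pairwise_map] at h
    refine h.imp fun {p q} hpq => ?_
    simp only [Function.onFun, List.disjoint_left, List.mem_cons, List.not_mem_nil, or_false]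
    rintro u (rfl | rfl | rfl) <;> simp [hpq]

theorem nodup_vs {ψ : List Cl} (hd : DistL ψ) : (vs ψ).Nodup := by
  have h := nodup_As hd
  refine List.Nodup.append (h.map Sum.inl_injective)
    ((List.Nodup.product (by simp) (h.product h)).map Sum.inr_injective) ?_
  simp [List.disjoint_left]

theorem inl_mem_vs {ψ : List Cl} {u : AV} : Sum.inl u ∈ vs ψ ↔ u ∈ As ψ := by simp [vs]

theorem inr_mem_vs {ψ : List Cl} {b : BV} :
    Sum.inr b ∈ vs ψ ↔ b.2.1 ∈ As ψ ∧ b.2.2 ∈ As ψ := by
  obtain ⟨s, u, v⟩ := b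
  cases s <;> simp [vs]

theorem cmp_self (u : AV) : cmp u u = false := by simp [cmp]

theorem cmp_comm (u v : AV) : cmp u v = cmp v u := by
  simp only [cmp, eq_comm, Bool.xor_comm]

/-- A pair is active in `S`. -/
def Active (m : ℕ) (S : Set Vx) (e : AV × AV) : Prop :=
  valid m e.1 e.2 = true ∧ Sum.inl e.1 ∈ S ∧ Sum.inl e.2 ∈ S ∧
    ∀ w, Sum.inl w ∈ S → kills w e = false

theorem cc_of_col (m : ℕ) (S : Set Vx) (cA : AV → Bool)
    (h1 : ∀ e, Active m S e → cA e.1 ≠ cA e.2)
    (h2 : ∀ u v, Sum.inl u ∈ S → Sum.inl v ∈ S → u ≠ v →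
      ∃ u v, Sum.inl u ∈ S ∧ Sum.inl v ∈ S ∧ cA u ≠ cA v) :
    CC (fun a b => ad m a b = true) S := by
  classical
  let cB : BV → Bool := fun b =>
    if h : ∃ w, Sum.inl w ∈ S ∧ kills w b.2 = true then !cA h.choose
    else if Sum.inl (ep b) ∈ S then !cA (ep b)
    else if Sum.inl (ep (!b.1, b.2)) ∈ S then cA (ep (!b.1, b.2)) else b.1
  refine ⟨Sum.elim cA cB, fun K hK k1 k2 k3 => ?_⟩
  by_cases hB : ∃ b, Sum.inr b ∈ K
  · obtain ⟨b, hb⟩ := hB
    have part : ∀ b', Sum.inr b' ∈ K → b'.2 = b.2 := by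
      intro b' hb'
      by_cases h : b' = b
      · rw [h]
      · have := k1 _ hb' _ hb (by simpa using h)
        simp only [ad, Sum.elim_inr, adBB, Bool.and_eq_true, decide_eq_true_eq] at this
        exact this.2.1
    by_cases hk : ∃ w, Sum.inl w ∈ S ∧ kills w b.2 = true
    · have hw := hk.choose_spec
      refine ⟨_, k2 _ hw.1 ?_, _, hb, ?_⟩
      · rintro (u | b') hu hne
        · simpa [ad] using hne
        · simp [ad, adAB, part b' hu, hw.2]
      · simp only [Sum.elim_inl, Sum.elim_inr, cB, dif_pos hk]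
        cases cA hk.choose <;> simp
    · obtain ⟨v, hv, hne⟩ := k3.exists_ne (Sum.inr b)
      have hadj := k1 _ hv _ hb hne
      refine ⟨v, hv, _, hb, ?_⟩
      rcases v with u | b'
      · simp only [ad, Sum.elim_inl, Sum.elim_inr, adAB, Bool.or_eq_true, decide_eq_true_eq]
          at hadj
        rcases hadj with rfl | hadj
        · simp only [Sum.elim_inl, Sum.elim_inr, cB, dif_neg hk, if_pos (hK hv)]
          cases cA (ep b) <;> simp
        · exact absurd ⟨u, hK hv, hadj⟩ hk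
      · simp only [ad, Sum.elim_inr, adBB, Bool.and_eq_true, decide_eq_true_eq] at hadj
        obtain ⟨s, e⟩ := b
        obtain ⟨s', e'⟩ := b'
        obtain ⟨a1, a2, a3⟩ := hadj
        simp only at a1 a2 a3 hk
        subst a2
        have hact : Sum.inl e'.1 ∈ S → Sum.inl e'.2 ∈ S → cA e'.1 ≠ cA e'.2 := fun p q =>
          h1 e' ⟨a3, p, q, fun w hw => by
            by_contra hc
            exact hk ⟨w, hw, by simpa using hc⟩⟩
        simp only [Sum.elim_inr, cB, dif_neg hk]
        by_cases p : Sum.inl e'.1 ∈ S <;> by_cases q : Sum.inl e'.2 ∈ S <;>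
          cases s <;> cases s' <;> simp at a1 <;> simp [ep, p, q]
        · exact (hact p q).symm
        · exact hact p q
  · obtain ⟨x, hx, y, hy, hxy⟩ := k3
    have all : ∀ u, Sum.inl u ∈ S → Sum.inl u ∈ K := by
      intro u hu
      refine k2 _ hu ?_
      rintro (v | b) hv hne
      · simpa [ad] using hne
      · exact absurd ⟨b, hv⟩ hB
    rcases x with x | x
    · rcases y with y | y
      · obtain ⟨u, v, hu, hv, huv⟩ := h2 x y (hK hx) (hK hy) (by simpa using hxy)
        exact ⟨_, all u hu, _, all v hv, huv⟩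
      · exact absurd ⟨y, hy⟩ hB
    · exact absurd ⟨x, hx⟩ hB

theorem lt_of_mem_As {ψ : List Cl} {u : AV} (h : u ∈ As ψ) : u.2 < ψ.length := by
  obtain ⟨c, hc, -⟩ := mem_As.1 h
  by_contra hlt
  rw [List.getElem?_eq_none (by omega)] at hc
  simp at hc

theorem cc_of_unsat {ψ : List Cl} (hodd : ψ.length % 2 = 1) (hu : ¬ SAT3 ψ) (S : Set Vx)
    (hS : ∀ v ∈ S, v ∈ vs ψ) : CC (fun a b => ad ψ.length a b = true) S := by
  classical
  by_cases hact : ∃ e, Active ψ.length S e
  · obtain ⟨j, hj, hmiss⟩ : ∃ j, j < ψ.length ∧ ∀ e, Active ψ.length S e →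
        e.1.2 ≠ j ∧ e.2.2 ≠ j := by
      by_contra hc
      push Not at hc
      apply hu
      refine ⟨fun x => decide (∃ u : AV, u.1 = (true, x) ∧ Sum.inl u ∈ S ∧
        ∀ w, Sum.inl w ∈ S → cmp w u = false), fun c hc' => ?_⟩
      obtain ⟨i, hi⟩ := List.getElem?_of_mem hc'
      have hil : i < ψ.length := by
        by_contra hlt
        rw [List.getElem?_eq_none (by omega)] at hi
        simp at hi
      obtain ⟨u, u1, u2, u3⟩ : ∃ u : AV, u.2 = i ∧ Sum.inl u ∈ S ∧
          ∀ w, Sum.inl w ∈ S → cmp w u = false := by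
        obtain ⟨e, he, h⟩ := hc i hil
        by_cases h1 : e.1.2 = i
        · refine ⟨e.1, h1, he.2.1, fun w hw => ?_⟩
          have := he.2.2.2 w hw
          simp only [kills, Bool.or_eq_false_iff] at this
          exact this.1
        · refine ⟨e.2, h h1, he.2.2.1, fun w hw => ?_⟩
          have := he.2.2.2 w hw
          simp only [kills, Bool.or_eq_false_iff] at this
          exact this.2
      have hval : decide (∃ v : AV, v.1 = (true, u.1.2) ∧ Sum.inl v ∈ S ∧
          ∀ w, Sum.inl w ∈ S → cmp w v = false) = u.1.1 := by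
        obtain ⟨⟨s, x⟩, k⟩ := u
        cases s
        · simp only [decide_eq_false_iff_not]
          rintro ⟨v, v1, v2, -⟩
          have := u3 v v2
          simp [cmp, v1] at this
        · exact decide_eq_true ⟨_, rfl, u2, u3⟩
      obtain ⟨c', hc1, hc2⟩ := mem_As.1 (inl_mem_vs.1 (hS _ u2))
      rw [u1, hi] at hc1
      obtain rfl : c = c' := Option.some.inj hc1
      rcases hc2 with h | h | h
      · left; rw [← h]; exact hval
      · right; left; rw [← h]; exact hval
      · right; right; rw [← h]; exact hval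
    have hcol : ∀ e, Active ψ.length S e →
        decide ((if e.1.2 < j then e.1.2 else e.1.2 + 1) % 2 = 0) ≠
          decide ((if e.2.2 < j then e.2.2 else e.2.2 + 1) % 2 = 0) := by
      intro e he
      have m1 := hmiss e he
      have l1 := lt_of_mem_As (inl_mem_vs.1 (hS _ he.2.1))
      have v1 := he.1
      simp only [valid, Bool.and_eq_true, decide_eq_true_eq] at v1
      have v2 : e.2.2 = e.1.2 + 1 ∨ (e.2.2 = 0 ∧ e.1.2 + 1 = ψ.length) := by
        by_cases h : e.1.2 + 1 = ψ.length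
        · right; rw [← v1.1, h]; simp
        · left; rw [← v1.1, Nat.mod_eq_of_lt (by omega)]
      simp only [ne_eq, decide_eq_decide]
      split_ifs <;> omega
    refine cc_of_col _ S (fun u => decide ((if u.2 < j then u.2 else u.2 + 1) % 2 = 0)) hcol ?_
    intro _ _ _ _ _
    obtain ⟨e, he⟩ := hact
    exact ⟨e.1, e.2, he.2.1, he.2.2.1, hcol e he⟩
  · by_cases hne : ∃ a, Sum.inl a ∈ S
    · obtain ⟨a, ha⟩ := hne
      refine cc_of_col _ S (fun u => decide (u = a)) (fun e he => absurd ⟨e, he⟩ hact) ?_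
      intro u v hu hv huv
      by_cases h : u = a
      · exact ⟨u, v, hu, hv, by simp [h, (h ▸ huv.symm : v ≠ a)]⟩
      · exact ⟨u, a, hu, ha, by simp [h]⟩
    · refine cc_of_col _ S (fun _ => false) (fun e he => absurd ⟨e, he⟩ hact) ?_
      intro u v hu
      exact absurd ⟨u, hu⟩ hne

theorem flat_ne {V : Type} {A : V → V → Prop} {S : Set V} {c : V → Bool}
    (hc : ∀ K : Set V, K ⊆ S → (∀ u ∈ K, ∀ v ∈ K, u ≠ v → A u v) →
      (∀ v ∈ S, (∀ u ∈ K, u ≠ v → A u v) → v ∈ K) → K.Nontrivial → ∃ u ∈ K, ∃ v ∈ K, c u ≠ c v)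
    {x y : V} (hx : x ∈ S) (hy : y ∈ S) (hne : x ≠ y) (h1 : A x y) (h2 : A y x)
    (h3 : ∀ v ∈ S, A x v → A y v → False) : c x ≠ c y := by
  obtain ⟨u, hu, v, hv, huv⟩ := hc {x, y} (by rintro _ (rfl | rfl) <;> assumption)
    (by
      rintro _ (rfl | rfl) _ (rfl | rfl) h
      · exact absurd rfl h
      · exact h1
      · exact h2
      · exact absurd rfl h)
    (by
      intro v hv h
      by_contra hn
      simp only [Set.mem_insert_iff, Set.mem_singleton_iff, not_or] at hn
      exact h3 v hv (h x (by simp) (Ne.symm hn.1)) (h y (by simp) (Ne.symm hn.2)))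
    (Set.nontrivial_pair hne)
  rcases hu with rfl | rfl <;> rcases hv with rfl | rfl
  · exact absurd rfl huv
  · exact huv
  · exact huv.symm
  · exact absurd rfl huv

theorem not_cc_of_sat {ψ : List Cl} (hodd : ψ.length % 2 = 1) (h3 : 3 ≤ ψ.length) (hs : SAT3 ψ) :
    ∃ S : Set Vx, (∀ v ∈ S, v ∈ vs ψ) ∧ ¬ CC (fun a b => ad ψ.length a b = true) S := by
  obtain ⟨τ, hτ⟩ := hs
  have hg : ∀ i, ∃ l : Lit ℕ, τ l.2 = l.1 ∧ (i < ψ.length → (l, i) ∈ As ψ) := by
    intro i
    by_cases hi : i < ψ.length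
    · have hc : ψ[i]? = some ψ[i] := List.getElem?_eq_getElem hi
      rcases hτ _ (List.getElem_mem hi) with h | h | h
      · exact ⟨_, h, fun _ => mem_As.2 ⟨_, hc, Or.inl rfl⟩⟩
      · exact ⟨_, h, fun _ => mem_As.2 ⟨_, hc, Or.inr (Or.inl rfl)⟩⟩
      · exact ⟨_, h, fun _ => mem_As.2 ⟨_, hc, Or.inr (Or.inr rfl)⟩⟩
    · exact ⟨(τ 0, 0), rfl, fun h => absurd h hi⟩
  choose g g1 g2 using hg
  have nc : ∀ i j i' j', cmp (g i, i') (g j, j') = false := by
    intro i j i' j'
    simp only [cmp, Bool.and_eq_false_iff, decide_eq_false_iff_not]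
    by_cases h : (g i).2 = (g j).2
    · right; rw [← g1 i, ← g1 j, h]; simp
    · left; exact h
  let P : AV → Prop := fun u => u.2 < ψ.length ∧ u.1 = g u.2
  have nk : ∀ w e, P w → P e.1 → P e.2 → kills w e = false := by
    rintro ⟨w, i⟩ ⟨⟨u, j⟩, ⟨v, k⟩⟩ ⟨-, hw⟩ ⟨-, hu⟩ ⟨-, hv⟩
    simp only at hw hu hv
    subst hw hu hv
    simp [kills, nc]
  have hP : ∀ u, P u → u ∈ As ψ := by
    rintro ⟨w, i⟩ ⟨h1, hw⟩
    simp only at hw
    subst hw
    exact g2 i h1
  refine ⟨{x | Sum.elim P (fun b => P b.2.1 ∧ P b.2.2) x}, ?_, ?_⟩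
  · rintro (u | b) h
    · exact inl_mem_vs.2 (hP u h)
    · exact inr_mem_vs.2 ⟨hP _ h.1, hP _ h.2⟩
  · rintro ⟨c, hc⟩
    have step : ∀ u v : AV, P u → P v → (u.2 + 1) % ψ.length = v.2 →
        c (Sum.inl u) ≠ c (Sum.inl v) := by
      intro u v hu hv huv
      have hne : u ≠ v := by
        rintro rfl
        have := hu.1
        by_cases h : u.2 + 1 = ψ.length
        · rw [h, Nat.mod_self] at huv; omega
        · rw [Nat.mod_eq_of_lt (by omega)] at huv; omega
      have hval : valid ψ.length u v = true := by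
        have := nk u (v, v) hu hv hv
        simp only [kills, Bool.or_self] at this
        simp [valid, huv, this]
      have e1 : ∀ s : Bool, c (Sum.inr (s, u, v)) ≠ c (Sum.inl (ep (s, u, v))) := by
        intro s
        refine flat_ne hc (x := Sum.inr (s, u, v)) ⟨hu, hv⟩ (by cases s; exacts [hu, hv])
          (by simp) (by simp [ad, adAB]) (by simp [ad, adAB]) ?_
        rintro (w | ⟨s', e⟩) hw a1 a2
        · have := nk w (u, v) hw hu hv
          simp [ad, adAB, this] at a1 a2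
          exact a2 a1.symm
        · simp only [ad, Sum.elim_inr, Sum.elim_inl, adBB, adAB, Bool.and_eq_true,
            decide_eq_true_eq, Bool.or_eq_true] at a1 a2
          obtain ⟨a3, rfl, -⟩ := a1
          rcases a2 with a2 | a2
          · cases s <;> cases s' <;> simp at a3 <;> simp [ep] at a2
            · exact hne a2
            · exact hne a2.symm
          · rw [nk _ (u, v) (by cases s; exacts [hu, hv]) hu hv] at a2
            exact absurd a2 (by simp)
      have e2 : c (Sum.inr (false, u, v)) ≠ c (Sum.inr (true, u, v)) := by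
        refine flat_ne hc (x := Sum.inr (false, u, v)) (y := Sum.inr (true, u, v)) ⟨hu, hv⟩
          ⟨hu, hv⟩ (by simp) (by simp [ad, adBB, hval]) (by simp [ad, adBB, hval]) ?_
        rintro (w | ⟨s', e⟩) hw a1 a2
        · have := nk w (u, v) hw hu hv
          have b1 : adAB w (false, u, v) = true := a1
          have b2 : adAB w (true, u, v) = true := a2
          rw [adAB, this, Bool.or_false] at b1 b2
          exact hne ((of_decide_eq_true b1).symm.trans (of_decide_eq_true b2))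
        · cases s' <;> simp [ad, adBB] at a1 a2
      have e3 := e1 false
      have e4 := e1 true
      simp only [ep, cond_true, cond_false] at e3 e4
      revert e2 e3 e4
      cases c (Sum.inr (false, u, v)) <;> cases c (Sum.inr (true, u, v)) <;>
        cases c (Sum.inl u) <;> cases c (Sum.inl v) <;> simp
    have par : ∀ i, i < ψ.length →
        (c (Sum.inl (g i, i)) = c (Sum.inl (g 0, 0)) ↔ i % 2 = 0) := by
      intro i
      induction i with
      | zero => simp
      | succ i ih =>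
        intro hi
        have h1 := ih (by omega)
        have h2 := step (g i, i) (g (i + 1), i + 1) ⟨by simp only; omega, rfl⟩ ⟨hi, rfl⟩
          (Nat.mod_eq_of_lt hi)
        have h4 : (i + 1) % 2 = 0 ↔ ¬ i % 2 = 0 := by omega
        rw [h4, ← h1]
        revert h2
        cases c (Sum.inl (g i, i)) <;> cases c (Sum.inl (g (i + 1), i + 1)) <;>
          cases c (Sum.inl (g 0, 0)) <;> simp
    have h1 := step (g (ψ.length - 1), ψ.length - 1) (g 0, 0) ⟨by simp only; omega, rfl⟩
      ⟨by simp only; omega, rfl⟩ (by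
        simp only
        rw [show ψ.length - 1 + 1 = ψ.length by omega, Nat.mod_self])
    exact h1 ((par _ (by omega)).2 (by omega))

def pad (φ : List Cl) : List Cl := ((true, 0), (false, 0), (true, 1)) :: (φ ++ φ)

theorem poly_pad : Poly pad := by unfold pad; fun_prop

theorem sat_pad (φ : List Cl) : SAT3 (pad φ) ↔ SAT3 φ := by
  constructor
  · rintro ⟨τ, h⟩
    exact ⟨τ, fun c hc => h c (by simp [pad, hc])⟩
  · rintro ⟨τ, h⟩
    refine ⟨τ, fun c hc => ?_⟩
    simp only [pad, List.mem_cons, List.mem_append, or_self] at hc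
    rcases hc with rfl | hc
    · cases τ 0 <;> simp
    · exact h c hc

theorem distL_pad {φ : List Cl} (h : Distinct3 φ) : DistL (pad φ) := by
  intro c hc
  simp only [pad, List.mem_cons, List.mem_append, or_self] at hc
  rcases hc with rfl | hc
  · simp
  · obtain ⟨h1, h2, h3⟩ := h c hc
    exact ⟨fun e => h1 (by rw [e]), fun e => h2 (by rw [e]), fun e => h3 (by rw [e])⟩

theorem main (L : Set (List Bool)) (hL : InNP Lᶜ) :
    ∃ (n : List Bool → ℕ) (G : ∀ x, SimpleGraph (Fin (n x))),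
      PolyTime (fun x => bits (adjMatrix (G x))) ∧ ∀ x, x ∈ L ↔ StronglyTwoDivisible (G x) := by
  obtain ⟨f, hf, h1, h2⟩ := hardPr_SAT3b _ hL
  refine ⟨fun x => (vs (pad (f x))).length, fun x => listGraph (vs (pad (f x)))
    (ad (pad (f x)).length) (ad_symm _) (ad_irrefl _), ?_, fun x => ?_⟩
  · simp only [adjMatrix_listGraph]
    exact PC.toPolyTime_bits (poly_mat poly_pad) f hf
  · have hlen : (pad (f x)).length = 2 * (f x).length + 1 := by simp [pad]; ring
    have hpos := List.length_pos_of_ne_nil (h1 x).2.2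
    have h3 : x ∈ L ↔ ¬ SAT3 (pad (f x)) := by
      rw [sat_pad, ← h2 x]; simp
    rw [h3, strong_iff _ (nodup_vs (distL_pad (h1 x).1))]
    constructor
    · exact fun hu => cc_of_unsat (by omega) hu
    · intro h hs
      obtain ⟨S, k1, k2⟩ := not_cc_of_sat (by omega) (by omega) hs
      exact k2 (h S k1)

end Pool.Agent.H320Z.Div
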