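import Mathlib

set_option autoImplicit false

/-! Every analytic quasi-order is Borel equivalent to the quasi-order induced by a continuous
functional action of a Polish monoid (problem MP_c1fe20_lc). -/

namespace Pool.Agent.H320Z.MonoidAct

open Set Filter Topology MeasureTheory

abbrev BB : Type := ℕ → ℕ

/-- `b|n` followed by the reset symbol `0` followed by `w`. -/
def glue (n : ℕ) (b w : BB) : BB := fun i => if i < n then b i else if i = n then 0 else w (i - n - 1)

open Classical in
/-- Output `b` as long as `w` agrees with `a`; at the first disagreement write `0`, then copy `w`. -/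
noncomputable def st (a b w : BB) : BB := fun i =>
  if ∀ m ≤ i, a m = w m then b i
  else if i = sInf {n | a n ≠ w n} then 0 else w (i - sInf {n | a n ≠ w n} - 1)

theorem st_self (a b : BB) : st a b a = b := by
  funext i; simp [st]

theorem st_ne {a w : BB} (b : BB) (h : a ≠ w) : st a b w = glue (sInf {n | a n ≠ w n}) b w := by
  have hne : {n | a n ≠ w n}.Nonempty := by
    by_contra hc
    apply h
    funext n
    by_contra hn
    exact hc ⟨n, hn⟩
  funext i
  unfold st glue
  by_cases hi : i < sInf {n | a n ≠ w n}
  · rw [if_pos hi, if_pos]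
    intro m hm
    by_contra hc
    have := Nat.sInf_le (s := {n | a n ≠ w n}) (m := m) hc
    omega
  · rw [if_neg hi, if_neg]
    intro hc
    exact Nat.sInf_mem hne (hc _ (by omega))

theorem st_local {a b w a' b' w' : BB} (i : ℕ) (ha : ∀ m ≤ i, a' m = a m) (hb : b' i = b i)
    (hw : ∀ m ≤ i, w' m = w m) : st a' b' w' i = st a b w i := by
  unfold st
  by_cases h : ∀ m ≤ i, a m = w m
  · rw [if_pos h, if_pos, hb]
    intro m hm; rw [ha m hm, hw m hm, h m hm]
  · have h' : ¬ ∀ m ≤ i, a' m = w' m := by
      intro hc; apply h; intro m hm; rw [← ha m hm, ← hw m hm, hc m hm]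
    rw [if_neg h, if_neg h']
    push Not at h h'
    obtain ⟨m, hm, hm'⟩ := h
    obtain ⟨k, hk, hk'⟩ := h'
    have e1 : sInf {n | a n ≠ w n} ≤ i := (Nat.sInf_le (s := {n | a n ≠ w n}) hm').trans hm
    have e2 : sInf {n | a' n ≠ w' n} ≤ i := (Nat.sInf_le (s := {n | a' n ≠ w' n}) hk').trans hk
    have m1 := Nat.sInf_mem (s := {n | a n ≠ w n}) ⟨m, hm'⟩
    have m2 := Nat.sInf_mem (s := {n | a' n ≠ w' n}) ⟨k, hk'⟩
    have e : sInf {n | a' n ≠ w' n} = sInf {n | a n ≠ w n} := by
      apply le_antisymm
      · apply Nat.sInf_le
        change a' _ ≠ w' _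
        rw [ha _ e1, hw _ e1]; exact m1
      · apply Nat.sInf_le
        change a _ ≠ w _
        rw [← ha _ e2, ← hw _ e2]; exact m2
    rw [e, hw _ (by omega)]

theorem st_cont : Continuous (fun p : BB × BB × BB => st p.1 p.2.1 p.2.2) := by
  refine continuous_pi fun i => ?_
  refine IsLocallyConstant.continuous ((IsLocallyConstant.iff_eventually_eq _).2 fun p => ?_)
  have key : ∀ f : BB × BB × BB → ℕ, Continuous f → ∀ᶠ q in 𝓝 p, f q = f p := fun f hf =>
    ((IsLocallyConstant.iff_continuous f).2 hf).eventually_eq p
  have h1 : ∀ᶠ q in 𝓝 p, ∀ m ∈ Finset.range (i + 1), q.1 m = p.1 m :=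
    (eventually_all_finset _).2 fun m _ => key (fun q => q.1 m) (by fun_prop)
  have h2 : ∀ᶠ q in 𝓝 p, q.2.1 i = p.2.1 i := key (fun q => q.2.1 i) (by fun_prop)
  have h3 : ∀ᶠ q in 𝓝 p, ∀ m ∈ Finset.range (i + 1), q.2.2 m = p.2.2 m :=
    (eventually_all_finset _).2 fun m _ => key (fun q => q.2.2 m) (by fun_prop)
  filter_upwards [h1, h2, h3] with q a1 a2 a3
  exact st_local i (fun m hm => a1 m (Finset.mem_range.2 (by omega))) a2
    (fun m hm => a3 m (Finset.mem_range.2 (by omega)))

/-- Existence of a Borel evaluation map that forgets everything up to a reset symbol. -/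
theorem exists_val (X : Type*) [MeasurableSpace X] [StandardBorelSpace X] [Nonempty X] :
    ∃ (val : BB → X) (σ : X → BB), Measurable val ∧ Measurable σ ∧ (∀ x, val (σ x) = x) ∧
      ∀ n b w, val (glue n b w) = val w := by
  classical
  obtain ⟨ι, hι, hinj⟩ := MeasurableSpace.measurable_injection_nat_bool_of_countablySeparated X
  have hemb := hι.measurableEmbedding hinj
  let ρ : (ℕ → Bool) → X := hemb.invFun
  have hρ : Measurable ρ := hemb.measurable_invFun
  have hρι : ∀ x, ρ (ι x) = x := hemb.leftInverse_invFun
  let x0 : X := Classical.arbitrary X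
  let good : ℕ → BB → Prop := fun N w => ∀ m, N ≤ m → w m ≠ 0
  have hgood : ∀ N, MeasurableSet {w | good N w} := by
    intro N
    have : {w | good N w} = ⋂ m, {w : BB | N ≤ m → w m ≠ 0} := by ext w; simp [good]
    rw [this]
    refine MeasurableSet.iInter fun m => ?_
    by_cases h : N ≤ m
    · simp only [h, true_imp_iff]
      exact (measurable_pi_apply (X := fun _ : ℕ => ℕ) m)
        (show MeasurableSet {k : ℕ | k ≠ 0} from MeasurableSet.of_discrete)
    · simp [h]
  have hex : MeasurableSet {w | ∃ N, good N w} := by
    have : {w | ∃ N, good N w} = ⋃ N, {w | good N w} := by ext w; simp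
    rw [this]; exact MeasurableSet.iUnion hgood
  let p : ℕ → BB → Prop := fun N w => good N w ∨ ¬ ∃ N, good N w
  have hp : ∀ w, ∃ N, p N w := by
    intro w
    by_cases h : ∃ N, good N w
    · obtain ⟨N, hN⟩ := h; exact ⟨N, Or.inl hN⟩
    · exact ⟨0, Or.inr h⟩
  let f : ℕ → BB → X := fun N w =>
    if ∃ N, good N w then ρ (fun i => decide (w (N + i) = 1)) else x0
  have hf : ∀ N, Measurable (f N) := by
    intro N
    refine Measurable.ite hex (hρ.comp (measurable_pi_lambda _ fun i => ?_)) measurable_const
    exact (measurable_of_countable (fun k : ℕ => decide (k = 1))).comp (measurable_pi_apply (N + i))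
  refine ⟨fun w => f (Nat.find (hp w)) w, fun x i => if ι x i then 1 else 2,
    Measurable.find (p := p) hf (fun N => (hgood N).union hex.compl) hp, ?_, ?_, ?_⟩
  · refine measurable_pi_lambda _ fun i => ?_
    exact (measurable_of_countable (fun k : Bool => if k then (1 : ℕ) else 2)).comp
      ((measurable_pi_apply i).comp hι)
  · intro x
    have hg : good 0 (fun i => if ι x i then 1 else 2) := by
      intro m _; dsimp only; split_ifs <;> norm_num
    have h0 : Nat.find (hp (fun i => if ι x i then 1 else 2)) = 0 :=
      (Nat.find_eq_zero _).2 (Or.inl hg)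
    simp only [h0, f]
    rw [if_pos ⟨0, hg⟩]
    conv_rhs => rw [← hρι x]
    congr 1
    funext i
    cases h : ι x i <;> simp [h]
  · intro n b w
    have g1 : ∀ N, good N w → good (n + 1 + N) (glue n b w) := by
      intro N hN m hm
      unfold glue
      rw [if_neg (by omega), if_neg (by omega)]
      exact hN _ (by omega)
    have g2 : ∀ N, good N (glue n b w) → n + 1 ≤ N ∧ good (N - (n + 1)) w := by
      intro N hN
      have h1 : n + 1 ≤ N := by
        by_contra hc
        apply hN n (by omega)
        simp [glue]
      refine ⟨h1, fun m hm => ?_⟩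
      have := hN (m + n + 1) (by omega)
      unfold glue at this
      rw [if_neg (by omega), if_neg (by omega)] at this
      rwa [show m + n + 1 - n - 1 = m by omega] at this
    by_cases h : ∃ N, good N w
    · have h' : ∃ N, good N (glue n b w) := by
        obtain ⟨N, hN⟩ := h; exact ⟨_, g1 N hN⟩
      have e : Nat.find (hp (glue n b w)) = n + 1 + Nat.find (hp w) := by
        have s1 : good (Nat.find (hp w)) w := (Nat.find_spec (hp w)).resolve_right (not_not.2 h)
        have s2 : good (Nat.find (hp (glue n b w))) (glue n b w) :=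
          (Nat.find_spec (hp (glue n b w))).resolve_right (not_not.2 h')
        have t1 := Nat.find_min' (hp (glue n b w)) (Or.inl (g1 _ s1))
        have t2 := Nat.find_min' (hp w) (Or.inl (g2 _ s2).2)
        have t3 := (g2 _ s2).1
        omega
      simp only [f, e]
      rw [if_pos h, if_pos h']
      congr 1
      funext i
      unfold glue
      rw [if_neg (by omega), if_neg (by omega),
        show n + 1 + Nat.find (hp w) + i - n - 1 = Nat.find (hp w) + i by omega]
    · have h' : ¬ ∃ N, good N (glue n b w) := by
        rintro ⟨N, hN⟩; exact h ⟨_, (g2 N hN).2⟩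
      simp only [f]
      rw [if_neg h, if_neg h']

/-- The coordinates of a word. -/
def emb (l : FreeMonoid BB) : ℕ × (ℕ → BB) :=
  ((FreeMonoid.toList l).length, fun i => (FreeMonoid.toList l).getD i 0)

theorem emb_inj : Function.Injective emb := by
  intro l l' h
  apply FreeMonoid.toList.injective
  have h1 : (FreeMonoid.toList l).length = (FreeMonoid.toList l').length := congrArg Prod.fst h
  apply List.ext_getElem h1
  intro i hi hi'
  have h2 : (FreeMonoid.toList l).getD i 0 = (FreeMonoid.toList l').getD i 0 :=
    congrFun (congrArg Prod.snd h) i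
  rwa [List.getD_eq_getElem _ _ hi, List.getD_eq_getElem _ _ hi'] at h2

theorem range_emb : range emb = ⋂ i : ℕ, ({p : ℕ × (ℕ → BB) | i < p.1} ∪ {p | p.2 i = 0}) := by
  ext p
  simp only [mem_range, mem_iInter, mem_union, mem_ofPred_eq]
  constructor
  · rintro ⟨l, rfl⟩ i
    by_cases h : i < (FreeMonoid.toList l).length
    · exact Or.inl h
    · exact Or.inr (List.getD_eq_default _ _ (by omega))
  · intro h
    refine ⟨FreeMonoid.ofList (List.ofFn fun i : Fin p.1 => p.2 i), ?_⟩
    unfold emb
    rw [FreeMonoid.toList_ofList]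
    refine Prod.ext (by simp) (funext fun i => ?_)
    by_cases hi : i < p.1
    · dsimp only
      rw [List.getD_eq_getElem _ _ (by simpa using hi)]
      simp
    · dsimp only
      rw [List.getD_eq_default _ _ (by simpa using hi)]
      exact ((h i).resolve_left hi).symm

/-- The topology on the free monoid over the Baire space. -/
@[reducible] def topM : TopologicalSpace (FreeMonoid BB) :=
  TopologicalSpace.induced emb inferInstance

attribute [local instance] topM

theorem emb_closedEmb : IsClosedEmbedding emb := by
  refine ⟨⟨⟨rfl⟩, emb_inj⟩, ?_⟩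
  rw [range_emb]
  refine isClosed_iInter fun i => IsClosed.union ?_ ?_
  · exact (isClosed_discrete {k : ℕ | i < k}).preimage continuous_fst
  · exact isClosed_eq (by fun_prop) continuous_const

theorem polishM : PolishSpace (FreeMonoid BB) := emb_closedEmb.polishSpace

theorem contMulM : ContinuousMul (FreeMonoid BB) := by
  refine ⟨continuous_induced_rng.2 ?_⟩
  let Φ : ℕ × (ℕ × (ℕ → BB) × (ℕ → BB)) → ℕ × (ℕ → BB) := fun q =>
    (q.1 + q.2.1, fun i => if i < q.1 then q.2.2.1 i else q.2.2.2 (i - q.1))
  have hΦ : Continuous Φ := by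
    refine continuous_prod_of_discrete_left.2 fun n => ?_
    refine Continuous.prodMk (by fun_prop) (continuous_pi fun i => ?_)
    by_cases h : i < n
    · simp only [h, if_true]; fun_prop
    · simp only [h, if_false]; fun_prop
  have he : Continuous emb := emb_closedEmb.continuous
  have : (emb ∘ fun p : FreeMonoid BB × FreeMonoid BB => p.1 * p.2) =
      Φ ∘ fun p => ((emb p.1).1, (emb p.2).1, (emb p.1).2, (emb p.2).2) := by
    funext p
    simp only [Function.comp, emb, Φ, FreeMonoid.toList_mul, List.length_append]
    refine Prod.ext rfl (funext fun i => ?_)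
    dsimp only
    split_ifs with h
    · exact List.getD_append _ _ _ _ h
    · exact List.getD_append_right _ _ _ _ (by omega)
  rw [this]
  exact hΦ.comp ((he.comp continuous_fst).fst.prodMk ((he.comp continuous_snd).fst.prodMk
    ((he.comp continuous_fst).snd.prodMk (he.comp continuous_snd).snd)))

/-- The action of the free monoid generated by a one-step map. -/
def act (step : BB → BB → BB) (l : FreeMonoid BB) (w : BB) : BB :=
  (FreeMonoid.toList l).foldr step w

/-- The same in coordinates. -/
def theta (step : BB → BB → BB) : ℕ → (ℕ → BB) → BB → BB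
  | 0, _, w => w
  | n + 1, s, w => step (s 0) (theta step n (fun i => s (i + 1)) w)

theorem theta_cont (step : BB → BB → BB) (hs : Continuous fun p : BB × BB => step p.1 p.2)
    (n : ℕ) : Continuous fun p : (ℕ → BB) × BB => theta step n p.1 p.2 := by
  induction n with
  | zero => exact continuous_snd
  | succ n ih =>
    have h1 : Continuous fun p : (ℕ → BB) × BB => ((fun i => p.1 (i + 1), p.2) : (ℕ → BB) × BB) := by
      fun_prop
    have h2 : Continuous fun p : (ℕ → BB) × BB =>
        ((p.1 0, theta step n (fun i => p.1 (i + 1)) p.2) : BB × BB) :=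
      Continuous.prodMk (by fun_prop) (ih.comp h1)
    exact hs.comp h2

theorem foldr_eq_theta (step : BB → BB → BB) (l : List BB) (w : BB) :
    l.foldr step w = theta step l.length (fun i => l.getD i 0) w := by
  induction l with
  | nil => rfl
  | cons z l ih => simp only [List.foldr_cons, List.length_cons, theta, ih]; rfl

theorem act_cont (step : BB → BB → BB) (hs : Continuous fun p : BB × BB => step p.1 p.2) :
    Continuous fun p : FreeMonoid BB × BB => act step p.1 p.2 := by
  have h1 : Continuous fun q : ℕ × ((ℕ → BB) × BB) => theta step q.1 q.2.1 q.2.2 :=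
    continuous_prod_of_discrete_left.2 fun n => theta_cont step hs n
  have he : Continuous emb := emb_closedEmb.continuous
  have : (fun p : FreeMonoid BB × BB => act step p.1 p.2) =
      (fun q : ℕ × ((ℕ → BB) × BB) => theta step q.1 q.2.1 q.2.2) ∘
        fun p => ((emb p.1).1, (emb p.1).2, p.2) := by
    funext p
    exact foldr_eq_theta step _ _
  rw [this]
  exact h1.comp ((he.comp continuous_fst).fst.prodMk
    ((he.comp continuous_fst).snd.prodMk continuous_snd))

theorem main (X : Type*) [TopologicalSpace X] [PolishSpace X] [MeasurableSpace X] [BorelSpace X]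
    (R : X → X → Prop) (hrefl : ∀ x, R x x) (htrans : ∀ x y z, R x y → R y z → R x z)
    (hR : AnalyticSet {p : X × X | R p.1 p.2}) :
    ∃ (M : Type) (_ : Monoid M) (_ : TopologicalSpace M) (_ : PolishSpace M) (_ : ContinuousMul M)
      (Y : Type) (_ : TopologicalSpace Y) (_ : PolishSpace Y) (_ : MeasurableSpace Y)
      (_ : BorelSpace Y) (a : M → Y → Y),
      Continuous (fun p : M × Y => a p.1 p.2) ∧ (∀ y, a 1 y = y) ∧
      (∀ g h y, a h (a g y) = a (h * g) y) ∧
      (∃ f : X → Y, Measurable f ∧ ∀ x x', R x x' ↔ ∃ g, a g (f x) = f x') ∧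
      (∃ f : Y → X, Measurable f ∧ ∀ y y', (∃ g, a g y = y') ↔ R (f y) (f y')) := by
  rcases isEmpty_or_nonempty X with hX | hX
  · refine ⟨PUnit, inferInstance, inferInstance, inferInstance, inferInstance, Empty,
      inferInstance, inferInstance, ⊤, ⟨(borel_eq_top_of_discrete).symm⟩, fun _ y => y,
      continuous_snd, fun _ => rfl, fun _ _ _ => rfl,
      ⟨fun x => isEmptyElim x, measurable_of_empty _, fun x => isEmptyElim x⟩,
      ⟨fun x => isEmptyElim x, measurable_of_empty _, fun x => isEmptyElim x⟩⟩
  obtain ⟨val, σ, hval, hσ, hvσ, hglue⟩ := exists_val X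
  have hR' : AnalyticSet {p : BB × BB | R (val p.1) (val p.2)} := by
    rw [AnalyticSet] at hR
    rcases hR with h | ⟨g, hg, hr⟩
    · exfalso
      have x := Classical.arbitrary X
      have : (x, x) ∈ {p : X × X | R p.1 p.2} := hrefl x
      rw [h] at this
      exact this
    · have hm : MeasurableSet {q : (BB × BB) × BB | (val q.1.1, val q.1.2) = g q.2} :=
        measurableSet_eq_fun (by fun_prop) (hg.measurable.comp measurable_snd)
      have := hm.analyticSet_image (f := Prod.fst) measurable_fst
      convert this using 1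
      ext p
      simp only [mem_ofPred_eq, mem_image, Prod.exists]
      constructor
      · intro h
        have : (val p.1, val p.2) ∈ range g := by rw [hr]; exact h
        obtain ⟨z, hz⟩ := this
        exact ⟨p.1, p.2, z, hz.symm, rfl⟩
      · rintro ⟨a, b, z, hz, rfl⟩
        have : (val a, val b) ∈ range g := ⟨z, hz.symm⟩
        rw [hr] at this
        exact this
  rw [AnalyticSet] at hR'
  rcases hR' with h | ⟨G, hG, hr⟩
  · exfalso
    have : ((0, 0) : BB × BB) ∈ {p : BB × BB | R (val p.1) (val p.2)} := hrefl _
    rw [h] at this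
    exact this
  let step : BB → BB → BB := fun z w => st (G z).1 (G z).2 w
  have hs : Continuous fun p : BB × BB => step p.1 p.2 :=
    st_cont.comp (f := fun p : BB × BB => ((G p.1).1, (G p.1).2, p.2)) (by fun_prop)
  have hstep : ∀ z w, R (val w) (val (step z w)) := by
    intro z w
    by_cases h : (G z).1 = w
    · have h1 : step z w = (G z).2 := by simp only [step]; rw [← h, st_self]
      have h2 : G z ∈ {p : BB × BB | R (val p.1) (val p.2)} := by rw [← hr]; exact ⟨z, rfl⟩
      rw [h1, ← h]; exact h2
    · have h1 : step z w = glue _ (G z).2 w := st_ne _ h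
      rw [h1, hglue]; exact hrefl _
  have hiff : ∀ w w', (∃ g, act step g w = w') ↔ R (val w) (val w') := by
    intro w w'
    constructor
    · rintro ⟨g, rfl⟩
      unfold act
      induction FreeMonoid.toList g with
      | nil => exact hrefl _
      | cons z l ih => exact htrans _ _ _ ih (hstep z _)
    · intro h
      have : (w, w') ∈ range G := by rw [hr]; exact h
      obtain ⟨z, hz⟩ := this
      refine ⟨FreeMonoid.of z, ?_⟩
      change st (G z).1 (G z).2 w = w'
      rw [hz]; exact st_self _ _
  refine ⟨FreeMonoid BB, inferInstance, topM, polishM, contMulM, BB, inferInstance, inferInstance,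
    inferInstance, inferInstance, act step, act_cont step hs, fun _ => rfl, ?_,
    ⟨σ, hσ, fun x x' => ?_⟩, ⟨val, hval, hiff⟩⟩
  · intro g h y
    unfold act
    rw [FreeMonoid.toList_mul, List.foldr_append]
  · rw [hiff, hvσ, hvσ]

end Pool.Agent.H320Z.MonoidAct
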