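import Pool.Agent.H320Z.PDCompl
import Pool.Agent.H671R2.PolyAuto

set_option autoImplicit false

/-! Coding of the tree by an adjacency matrix. -/

namespace Pool.Agent.H320Z.PD

open Pool.Agent.NPC Pool.Agent.NPC.R671 Hub Vt

abbrev Lam : Type := ℕ × ℕ × ℕ × ℕ

def validL (l : List ℕ) (B : ℕ) (z : Lam) : Bool := decide (
  (z.1 = 0 ∧ z.2.1 ≤ B ∧ z.2.2.1 = 0 ∧ z.2.2.2 ≤ B + 1) ∨
  (z.1 = 1 ∧ z.2.1 ≤ B ∧ z.2.2.1 ≤ B ∧ ¬ z.2.1 = z.2.2.1 ∧ z.2.2.2 ≤ B) ∨
  (z.1 = 2 ∧ z.2.1 < l.length ∧ z.2.2.1 = 0 ∧ z.2.2.2 ≤ B) ∨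
  (z.1 = 3 ∧ z.2.1 < l.length ∧ z.2.2.1 < l.getD z.2.1 0 ∧ z.2.2.2 ≤ B) ∨
  (z.1 = 4 ∧ z.2.1 = 0 ∧ z.2.2.1 = 0 ∧ z.2.2.2 = 0))

def parL (B f : ℕ) (z : Lam) : Lam :=
  if 0 < z.2.2.2 then (z.1, z.2.1, z.2.2.1, 0)
  else if z.1 = 0 then (if z.2.1 < f then (4, 0, 0, 0) else (0, 0, 0, 0))
  else if z.1 = 1 then (0, if z.2.2.1 = 0 then B else 0, 0, 0)
  else if z.1 = 3 then (2, z.2.1, 0, 0) else (4, 0, 0, 0)

def adL (B f : ℕ) (u v : Lam) : Bool := decide (¬ u = v ∧ (parL B f u = v ∨ parL B f v = u))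

def vsL (R l : List ℕ) (B : ℕ) : List Lam :=
  (List.range 5 ×ˢ (R ×ˢ (R ×ˢ R))).filter (validL l B)

def matL (R l : List ℕ) (B f : ℕ) : List (List Bool) :=
  (vsL R l B).map fun u => (vsL R l B).map fun w => adL B f u w

section PolyT
variable {α : Type} [TEnc α]

@[fun_prop] theorem poly_validL {l : α → List ℕ} {B : α → ℕ} {z : α → Lam} (hl : Poly l)
    (hB : Poly B) (hz : Poly z) : Poly (fun x => validL (l x) (B x) (z x)) := by
  unfold validL; fun_prop

@[fun_prop] theorem poly_parL {B f : α → ℕ} {z : α → Lam} (hB : Poly B) (hf : Poly f)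
    (hz : Poly z) : Poly (fun x => parL (B x) (f x) (z x)) := by
  unfold parL; fun_prop

@[fun_prop] theorem poly_adL {B f : α → ℕ} {z w : α → Lam} (hB : Poly B) (hf : Poly f)
    (hz : Poly z) (hw : Poly w) : Poly (fun x => adL (B x) (f x) (z x) (w x)) := by
  unfold adL; fun_prop

@[fun_prop] theorem poly_vsL {R l : α → List ℕ} {B : α → ℕ} (hR : Poly R) (hl : Poly l)
    (hB : Poly B) : Poly (fun x => vsL (R x) (l x) (B x)) := by
  unfold vsL; fun_prop

theorem poly_matL {R l : α → List ℕ} {B f : α → ℕ} (hR : Poly R) (hl : Poly l)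
    (hB : Poly B) (hf : Poly f) : Poly (fun x => matL (R x) (l x) (B x) (f x)) := by
  unfold matL; fun_prop

end PolyT

theorem adL_symm (B f : ℕ) (u v : Lam) : adL B f u v = adL B f v u := by
  simp only [adL, eq_comm, or_comm]

theorem adL_irrefl (B f : ℕ) (u : Lam) : adL B f u u = false := by simp [adL]

variable {B n : ℕ} {sz : Fin n → ℕ}

def codeH (t : ℕ) : Hub B n sz → Lam
  | U i => (0, i.1, 0, t)
  | W c m _ => (1, c.1, m.1, t)
  | C x => (2, x.1, 0, t)
  | Y x j => (3, x.1, j.1, t)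

def code : Vt B n sz → Lam
  | P => (4, 0, 0, 0)
  | H a => codeH 0 a
  | L a t => codeH (t.1 + 1) a
  | E i => (0, i.1, 0, B + 1)

theorem codeH_t (t : ℕ) (a : Hub B n sz) : (codeH t a).2.2.2 = t := by cases a <;> rfl

theorem codeH_tag (t : ℕ) (a : Hub B n sz) : (codeH t a).1 < 4 := by cases a <;> simp [codeH]

theorem codeH_inj {t t' : ℕ} {a a' : Hub B n sz} (h : codeH t a = codeH t' a') : a = a' := by
  cases a <;> cases a' <;> simp only [codeH, Prod.mk.injEq] at h <;> try omega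
  · rw [Fin.ext h.2.1]
  · obtain rfl := Fin.ext h.2.1
    obtain rfl := Fin.ext h.2.2.1
    rfl
  · rw [Fin.ext h.2.1]
  · obtain rfl := Fin.ext h.2.1
    obtain rfl := Fin.ext h.2.2.1
    rfl

theorem code_inj : Function.Injective (code : Vt B n sz → Lam) := by
  intro u v h
  have h1 := congrArg (fun z : Lam => z.1) h
  have h4 := congrArg (fun z : Lam => z.2.2.2) h
  rcases u with _ | a | ⟨a, t⟩ | i <;> rcases v with _ | a' | ⟨a', t'⟩ | i' <;>
    simp only [code, codeH_t] at h h1 h4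
  · rfl
  · have := codeH_tag 0 a'; omega
  · omega
  · omega
  · have := codeH_tag 0 a; omega
  · rw [codeH_inj h]
  · omega
  · omega
  · omega
  · omega
  · rw [codeH_inj h, Fin.ext (show t.1 = t'.1 by omega)]
  · omega
  · omega
  · omega
  · omega
  · simp only [Prod.mk.injEq] at h
    rw [Fin.ext h.2.1]

theorem code_par (f : ℕ) (v : Vt B n sz) : code (par f v) = parL B f (code v) := by
  rcases v with _ | a | ⟨a, t⟩ | i
  · simp [par, code, parL]
  · rcases a with i | ⟨c, m, h⟩ | x | ⟨x, j⟩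
    · by_cases h : i.1 < f <;> simp [par, code, codeH, parL, h]
    · by_cases h : m.1 = 0 <;> simp [par, code, codeH, parL, h, other]
    · simp [par, code, codeH, parL]
    · simp [par, code, codeH, parL]
  · cases a <;> simp [par, code, codeH, parL]
  · simp [par, code, codeH, parL]

theorem mem_vsL {l : List ℕ} {B N : ℕ} (hN : B + 2 ≤ N) (h1 : l.length ≤ N)
    (h2 : ∀ s ∈ l, s ≤ N) (z : Lam) : z ∈ vsL (List.range N) l B ↔
      ∃ v : Vt B l.length (fun x => l[x]), code v = z := by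
  obtain ⟨a, b, c, t⟩ := z
  simp only [vsL, List.mem_filter, List.mem_product, List.mem_range, validL, decide_eq_true_eq]
  have hub : ∀ (a' : Hub B l.length (fun x => l[x])) (z : Lam), codeH t a' = z → t ≤ B →
      ∃ v : Vt B l.length (fun x => l[x]), code v = z := by
    intro a' z hz ht
    rcases t with _ | t
    · exact ⟨H a', hz⟩
    · exact ⟨L a' ⟨t, by omega⟩, hz⟩
  constructor
  · rintro ⟨-, ⟨rfl, k1, rfl, k2⟩ | ⟨rfl, k1, k2, k3, k4⟩ | ⟨rfl, k1, rfl, k2⟩ |
      ⟨rfl, k1, k2, k3⟩ | ⟨rfl, rfl, rfl, rfl⟩⟩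
    · by_cases ht : t = B + 1
      · exact ⟨E ⟨b, by omega⟩, by simp only [code, ht]⟩
      · exact hub (U ⟨b, by omega⟩) _ rfl (by omega)
    · exact hub (W ⟨b, by omega⟩ ⟨c, by omega⟩ (fun e => k3 (congrArg Fin.val e))) _ rfl k4
    · exact hub (C ⟨b, k1⟩) _ rfl k2
    · rw [List.getD_eq_getElem _ _ k1] at k2
      exact hub (Y ⟨b, k1⟩ ⟨c, k2⟩) _ rfl k3
    · exact ⟨P, rfl⟩
  · have hub2 : ∀ (a' : Hub B l.length (fun x => l[x])), t ≤ B → codeH t a' = (a, b, c, t) →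
        (a < 5 ∧ b < N ∧ c < N ∧ t < N) ∧
        (a = 0 ∧ b ≤ B ∧ c = 0 ∧ t ≤ B + 1 ∨ a = 1 ∧ b ≤ B ∧ c ≤ B ∧ ¬b = c ∧ t ≤ B ∨
          a = 2 ∧ b < l.length ∧ c = 0 ∧ t ≤ B ∨
          a = 3 ∧ b < l.length ∧ c < l.getD b 0 ∧ t ≤ B ∨ a = 4 ∧ b = 0 ∧ c = 0 ∧ t = 0) := by
      intro a' ht h
      rcases a' with i | ⟨c', m, h'⟩ | x | ⟨x, j⟩ <;>
        simp only [codeH, Prod.mk.injEq, and_true] at h <;> obtain ⟨rfl, rfl, rfl⟩ := h
      · have := i.2; omega
      · have := c'.2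
        have := m.2
        have : c'.1 ≠ m.1 := fun e => h' (Fin.ext e)
        omega
      · have := x.2; omega
      · have k1 := x.2
        have k2 : j.1 < l[x.1] := j.2
        have k3 := h2 _ (List.getElem_mem k1)
        rw [List.getD_eq_getElem _ _ k1]
        omega
    rintro ⟨_ | a' | ⟨a', t'⟩ | i, h⟩
    · simp only [code, Prod.mk.injEq] at h
      omega
    · have h3 : 0 = t := by rw [← codeH_t 0 a']; exact congrArg (fun z : Lam => z.2.2.2) h
      subst h3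
      exact hub2 a' (by omega) h
    · have h3 : t'.1 + 1 = t := by
        rw [← codeH_t (t'.1 + 1) a']; exact congrArg (fun z : Lam => z.2.2.2) h
      subst h3
      exact hub2 a' t'.2 h
    · simp only [code, Prod.mk.injEq] at h
      have := i.2
      omega

theorem nodup_vsL (N : ℕ) (l : List ℕ) (B : ℕ) : (vsL (List.range N) l B).Nodup :=
  (List.Nodup.product List.nodup_range (List.Nodup.product List.nodup_range
    (List.Nodup.product List.nodup_range List.nodup_range))).filter _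

def graphL (N : ℕ) (l : List ℕ) (B f : ℕ) : SimpleGraph (Fin (vsL (List.range N) l B).length) :=
  listGraph _ (adL B f) (adL_symm B f) (adL_irrefl B f)

theorem tree_main {l : List ℕ} {B N f : ℕ} (hN : B + 2 ≤ N) (h2 : ∀ s ∈ l, s ≤ N) (hf : 4 ≤ f)
    (hB : f + 1 ≤ B) (hn : l.length ≤ f) : (graphL N l B f).IsTree ∧
      (pd (graphL N l B f) ≤ B + 1 ↔ PackF B f fun x : Fin l.length => l[x]) := by
  obtain ⟨e, he⟩ := exists_equiv _ (nodup_vsL N l B) code code_inj (mem_vsL hN (by omega) h2)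
  have hadj : ∀ i j, (graphL N l B f).Adj i j ↔ Ad f (e i) (e j) := by
    intro i j
    change adL B f _ _ = true ↔ _
    rw [← he, ← he]
    simp only [adL, decide_eq_true_eq, ← code_par, code_inj.eq_iff, Ad]
  have hT : (graphL N l B f).IsTree := by
    refine isTree_of_par (fun i => e.symm (par f (e i))) (e.symm P) (fun i => rk f (e i)) ?_ ?_ ?_
    · intro v hv
      simp only [Equiv.apply_symm_apply]
      exact rk_par (by omega) _ fun h => hv (by rw [← h, Equiv.symm_apply_apply])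
    · simp [par]
    · intro u v
      rw [hadj]
      simp only [Ad, Equiv.symm_apply_eq, ne_eq, e.injective.eq_iff]
  refine ⟨hT, ?_⟩
  rw [pd_le_iff hT.isConnected]
  constructor
  · rintro ⟨j, hj, c, D, h⟩
    exact sound (by omega) hj (h.equiv (A' := Ad f) e.symm fun x y => by simp [hadj])
  · intro h
    obtain ⟨c, D, h⟩ := complete hf hB hn h
    exact ⟨_, le_rfl, _, _, h.equiv e hadj⟩

end Pool.Agent.H320Z.PD
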