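import Pool.Agent.H320Z.PDTree

set_option autoImplicit false

/-! From packings to resolving partitions. -/

namespace Pool.Agent.H320Z.PD

open Hub Vt

variable {B n : ℕ} {sz : Fin n → ℕ}

theorem exists_cy (g : Fin n → Fin (B + 1))
    (hg : ∀ i, ∑ x ∈ Finset.univ.filter (fun x => g x = i), sz x ≤ B) :
    ∃ cy : (Σ x : Fin n, Fin (sz x)) → Fin (B + 1), (∀ p, cy p ≠ g p.1) ∧
      ∀ p q, g p.1 = g q.1 → cy p = cy q → p = q := by
  have h : ∀ i : Fin (B + 1), Nonempty ({p : (Σ x : Fin n, Fin (sz x)) // g p.1 = i} ↪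
      {c : Fin (B + 1) // c ≠ i}) := by
    intro i
    apply Function.Embedding.nonempty_of_card_le
    rw [card_fib, Fintype.card_subtype_compl, Fintype.card_subtype_eq, Fintype.card_fin]
    have := hg i
    omega
  let e := fun i => (h i).some
  refine ⟨fun p => (e (g p.1) ⟨p, rfl⟩).1, fun p => (e (g p.1) ⟨p, rfl⟩).2, ?_⟩
  intro p q h1 h2
  have key : ∀ (i : Fin (B + 1)) (p : Σ x : Fin n, Fin (sz x)) (hp : g p.1 = i),
      (e (g p.1) ⟨p, rfl⟩).1 = (e i ⟨p, hp⟩).1 := by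
    intro i p hp
    subst hp
    rfl
  simp only at h2
  rw [key _ p h1] at h2
  exact congrArg Subtype.val ((e (g q.1)).injective (Subtype.ext h2))

theorem exists_avoid {k : ℕ} (f : ℕ) (hf : 4 ≤ f) (hk : f ≤ k) (a b c : Fin k) :
    ∃ d : Fin k, d.1 < f ∧ d ≠ a ∧ d ≠ b ∧ d ≠ c := by
  have : ∃ d : ℕ, d < 4 ∧ d ≠ a.1 ∧ d ≠ b.1 ∧ d ≠ c.1 := by
    by_contra hc
    push Not at hc
    have h0 := hc 0
    have h1 := hc 1
    have h2 := hc 2
    have h3 := hc 3
    omega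
  obtain ⟨d, h0, h1, h2, h3⟩ := this
  exact ⟨⟨d, by omega⟩, by simp only; omega, fun e => h1 (by rw [← e]), fun e => h2 (by rw [← e]),
    fun e => h3 (by rw [← e])⟩

structure Data (B f : ℕ) {n : ℕ} (sz : Fin n → ℕ) where
  g : Fin n → Fin (B + 1)
  cy : (Σ x : Fin n, Fin (sz x)) → Fin (B + 1)
  cx : Fin n → Fin (B + 1)
  hg : ∀ x, f ≤ (g x).1
  hcy : ∀ p, cy p ≠ g p.1
  icy : ∀ p q, g p.1 = g q.1 → cy p = cy q → p = q
  hcx : ∀ x, (cx x).1 < f
  icx : Function.Injective cx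

namespace Data

variable {f : ℕ} (d : Data B f sz)

def ch : Hub B n sz → Fin (B + 1)
  | U i => i
  | W c _ _ => c
  | C x => d.cx x
  | Y x j => d.cy ⟨x, j⟩

def mh : Hub B n sz → Fin (B + 1)
  | U i => i
  | W _ m _ => m
  | C x => d.g x
  | Y x _ => d.g x

def lv : Hub B n sz → ℕ
  | U _ => 1
  | W _ _ _ => 2
  | C _ => 3
  | Y _ _ => 4

def DH (a : Hub B n sz) (c : Fin (B + 1)) : ℕ :=
  if d.ch a = c then 0 else if d.mh a = c then lv a else 1

def col : Vt B n sz → Fin (B + 1)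
  | P => 0
  | H a => d.ch a
  | L a t => (d.mh a).succAbove t
  | E i => i

def D : Vt B n sz → Fin (B + 1) → ℕ
  | P, c => if 0 = c then 0 else if c.1 < f then 1 else 2
  | H a, c => d.DH a c
  | L a t, c => if (d.mh a).succAbove t = c then 0 else d.DH a c + 1
  | E i, c => if i = c then 0 else d.DH (U i) c + 1

theorem lv_pos (a : Hub B n sz) : 1 ≤ lv a := by cases a <;> simp [lv]

theorem cx_ne (x y : Fin n) : d.cx x ≠ d.g y := fun e => by
  have h1 := d.hcx x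
  have h2 := d.hg y
  rw [e] at h1
  omega

theorem DH_zero (a : Hub B n sz) (c : Fin (B + 1)) : d.DH a c = 0 ↔ d.ch a = c := by
  have := lv_pos a
  unfold DH
  split_ifs with h1 h2 <;> simp [h1]
  omega

theorem DH_le (a : Hub B n sz) {c : Fin (B + 1)} (h : d.mh a ≠ c) : d.DH a c ≤ 1 := by
  unfold DH
  split_ifs <;> omega

theorem DH_U (i c : Fin (B + 1)) : d.DH (U i) c = if i = c then 0 else 1 := by
  simp only [DH, ch, mh]
  split_ifs <;> rfl

theorem DH_one (a : Hub B n sz) {c : Fin (B + 1)} (h1 : d.ch a ≠ c) (h2 : d.DH a c ≤ 1) :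
    d.DH a c = 1 := by
  have : d.DH a c ≠ 0 := fun e => h1 ((d.DH_zero a c).1 e)
  omega

theorem DH_mh (a : Hub B n sz) (h : d.ch a ≠ d.mh a) : d.DH a (d.mh a) = lv a := by
  simp [DH, h]

theorem key_inj {a a' : Hub B n sz} (h1 : d.ch a = d.ch a') (h2 : d.mh a = d.mh a')
    (h3 : lv a = lv a') : a = a' := by
  cases a <;> cases a' <;> simp only [lv] at h3 <;> try omega
  · simpa [ch] using h1
  · simp only [ch, mh] at h1 h2
    subst h1 h2
    rfl
  · rw [d.icx h1]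
  · have := d.icy ⟨_, _⟩ ⟨_, _⟩ h2 h1
    cases this
    rfl

theorem shape (a : Hub B n sz) : (d.ch a = d.mh a ∧ lv a = 1) ∨ (d.ch a ≠ d.mh a ∧ 2 ≤ lv a) := by
  rcases a with i | ⟨c, m, h⟩ | x | ⟨x, j⟩
  · exact Or.inl ⟨rfl, rfl⟩
  · exact Or.inr ⟨h, le_rfl⟩
  · exact Or.inr ⟨d.cx_ne x x, by simp [lv]⟩
  · exact Or.inr ⟨d.hcy ⟨x, j⟩, by simp [lv]⟩

theorem DH_inj {a a' : Hub B n sz} (h : ∀ c, d.DH a c = d.DH a' c) : a = a' := by
  have e1 : d.ch a = d.ch a' := by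
    have := h (d.ch a')
    rw [(d.DH_zero a' _).2 rfl] at this
    exact (d.DH_zero a _).1 this
  have big : ∀ {a a' : Hub B n sz}, (∀ c, d.DH a c = d.DH a' c) → d.ch a ≠ d.mh a → 2 ≤ lv a →
      d.mh a' = d.mh a := by
    intro a a' h h1 h2
    by_contra hc
    have := d.DH_le a' hc
    rw [← h, d.DH_mh a h1] at this
    omega
  rcases d.shape a with s | s <;> rcases d.shape a' with s' | s'
  · exact d.key_inj e1 (by rw [← s.1, ← s'.1, e1]) (by rw [s.2, s'.2])
  · exact absurd (by rw [← e1, s.1, big (fun c => (h c).symm) s'.1 s'.2]) s'.1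
  · exact absurd (by rw [e1, s'.1, big h s.1 s.2]) s.1
  · have e2 := big h s.1 s.2
    exact d.key_inj e1 e2.symm (by rw [← d.DH_mh a s.1, ← d.DH_mh a' s'.1, h, e2])

/-- Leaves. -/
def Lf (v : Vt B n sz) (a : Hub B n sz) : Prop :=
  (∃ t, v = L a t) ∨ ∃ i, v = E i ∧ a = U i

theorem lf_D {v : Vt B n sz} {a : Hub B n sz} (h : Lf v a) (c : Fin (B + 1)) :
    d.D v c = if d.col v = c then 0 else d.DH a c + 1 := by
  rcases h with ⟨t, rfl⟩ | ⟨i, rfl, rfl⟩ <;> rfl

theorem lf_le {v : Vt B n sz} {a : Hub B n sz} (h : Lf v a) : d.DH a (d.col v) ≤ 1 := by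
  rcases h with ⟨t, rfl⟩ | ⟨i, rfl, rfl⟩
  · exact d.DH_le a (Fin.succAbove_ne _ _).symm
  · rw [DH_U]; split_ifs <;> omega

theorem lf_big {v : Vt B n sz} {a : Hub B n sz} (h : Lf v a) {c : Fin (B + 1)} (h1 : c ≠ d.col v)
    (h2 : c ≠ d.ch a) : 2 ≤ d.D v c := by
  rw [d.lf_D h, if_neg h1.symm]
  have : d.DH a c ≠ 0 := fun e => h2 ((d.DH_zero a c).1 e).symm
  omega

theorem lf_eq {v v' : Vt B n sz} {a : Hub B n sz} (h : Lf v a) (h' : Lf v' a)
    (e : d.col v = d.col v') : v = v' := by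
  rcases h with ⟨t, rfl⟩ | ⟨i, rfl, rfl⟩ <;> rcases h' with ⟨t', rfl⟩ | ⟨i', rfl, h'⟩
  · rw [Fin.succAbove_right_injective e]
  · subst h'
    exact absurd e (Fin.succAbove_ne _ _)
  · exact absurd e.symm (Fin.succAbove_ne _ _)
  · exact congrArg E e

theorem kind (v : Vt B n sz) : v = P ∨ (∃ a, v = H a) ∨ ∃ a, Lf v a := by
  rcases v with _ | a | ⟨a, t⟩ | i
  · exact Or.inl rfl
  · exact Or.inr (Or.inl ⟨a, rfl⟩)
  · exact Or.inr (Or.inr ⟨a, Or.inl ⟨t, rfl⟩⟩)
  · exact Or.inr (Or.inr ⟨U i, Or.inr ⟨i, rfl, rfl⟩⟩)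

theorem D_zero (v : Vt B n sz) (c : Fin (B + 1)) : d.D v c = 0 ↔ d.col v = c := by
  rcases kind v with rfl | ⟨a, rfl⟩ | ⟨a, h⟩
  · simp only [D, col]
    split_ifs with h1 h2 <;> simp [h1]
  · exact d.DH_zero a c
  · rw [d.lf_D h]
    split_ifs with h1 <;> simp [h1]

theorem DP_le (c : Fin (B + 1)) : d.D P c ≤ 2 := by
  simp only [D]
  split_ifs <;> omega

theorem DP_lt {c : Fin (B + 1)} (h : c.1 < f) : d.D P c ≤ 1 := by
  simp only [D]
  split_ifs <;> omega

theorem DP_ge (hf : 0 < f) {c : Fin (B + 1)} (h : f ≤ c.1) : d.D P c = 2 := by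
  have : (0 : Fin (B + 1)) ≠ c := by
    rintro rfl
    simp at h
    omega
  simp only [D, if_neg this, if_neg (not_lt.2 h)]

theorem D_inj (hf : 4 ≤ f) (hB : f + 1 ≤ B) : Function.Injective d.D := by
  have PH : ∀ a, d.D P ≠ d.D (H a) := by
    intro a e
    have h1 : ∀ c : Fin (B + 1), f ≤ c.1 → d.mh a = c := by
      intro c hc
      by_contra hn
      have h2 : d.D (H a) c ≤ 1 := d.DH_le a hn
      rw [← e, d.DP_ge (by omega) hc] at h2
      omega
    have h2 := (h1 ⟨f, by omega⟩ le_rfl).symm.trans (h1 ⟨f + 1, by omega⟩ (by simp))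
    simp at h2
  have PL : ∀ v a, Lf v a → d.D P ≠ d.D v := by
    intro v a h e
    obtain ⟨c, c0, c1, c2, -⟩ := exists_avoid f hf (k := B + 1) (by omega) (d.col v) (d.ch a) 0
    have h1 := d.lf_big h c1 c2
    have h2 := d.DP_lt c0
    rw [e] at h2
    omega
  have HL : ∀ a' v a, Lf v a → d.D (H a') ≠ d.D v := by
    intro a' v a h e
    obtain ⟨c, -, c1, c2, c3⟩ :=
      exists_avoid f hf (k := B + 1) (by omega) (d.col v) (d.ch a) (d.mh a')
    have h1 := d.lf_big h c1 c2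
    have h2 : d.D (H a') c ≤ 1 := d.DH_le a' c3.symm
    rw [e] at h2
    omega
  intro u v e
  rcases kind u with rfl | ⟨a, rfl⟩ | ⟨a, h⟩ <;> rcases kind v with rfl | ⟨a', rfl⟩ | ⟨a', h'⟩
  · rfl
  · exact absurd e (PH _)
  · exact absurd e (PL _ _ h')
  · exact absurd e.symm (PH _)
  · rw [d.DH_inj (a := a) (a' := a') fun c => congrFun e c]
  · exact absurd e (HL _ _ _ h')
  · exact absurd e.symm (PL _ _ h)
  · exact absurd e.symm (HL _ _ _ h)
  · have e0 : d.col u = d.col v := by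
      rw [← d.D_zero, e, d.D_zero]
    have e1 : ∀ c, d.col v ≠ c → d.DH a c = d.DH a' c := by
      intro c hc
      have := congrFun e c
      rw [d.lf_D h, d.lf_D h', e0, if_neg hc, if_neg hc] at this
      omega
    have l1 := d.lf_le h
    have l2 := d.lf_le h'
    rw [e0] at l1
    have e2 : d.ch a = d.ch a' := by
      by_cases h1 : d.col v = d.ch a
      · by_cases h2 : d.col v = d.ch a'
        · rw [← h1, h2]
        · rw [← d.DH_zero, e1 _ h2, d.DH_zero]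
      · symm
        rw [← d.DH_zero, ← e1 _ h1, d.DH_zero]
    have e3 : a = a' := d.DH_inj fun c => by
      by_cases hc : d.col v = c
      · subst hc
        by_cases h1 : d.ch a = d.col v
        · rw [(d.DH_zero a _).2 h1, (d.DH_zero a' _).2 (e2 ▸ h1)]
        · rw [d.DH_one a h1 l1, d.DH_one a' (e2 ▸ h1) l2]
      · exact e1 c hc
    subst e3
    exact d.lf_eq h h' e0

theorem D_par (hf : 4 ≤ f) (hB : f + 1 ≤ B) (v : Vt B n sz) (c : Fin (B + 1)) :
    d.D v c ≤ d.D (par f v) c + 1 ∧ d.D (par f v) c ≤ d.D v c + 1 := by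
  have hU : ∀ i, d.D (H (U i)) c ≤ 1 := fun i => by
    change d.DH _ _ ≤ 1
    rw [DH_U]; split_ifs <;> omega
  have hP := d.DP_le c
  have z := fun v => d.D_zero v c
  rcases kind v with rfl | ⟨a, rfl⟩ | ⟨a, h⟩
  · simp [par]
  · rcases a with i | ⟨c', m, h⟩ | x | ⟨x, j⟩
    · have h1 := hU i
      have h2 := hU 0
      simp only [par]
      split_ifs with hi
      · refine ⟨by omega, ?_⟩
        by_cases e : d.D (H (U i)) c = 0
        · have : i = c := (z _).1 e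
          have := d.DP_lt (c := c) (this ▸ hi)
          omega
        · omega
      · omega
    · have h1 := hU (other m)
      simp only [par]
      refine ⟨?_, by omega⟩
      by_cases e : m = c
      · subst e
        have h2 : d.D (H (W c' m h)) m = 2 := d.DH_mh (W c' m h) h
        have h3 : d.D (H (U (other m))) m ≠ 0 := fun e => other_ne (by omega) m ((z _).1 e)
        omega
      · have : d.D (H (W c' m h)) c ≤ 1 := d.DH_le _ e
        omega
    · simp only [par]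
      by_cases e : d.g x = c
      · subst e
        have h2 : d.D (H (C x)) (d.g x) = 3 := d.DH_mh (C x) (d.cx_ne x x)
        have h3 := d.DP_ge (by omega) (d.hg x)
        omega
      · have h2 : d.D (H (C x)) c ≤ 1 := d.DH_le _ e
        refine ⟨by omega, ?_⟩
        by_cases e' : d.D (H (C x)) c = 0
        · have : d.cx x = c := (z _).1 e'
          have := d.DP_lt (c := c) (this ▸ d.hcx x)
          omega
        · omega
    · simp only [par]
      by_cases e : d.g x = c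
      · subst e
        have h2 : d.D (H (C x)) (d.g x) = 3 := d.DH_mh (C x) (d.cx_ne x x)
        have h3 : d.D (H (Y x j)) (d.g x) = 4 := d.DH_mh (Y x j) (d.hcy ⟨x, j⟩)
        omega
      · have h2 : d.D (H (C x)) c ≤ 1 := d.DH_le _ e
        have h3 : d.D (H (Y x j)) c ≤ 1 := d.DH_le _ e
        omega
  · have e : d.D (par f v) c = d.DH a c := by
      rcases h with ⟨t, rfl⟩ | ⟨i, rfl, rfl⟩ <;> rfl
    rw [e, d.lf_D h]
    split_ifs with h1
    · have := d.lf_le h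
      rw [h1] at this
      omega
    · omega

theorem D_wit (hf : 4 ≤ f) (hB : f + 1 ≤ B) (v : Vt B n sz) (c : Fin (B + 1))
    (h0 : d.D v c ≠ 0) : ∃ u, Ad f v u ∧ d.D u c + 1 = d.D v c := by
  have hf0 : 0 < f := by omega
  have hc : d.col v ≠ c := fun e => h0 ((d.D_zero v c).2 e)
  rcases kind v with rfl | ⟨a, rfl⟩ | ⟨a, h⟩
  · by_cases h1 : c.1 < f
    · refine ⟨H (U c), ⟨by simp, Or.inr (by simp [par, h1])⟩, ?_⟩
      have h2 := d.DP_lt h1
      rw [(d.D_zero (H (U c)) c).2 rfl]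
      omega
    · refine ⟨H (U 0), ⟨by simp, Or.inr (by simp [par, hf0])⟩, ?_⟩
      rw [d.DP_ge hf0 (not_lt.1 h1)]
      change d.DH _ _ + 1 = 2
      rw [DH_U, if_neg (show ¬ 0 = c from hc)]
  · by_cases h1 : d.mh a = c
    · subst h1
      refine ⟨par f (H a), ad_par hf0 (by simp), ?_⟩
      change _ = d.DH a (d.mh a)
      rw [d.DH_mh a hc]
      rcases a with i | ⟨c', m, h⟩ | x | ⟨x, j⟩
      · exact absurd rfl hc
      · change d.DH _ m + 1 = 2
        rw [DH_U, if_neg (other_ne (by omega) m)]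
      · change d.D P (d.g x) + 1 = 3
        rw [d.DP_ge hf0 (d.hg x)]
      · change d.DH (C x) (d.mh (C x)) + 1 = 4
        rw [d.DH_mh (C x) (d.cx_ne x x)]
        rfl
    · obtain ⟨t, ht⟩ := Fin.exists_succAbove_eq (Ne.symm h1)
      refine ⟨L a t, ⟨by simp, Or.inr rfl⟩, ?_⟩
      rw [(d.D_zero (L a t) c).2 ht]
      exact (d.DH_one a hc (d.DH_le a h1)).symm
  · refine ⟨H a, ?_, ?_⟩
    · rcases h with ⟨t, rfl⟩ | ⟨i, rfl, rfl⟩ <;> exact ⟨by simp, Or.inl rfl⟩
    · rw [d.lf_D h, if_neg hc]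
      rfl

theorem loc (hf : 4 ≤ f) (hB : f + 1 ≤ B) : Loc (Ad f) d.col d.D := by
  refine ⟨fun i => ⟨H (U i), rfl⟩, d.D_zero, ?_, d.D_wit hf hB, d.D_inj hf hB⟩
  rintro u v c ⟨-, rfl | rfl⟩
  · exact (d.D_par hf hB _ c).1
  · exact (d.D_par hf hB _ c).2

end Data

theorem complete {f : ℕ} (hf : 4 ≤ f) (hB : f + 1 ≤ B) (hn : n ≤ f) (h : PackF B f sz) :
    ∃ (col : Vt B n sz → Fin (B + 1)) (D : Vt B n sz → Fin (B + 1) → ℕ), Loc (Ad f) col D := by
  obtain ⟨g, h1, h2⟩ := h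
  obtain ⟨cy, c1, c2⟩ := exists_cy g h2
  let d : Data B f sz := ⟨g, cy, fun x => ⟨x.1, by omega⟩, h1, c1, c2, fun x => by
    simp only; omega, fun x y e => Fin.ext (by simpa using e)⟩
  exact ⟨_, _, d.loc hf hB⟩

end Pool.Agent.H320Z.PD
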