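import Pool.Agent.H671R2.ZDefs

set_option autoImplicit false

/-! Partition dimension (problem MP_2fd452_lc). -/

namespace Pool.Agent.H320Z.PD

/-- The distance from a vertex to a set of vertices: the least distance to a member. -/
noncomputable def distTo {V : Type} (G : SimpleGraph V) (v : V) (S : Set V) : ℕ :=
  sInf ((fun s => G.dist v s) '' S)

/-- The map `c` describes an ordered partition into `k` nonempty classes, and distinct vertices have
distinct vectors of distances to the classes. -/
def IsResolving {V : Type} (G : SimpleGraph V) {k : ℕ} (c : V → Fin k) : Prop :=
  Function.Surjective c ∧ Function.Injective fun v : V => fun j : Fin k => distTo G v (c ⁻¹' {j})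

/-- The partition dimension: the least number of classes of a resolving partition. -/
noncomputable def pd {V : Type} (G : SimpleGraph V) : ℕ :=
  sInf {k | ∃ c : V → Fin k, IsResolving G c}

end Pool.Agent.H320Z.PD
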