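import Pool.Agent.H320Z.PDDefs

set_option autoImplicit false

/-! Local description of resolving partitions, and trees given by parent maps. -/

namespace Pool.Agent.H320Z.PD

/-- Local description of the distances to the classes. -/
structure Loc {V : Type} (A : V → V → Prop) {k : ℕ} (c : V → Fin k) (D : V → Fin k → ℕ) :
    Prop where
  surj : Function.Surjective c
  zero : ∀ v j, D v j = 0 ↔ c v = j
  step : ∀ u v j, A u v → D u j ≤ D v j + 1
  wit : ∀ v j, D v j ≠ 0 → ∃ u, A v u ∧ D u j + 1 = D v j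
  inj : Function.Injective D

variable {V : Type} {G : SimpleGraph V}

theorem loc_of_res (hG : G.Connected) {k : ℕ} {c : V → Fin k} (h : IsResolving G c) :
    Loc G.Adj c fun v j => distTo G v (c ⁻¹' {j}) := by
  have ex : ∀ v j, ∃ s, c s = j ∧ G.dist v s = distTo G v (c ⁻¹' {j}) := by
    intro v j
    obtain ⟨s, hs⟩ := h.1 j
    obtain ⟨t, ht, e⟩ := Nat.sInf_mem (s := (fun s => G.dist v s) '' (c ⁻¹' {j})) ⟨_, s, hs, rfl⟩
    exact ⟨t, ht, e⟩
  have le : ∀ v j s, c s = j → distTo G v (c ⁻¹' {j}) ≤ G.dist v s := fun v j s hs =>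
    Nat.sInf_le ⟨s, hs, rfl⟩
  have step : ∀ u v j, G.Adj u v → distTo G u (c ⁻¹' {j}) ≤ distTo G v (c ⁻¹' {j}) + 1 := by
    intro u v j huv
    obtain ⟨s, hs, e⟩ := ex v j
    have h1 := le u j s hs
    have h2 := hG.dist_triangle (u := u) (v := v) (w := s)
    rw [SimpleGraph.dist_eq_one_iff_adj.2 huv] at h2
    omega
  refine ⟨h.1, fun v j => ⟨fun h0 => ?_, fun h0 => ?_⟩, step, fun v j h0 => ?_, h.2⟩
  · obtain ⟨s, hs, e⟩ := ex v j
    rw [h0, hG.dist_eq_zero_iff] at e
    rw [e, hs]
  · have := le v j v h0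
    rw [SimpleGraph.dist_self] at this
    omega
  · obtain ⟨s, hs, e⟩ := ex v j
    obtain ⟨p, hp⟩ := hG.exists_walk_length_eq_dist v s
    cases p with
    | nil => exact absurd (by rw [← e, ← hp]; rfl) h0
    | cons hadj q =>
      rename_i u
      refine ⟨u, hadj, ?_⟩
      have h1 := le u j s hs
      have h2 := SimpleGraph.dist_le q
      have h3 := step v u j hadj
      rw [SimpleGraph.Walk.length_cons] at hp
      omega

theorem res_of_loc (hG : G.Connected) {k : ℕ} {c : V → Fin k} {D : V → Fin k → ℕ}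
    (h : Loc G.Adj c D) : IsResolving G c := by
  have key : ∀ v j, distTo G v (c ⁻¹' {j}) = D v j := by
    intro v j
    have h1 : ∀ (v s : V) (p : G.Walk v s), c s = j → D v j ≤ p.length := by
      intro v s p hs
      induction p with
      | nil => rw [(h.zero _ _).2 hs]; exact Nat.zero_le _
      | cons hadj q ih =>
        have := h.step _ _ j hadj
        have := ih hs
        rw [SimpleGraph.Walk.length_cons]
        omega
    have h2 : ∀ (d : ℕ) (v : V), D v j = d → ∃ s, c s = j ∧ G.dist v s ≤ d := by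
      intro d
      induction d with
      | zero => exact fun v hv => ⟨v, (h.zero _ _).1 hv, by rw [SimpleGraph.dist_self]⟩
      | succ d ih =>
        intro v hv
        obtain ⟨u, hu, e⟩ := h.wit v j (by omega)
        obtain ⟨s, hs, hs'⟩ := ih u (by omega)
        have h3 := hG.dist_triangle (u := v) (v := u) (w := s)
        rw [SimpleGraph.dist_eq_one_iff_adj.2 hu] at h3
        exact ⟨s, hs, by omega⟩
    obtain ⟨s, hs, hs'⟩ := h2 _ v rfl
    apply le_antisymm
    · have h4 : distTo G v (c ⁻¹' {j}) ≤ G.dist v s := Nat.sInf_le ⟨s, hs, rfl⟩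
      exact h4.trans hs'
    · obtain ⟨t, ht, e⟩ :=
        Nat.sInf_mem (s := (fun s => G.dist v s) '' (c ⁻¹' {j})) ⟨_, s, hs, rfl⟩
      obtain ⟨p, hp⟩ := hG.exists_walk_length_eq_dist v t
      have := h1 v t p ht
      unfold distTo
      rw [← e]
      simp only
      omega
  refine ⟨h.surj, ?_⟩
  have : (fun v : V => fun j : Fin k => distTo G v (c ⁻¹' {j})) = D :=
    funext fun v => funext fun j => key v j
  rw [this]
  exact h.inj

theorem pd_le_iff {n : ℕ} {G : SimpleGraph (Fin n)} (hG : G.Connected) (k : ℕ) :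
    pd G ≤ k ↔ ∃ j ≤ k, ∃ (c : Fin n → Fin j) (D : Fin n → Fin j → ℕ), Loc G.Adj c D := by
  constructor
  · intro h
    have hne : {k | ∃ c : Fin n → Fin k, IsResolving G c}.Nonempty := by
      refine ⟨n, id, Function.surjective_id, fun u v huv => ?_⟩
      have h1 := congrFun huv v
      simp only [distTo, Set.preimage_id_eq, id_eq, Set.image_singleton, csInf_singleton,
        SimpleGraph.dist_self] at h1
      exact hG.dist_eq_zero_iff.1 h1
    obtain ⟨c, hc⟩ := Nat.sInf_mem hne
    exact ⟨_, h, c, _, loc_of_res hG hc⟩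
  · rintro ⟨j, hj, c, D, h⟩
    have h4 : pd G ≤ j := Nat.sInf_le ⟨c, res_of_loc hG h⟩
    exact h4.trans hj

theorem Loc.equiv {W : Type} {A : V → V → Prop} {A' : W → W → Prop} (e : W ≃ V)
    (he : ∀ x y, A' x y ↔ A (e x) (e y)) {k : ℕ} {c : V → Fin k} {D : V → Fin k → ℕ}
    (h : Loc A c D) : Loc A' (fun x => c (e x)) (fun x => D (e x)) := by
  refine ⟨h.surj.comp e.surjective, fun v j => h.zero _ _, fun u v j a => h.step _ _ _
    ((he _ _).1 a), fun v j h0 => ?_, h.inj.comp e.injective⟩
  obtain ⟨u, hu, e'⟩ := h.wit _ _ h0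
  obtain ⟨u, rfl⟩ := e.surjective u
  exact ⟨u, (he _ _).2 hu, e'⟩

theorem isTree_of_par [Finite V] (par : V → V) (r : V) (ρ : V → ℕ)
    (hρ : ∀ v, v ≠ r → ρ (par v) < ρ v) (hr : par r = r)
    (hG : ∀ u v, G.Adj u v ↔ u ≠ v ∧ (par u = v ∨ par v = u)) : G.IsTree := by
  have hne : ∀ v, v ≠ r → v ≠ par v := fun v hv e => by
    have := hρ v hv
    rw [← e] at this
    omega
  have hreach : ∀ (d : ℕ) (v : V), ρ v < d → G.Reachable v r := by
    intro d
    induction d with
    | zero => intro v hv; omega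
    | succ d ih =>
      intro v hv
      by_cases h : v = r
      · rw [h]
      · have h1 : G.Adj v (par v) := (hG _ _).2 ⟨hne v h, Or.inl rfl⟩
        exact h1.reachable.trans (ih _ (by have := hρ v h; omega))
  have : Nonempty V := ⟨r⟩
  rw [SimpleGraph.isTree_iff_connected_and_card]
  refine ⟨⟨fun u v => (hreach _ u (Nat.lt_succ_self _)).trans
    (hreach _ v (Nat.lt_succ_self _)).symm⟩, ?_⟩
  have hb : Function.Bijective (fun v : {v : V // v ≠ r} =>
      (⟨s(v.1, par v.1), (hG _ _).2 ⟨hne _ v.2, Or.inl rfl⟩⟩ : G.edgeSet)) := by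
    constructor
    · rintro ⟨u, hu⟩ ⟨v, hv⟩ h
      have h1 : s(u, par u) = s(v, par v) := congrArg Subtype.val h
      rcases Sym2.eq_iff.1 h1 with h2 | h2
      · exact Subtype.ext h2.1
      · have h3 := hρ u hu
        have h4 := hρ v hv
        rw [h2.2] at h3
        rw [← h2.1] at h4
        omega
    · rintro ⟨e, he⟩
      induction e using Sym2.ind with
      | h u v =>
        obtain ⟨h1, h2 | h2⟩ := (hG u v).1 he
        · refine ⟨⟨u, fun e => h1 ?_⟩, Subtype.ext ?_⟩
          · rw [← h2, e, hr]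
          · simp only [h2]
        · refine ⟨⟨v, fun e => h1 ?_⟩, Subtype.ext ?_⟩
          · rw [← h2, e, hr]
          · simp only [h2]; exact Sym2.eq_swap
  rw [← Nat.card_eq_of_bijective _ hb]
  classical
  have := Fintype.ofFinite V
  rw [Nat.card_eq_fintype_card, Nat.card_eq_fintype_card, Fintype.card_subtype_compl,
    Fintype.card_subtype_eq]
  have := Fintype.card_pos (α := V)
  omega

end Pool.Agent.H320Z.PD
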