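import Pool.Agent.H320Z.PDCode
import Pool.Agent.H557R2.Tri.Red

set_option autoImplicit false

/-! From numerical three-dimensional matching to packings; the final reduction. -/

namespace Pool.Agent.H320Z.PD

open Pool.Agent.NPC Pool.Agent.NPC.R671 Pool.Agent.NPC.H632 Pool.Agent.H557R2.Tri

def wt (r : ℕ) : ℕ := if r = 0 then 5 else if r = 1 then 6 else 8

def big (m : ℕ) : ℕ := 10000 * ((m + 1) * ((m + 1) * (m + 1)))

def szE (m : ℕ) (e : Elt) : ℕ := (((big m * wt e.1 : ℕ) : ℤ) + mn m e).toNat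

def cap (m : ℕ) : ℕ := 19 * big m

def sizes (I : List (ℕ × ℕ × ℕ) × ℕ) : List ℕ := (EE I.1 I.2).map (szE I.1.length)

def items (I : List (ℕ × ℕ × ℕ) × ℕ) : List ℕ :=
  if (sizes I).sum = 3 * I.1.length * cap I.1.length then sizes I else [cap I.1.length + 1]

def ff (m : ℕ) : ℕ := cap m + 1 - 3 * m

def outG (I : List (ℕ × ℕ × ℕ) × ℕ) :=
  graphL (cap I.1.length + 2) (items I) (cap I.1.length) (ff I.1.length)

theorem poly_sizes : Poly sizes := by
  have h1 : Poly fun p : (List (ℕ × ℕ × ℕ) × ℕ) × Elt =>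
      p.2.2 / ((4 * ((p.1.1.length + 1) * (p.1.1.length + 1)) : ℕ) : ℤ) :=
    Poly.idiv (by fun_prop) (by fun_prop)
  have h2 : Poly fun p : (List (ℕ × ℕ × ℕ) × ℕ) × Elt => mn p.1.1.length p.2 :=
    h1.congr fun p => by simp [mn, RR]
  have h3 : Poly fun p : (List (ℕ × ℕ × ℕ) × ℕ) × Elt => big p.1.1.length * wt p.2.1 := by
    unfold big wt; fun_prop
  exact NPC.Poly.map poly_EE (Poly.toNat (Poly.iadd (Poly.natCast h3) h2))

theorem upoly_cap : UPoly fun I : List (ℕ × ℕ × ℕ) × ℕ => cap I.1.length := by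
  have h : UPoly fun I : List (ℕ × ℕ × ℕ) × ℕ => I.1.length + 1 :=
    (UPoly.length (Poly.fst Poly.id)).add (UPoly.const 1)
  exact (UPoly.const 19).mul ((UPoly.const 10000).mul (h.mul (h.mul h)))

theorem poly_items : Poly items := by
  have h1 := poly_sizes
  have h2 := upoly_cap.toPoly
  unfold items
  fun_prop

theorem poly_out : Poly fun I : List (ℕ × ℕ × ℕ) × ℕ =>
    (adjMatrix (outG I), cap I.1.length + 1) := by
  have h2 := upoly_cap.toPoly
  have h3 : Poly fun I : List (ℕ × ℕ × ℕ) × ℕ => ff I.1.length := by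
    unfold ff; fun_prop
  refine Poly.pair ?_ (by fun_prop)
  exact (poly_matL (upoly_cap.add (UPoly.const 2)).range poly_items h2 h3).congr fun I =>
    (adjMatrix_listGraph _ _ (adL_symm _ _) (adL_irrefl _ _)).symm

variable {S : List (ℕ × ℕ × ℕ)} {q : ℕ}

theorem q_le (h : Pr S q) : q ≤ S.length := by
  have h1 : List.range (3 * q) ⊆ S.flatMap el := fun e he => by
    obtain ⟨t, ht, he'⟩ := h.occ e (List.mem_range.1 he)
    exact List.mem_flatMap.2 ⟨t, ht, he'⟩
  have h2 := (List.subperm_of_subset List.nodup_range h1).length_le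
  rw [List.length_range, List.length_flatMap] at h2
  simp [el] at h2
  omega

theorem elt_bd (h : Pr S q) {e : Elt} (he : e ∈ EE S q) :
    (e.1 = 0 ∨ e.1 = 1 ∨ e.1 = 2) ∧ |mn S.length e| ≤ 1000 * (((S.length : ℤ) + 1) * (S.length + 1)) := by
  have hq : (q : ℤ) ≤ S.length := by exact_mod_cast q_le h
  have hq0 : (0 : ℤ) ≤ q := Int.natCast_nonneg q
  obtain ⟨i, hi, k, -, hk⟩ := mem_EE.1 he
  have hi' : (i : ℤ) + 1 ≤ S.length := by exact_mod_cast hi
  have hi0 : (0 : ℤ) ≤ i := Int.natCast_nonneg i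
  have a1 := h.aS_b hi k
  have a2 := h.bS_b hi k
  have a3 := h.cS_b hi k
  have k1 : 0 ≤ KK q * (i + 1) := by unfold KK; positivity
  have k2 : KK q * (i + 1) ≤ 384 * (((S.length : ℤ) + 1) * (S.length + 1)) := by
    unfold KK; nlinarith
  have k3 : (S.length : ℤ) + 1 ≤ ((S.length : ℤ) + 1) * (S.length + 1) := by nlinarith
  rcases hk with rfl | rfl | rfl
  · refine ⟨Or.inl rfl, ?_⟩
    rw [mn_eA, abs_le]
    constructor <;> linarith [a1.1, a1.2]
  · refine ⟨Or.inr (Or.inl rfl), ?_⟩
    rw [mn_eB hi, abs_le]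
    constructor <;> linarith [a2.1, a2.2]
  · refine ⟨Or.inr (Or.inr rfl), ?_⟩
    rw [mn_eC, abs_le]
    constructor <;> linarith [a3.1, a3.2]

theorem big_ge (m : ℕ) : 10000 * (((m : ℤ) + 1) * (m + 1)) ≤ big m := by
  unfold big
  push_cast
  have : (0 : ℤ) ≤ m := Int.natCast_nonneg m
  nlinarith [mul_nonneg this (mul_nonneg this this), mul_nonneg this this]

theorem wt_bd (r : ℕ) : 5 ≤ wt r ∧ wt r ≤ 8 := by unfold wt; split_ifs <;> omega

theorem szE_cast (h : Pr S q) {e : Elt} (he : e ∈ EE S q) :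
    (szE S.length e : ℤ) = big S.length * wt e.1 + mn S.length e ∧
      szE S.length e ≤ cap S.length := by
  have h1 := abs_le.1 (elt_bd h he).2
  have h2 := big_ge S.length
  have h3 : (5 : ℤ) ≤ wt e.1 := by exact_mod_cast (wt_bd e.1).1
  have h4 : (wt e.1 : ℤ) ≤ 8 := by exact_mod_cast (wt_bd e.1).2
  have h5 : (0 : ℤ) ≤ big S.length := Int.natCast_nonneg _
  have h6 : (0 : ℤ) ≤ ((S.length : ℤ) + 1) * (S.length + 1) := by positivity
  have e1 : (szE S.length e : ℤ) = big S.length * wt e.1 + mn S.length e := by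
    unfold szE
    rw [Int.toNat_of_nonneg (by push_cast; nlinarith)]
    push_cast
    rfl
  refine ⟨e1, ?_⟩
  have : (szE S.length e : ℤ) ≤ cap S.length := by
    rw [e1]
    unfold cap
    push_cast
    nlinarith
  exact_mod_cast this

theorem triple_sum (h : Pr S q) {t : Elt × Elt × Elt} (ht : ∀ e ∈ el t, e ∈ EE S q) (ho : Ord t)
    (hz : ms S.length t = 0) : ((el t).map (szE S.length)).sum = cap S.length := by
  have h1 := (szE_cast h (ht t.1 (by simp [el]))).1
  have h2 := (szE_cast h (ht t.2.1 (by simp [el]))).1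
  have h3 := (szE_cast h (ht t.2.2 (by simp [el]))).1
  rw [ho.1] at h1
  rw [ho.2.1] at h2
  rw [ho.2.2] at h3
  unfold ms at hz
  simp only [wt] at h1 h2 h3
  have : (((el t).map (szE S.length)).sum : ℤ) = cap S.length := by
    simp only [el, List.map_cons, List.sum_cons, List.map_nil, List.sum_nil, cap]
    push_cast at h1 h2 h3 ⊢
    linarith
  exact_mod_cast this

theorem sum_toFinset_le {α : Type} [DecidableEq α] (l : List α) (s : α → ℕ) :
    ∑ e ∈ l.toFinset, s e ≤ (l.map s).sum := by
  induction l with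
  | nil => simp
  | cons a l ih =>
    rw [List.toFinset_cons, List.map_cons, List.sum_cons]
    by_cases h : a ∈ l.toFinset
    · rw [Finset.insert_eq_of_mem h]; omega
    · rw [Finset.sum_insert h]; omega

/-- Packings of the elements. -/
def PackE (S : List (ℕ × ℕ × ℕ)) (q : ℕ) : Prop :=
  ∃ g : Elt → ℕ, (∀ e ∈ EE S q, g e < 3 * S.length) ∧
    ∀ i, ∑ e ∈ (EE S q).toFinset.filter (fun e => g e = i), szE S.length e ≤ cap S.length

theorem pack_of_x3c (h : Pr S q) (hx : X3C (S, q)) :
    (sizes (S, q)).sum = 3 * S.length * cap S.length ∧ PackE S q := by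
  obtain ⟨π, p1, p2, p3⟩ := h.of_x3c hx
  have hmem : ∀ t ∈ π, ∀ e ∈ el t, e ∈ EE S q := fun t ht e he =>
    p1.mem_iff.1 (List.mem_flatMap.2 ⟨t, ht, he⟩)
  have hs : ∀ t ∈ π, ((el t).map (szE S.length)).sum = cap S.length := fun t ht =>
    triple_sum h (hmem t ht) (p2 t ht) (p3 t ht)
  have hlen : π.length = 3 * S.length := by
    have := p1.length_eq
    rw [EE_length, List.length_flatMap] at this
    simp [el] at this
    omega
  constructor
  · have : ∀ ρ : List (Elt × Elt × Elt), (∀ t ∈ ρ, ((el t).map (szE S.length)).sum =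
        cap S.length) → ((ρ.flatMap el).map (szE S.length)).sum = ρ.length * cap S.length := by
      intro ρ hρ
      induction ρ with
      | nil => simp
      | cons t ρ ih =>
        rw [List.flatMap_cons, List.map_append, List.sum_append, hρ t List.mem_cons_self,
          ih fun t ht => hρ t (List.mem_cons_of_mem _ ht), List.length_cons]
        ring
    rw [← hlen, ← this π hs]
    exact ((p1.map _).sum_eq).symm
  · have hex : ∀ e : Elt, ∃ i : ℕ, e ∈ EE S q → ∃ hi : i < π.length, e ∈ el π[i] := by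
      intro e
      by_cases he : e ∈ EE S q
      · obtain ⟨t, ht, he'⟩ := List.mem_flatMap.1 (p1.mem_iff.2 he)
        obtain ⟨i, hi, rfl⟩ := List.getElem_of_mem ht
        exact ⟨i, fun _ => ⟨hi, he'⟩⟩
      · exact ⟨0, fun h => absurd h he⟩
    choose g hg using hex
    refine ⟨g, fun e he => hlen ▸ (hg e he).1, fun i => ?_⟩
    by_cases hi : i < π.length
    · rw [← hs _ (List.getElem_mem hi)]
      refine le_trans (Finset.sum_le_sum_of_subset (t := (el π[i]).toFinset) ?_)
        (sum_toFinset_le _ _)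
      intro e he
      simp only [Finset.mem_filter, List.mem_toFinset] at he ⊢
      obtain ⟨h1, rfl⟩ := he
      exact (hg e h1).2
    · rw [Finset.sum_eq_zero]
      · exact Nat.zero_le _
      · intro e he
        simp only [Finset.mem_filter, List.mem_toFinset] at he
        obtain ⟨h1, rfl⟩ := he
        exact absurd (hg e h1).1 hi

theorem bin_shape (h : Pr S q) {A : Finset Elt} (hA : ∀ e ∈ A, e ∈ EE S q)
    (hs : ∑ e ∈ A, szE S.length e = cap S.length) :
    ∃ t : Elt × Elt × Elt, Ord t ∧ ms S.length t = 0 ∧ ∀ e ∈ A, e ∈ el t := by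
  have c1 : A.card ≤ 9 * S.length := by
    rw [← EE_length (q := q)]
    exact (Finset.card_le_card fun e he => List.mem_toFinset.2 (hA e he)).trans
      (List.toFinset_card_le _)
  have e1 : (big S.length : ℤ) * (∑ e ∈ A, wt e.1 : ℕ) + ∑ e ∈ A, mn S.length e =
      big S.length * 19 := by
    have : ((∑ e ∈ A, szE S.length e : ℕ) : ℤ) = cap S.length := by rw [hs]
    push_cast at this ⊢
    rw [Finset.sum_congr rfl fun e he => (szE_cast h (hA e he)).1, Finset.sum_add_distrib,
      ← Finset.mul_sum] at this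
    rw [this, cap]
    push_cast
    ring
  have e2 : |∑ e ∈ A, mn S.length e| < big S.length := by
    refine lt_of_le_of_lt (Finset.abs_sum_le_sum_abs _ _) ?_
    refine lt_of_le_of_lt (Finset.sum_le_card_nsmul _ _ _ fun e he => (elt_bd h (hA e he)).2) ?_
    have c2 : (A.card : ℤ) ≤ 9 * S.length := by exact_mod_cast c1
    have c3 : (0 : ℤ) < ((S.length : ℤ) + 1) * (S.length + 1) := by positivity
    rw [nsmul_eq_mul, big]
    push_cast
    nlinarith
  have e3 : (∑ e ∈ A, wt e.1 : ℕ) = 19 := by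
    obtain ⟨l1, l2⟩ := abs_lt.1 e2
    have hb : (0 : ℤ) < big S.length := by linarith
    generalize (∑ e ∈ A, wt e.1 : ℕ) = w at e1
    have u1 : (w : ℤ) < 20 := by nlinarith
    have u2 : (18 : ℤ) < w := by nlinarith
    omega
  have e4 : ∑ e ∈ A, mn S.length e = 0 := by
    rw [e3] at e1
    push_cast at e1
    linarith
  have e5 : ∑ e ∈ A, wt e.1 = 5 * (A.filter fun e => e.1 = 0).card +
      6 * (A.filter fun e => e.1 = 1).card + 8 * (A.filter fun e => e.1 = 2).card := by
    simp only [Finset.card_filter, Finset.mul_sum, ← Finset.sum_add_distrib]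
    refine Finset.sum_congr rfl fun e he => ?_
    rcases (elt_bd h (hA e he)).1 with r | r | r <;> simp [r, wt]
  obtain ⟨a, ha⟩ := Finset.card_eq_one.1 (show (A.filter fun e => e.1 = 0).card = 1 by omega)
  obtain ⟨b, hb⟩ := Finset.card_eq_one.1 (show (A.filter fun e => e.1 = 1).card = 1 by omega)
  obtain ⟨c, hc⟩ := Finset.card_eq_one.1 (show (A.filter fun e => e.1 = 2).card = 1 by omega)
  have ma := Finset.mem_filter.1 (ha ▸ Finset.mem_singleton_self a)
  have mb := Finset.mem_filter.1 (hb ▸ Finset.mem_singleton_self b)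
  have mc := Finset.mem_filter.1 (hc ▸ Finset.mem_singleton_self c)
  have hAe : A = {a, b, c} := by
    ext e
    simp only [Finset.mem_insert, Finset.mem_singleton]
    constructor
    · intro he
      rcases (elt_bd h (hA e he)).1 with r | r | r
      · exact Or.inl (Finset.mem_singleton.1 (ha ▸ Finset.mem_filter.2 ⟨he, r⟩))
      · exact Or.inr (Or.inl (Finset.mem_singleton.1 (hb ▸ Finset.mem_filter.2 ⟨he, r⟩)))
      · exact Or.inr (Or.inr (Finset.mem_singleton.1 (hc ▸ Finset.mem_filter.2 ⟨he, r⟩)))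
    · rintro (rfl | rfl | rfl)
      exacts [ma.1, mb.1, mc.1]
  have n1 : a ≠ b := fun e => by have := ma.2; rw [e, mb.2] at this; omega
  have n2 : a ≠ c := fun e => by have := ma.2; rw [e, mc.2] at this; omega
  have n3 : b ≠ c := fun e => by have := mb.2; rw [e, mc.2] at this; omega
  refine ⟨(a, b, c), ⟨ma.2, mb.2, mc.2⟩, ?_, fun e he => ?_⟩
  · rw [hAe, Finset.sum_insert (by simp [n1, n2]), Finset.sum_pair n3] at e4
    simp only [ms]
    linarith
  · rw [hAe] at he
    simpa [el] using he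

theorem x3c_of_pack (h : Pr S q) (hs : (sizes (S, q)).sum = 3 * S.length * cap S.length)
    (hp : PackE S q) : X3C (S, q) := by
  obtain ⟨g, g1, g2⟩ := hp
  have e1 : ∑ i ∈ Finset.range (3 * S.length),
      ∑ e ∈ (EE S q).toFinset.filter (fun e => g e = i), szE S.length e =
      ∑ _i ∈ Finset.range (3 * S.length), cap S.length := by
    rw [Finset.sum_fiberwise_of_maps_to fun e he =>
      Finset.mem_range.2 (g1 e (List.mem_toFinset.1 he)), List.sum_toFinset _ h.EE_nodup]
    simpa [sizes] using hs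
  have e2 := (Finset.sum_eq_sum_iff_of_le fun i _ => g2 i).1 e1
  have e3 : ∀ i, ∃ t : Elt × Elt × Elt, i < 3 * S.length → Ord t ∧ ms S.length t = 0 ∧
      ∀ e ∈ (EE S q).toFinset.filter (fun e => g e = i), e ∈ el t := by
    intro i
    by_cases hi : i < 3 * S.length
    · obtain ⟨t, ht⟩ := bin_shape h (fun e he => List.mem_toFinset.1 (Finset.mem_filter.1 he).1)
        (e2 i (Finset.mem_range.2 hi))
      exact ⟨t, fun _ => ht⟩
    · exact ⟨default, fun h => absurd h hi⟩
  choose t ht using e3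
  refine h.to_x3c (π := (List.range (3 * S.length)).map t) ?_ ?_ ?_
  · symm
    refine (List.subperm_of_subset h.EE_nodup fun e he => ?_).perm_of_length_le ?_
    · exact List.mem_flatMap.2 ⟨t (g e), List.mem_map_of_mem (List.mem_range.2 (g1 e he)),
        (ht _ (g1 e he)).2.2 e (Finset.mem_filter.2 ⟨List.mem_toFinset.2 he, rfl⟩)⟩
    · rw [EE_length, List.length_flatMap]
      simp [el, Function.comp_def]
      omega
  · intro s hs
    obtain ⟨i, hi, rfl⟩ := List.mem_map.1 hs
    exact (ht i (List.mem_range.1 hi)).1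
  · intro s hs
    obtain ⟨i, hi, rfl⟩ := List.mem_map.1 hs
    exact (ht i (List.mem_range.1 hi)).2.1

theorem sum_idx {α : Type} [DecidableEq α] (l : List α) (hl : l.Nodup) (s : α → ℕ) (p : α → Prop)
    [DecidablePred p] (p' : Fin (l.map s).length → Prop) [DecidablePred p']
    (hp : ∀ x : Fin (l.map s).length, p' x ↔ p (l[x.1]'(by simpa using x.2))) :
    ∑ x ∈ Finset.univ.filter p', (l.map s)[x] = ∑ e ∈ l.toFinset.filter p, s e := by
  refine Finset.sum_bij (fun x _ => l[x.1]'(by simpa using x.2)) ?_ ?_ ?_ ?_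
  · intro x hx
    exact Finset.mem_filter.2 ⟨List.mem_toFinset.2 (List.getElem_mem _),
      (hp x).1 (Finset.mem_filter.1 hx).2⟩
  · intro x _ y _ e
    exact Fin.ext ((List.Nodup.getElem_inj_iff hl).1 e)
  · intro e he
    obtain ⟨h1, h2⟩ := Finset.mem_filter.1 he
    obtain ⟨i, hi, rfl⟩ := List.getElem_of_mem (List.mem_toFinset.1 h1)
    exact ⟨⟨i, by simpa using hi⟩, Finset.mem_filter.2 ⟨Finset.mem_univ _, (hp _).2 h2⟩, rfl⟩
  · intro x _
    simp

theorem cap_ge (m : ℕ) : 100 * (m + 1) ≤ cap m := by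
  unfold cap big
  nlinarith [Nat.zero_le m, Nat.zero_le (m * m), Nat.zero_le (m * m * m)]

theorem packF_iff (h : Pr S q) :
    PackF (cap S.length) (ff S.length) (fun x : Fin (sizes (S, q)).length => (sizes (S, q))[x]) ↔
      PackE S q := by
  have hc := cap_ge S.length
  have hlen : (sizes (S, q)).length = (EE S q).length := List.length_map _
  constructor
  · rintro ⟨g, g1, g2⟩
    let g' : Elt → ℕ := fun e => if he : (EE S q).idxOf e < (sizes (S, q)).length then
      (g ⟨_, he⟩).1 - ff S.length else 0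
    have hg' : ∀ x : Fin (sizes (S, q)).length,
        g' ((EE S q)[x.1]'(hlen ▸ x.2)) = (g x).1 - ff S.length := by
      intro x
      have : (EE S q).idxOf ((EE S q)[x.1]'(hlen ▸ x.2)) = x.1 :=
        List.Nodup.idxOf_getElem h.EE_nodup _ _
      simp only [g', this, x.2, dif_pos]
    have hlt : ∀ e ∈ EE S q, g' e < 3 * S.length := by
      intro e he
      obtain ⟨i, hi, rfl⟩ := List.getElem_of_mem he
      have h1 := hg' ⟨i, hlen ▸ hi⟩
      have h2 := (g ⟨i, hlen ▸ hi⟩).2
      have h3 := g1 ⟨i, hlen ▸ hi⟩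
      simp only at h1
      rw [h1]
      unfold ff at h3 ⊢
      omega
    refine ⟨g', hlt, fun i => ?_⟩
    by_cases hi : i < 3 * S.length
    · refine le_trans (le_of_eq ?_) (g2 ⟨i + ff S.length, by unfold ff; omega⟩)
      symm
      refine sum_idx (EE S q) h.EE_nodup (szE S.length) _ _ fun x => ?_
      rw [hg' x, Fin.ext_iff]
      have := g1 x
      simp only
      omega
    · rw [Finset.sum_eq_zero]
      · exact Nat.zero_le _
      · intro e he
        simp only [Finset.mem_filter, List.mem_toFinset] at he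
        obtain ⟨h1, rfl⟩ := he
        exact absurd (hlt e h1) hi
  · rintro ⟨g, g1, g2⟩
    refine ⟨fun x => ⟨g ((EE S q)[x.1]'(hlen ▸ x.2)) + ff S.length, by
      have := g1 _ (List.getElem_mem (hlen ▸ x.2 : x.1 < (EE S q).length))
      unfold ff
      omega⟩, fun x => Nat.le_add_left _ _, fun i => ?_⟩
    refine le_trans ?_ (g2 (i.1 - ff S.length))
    rw [← sum_idx (EE S q) h.EE_nodup (szE S.length) _
      (fun x => g ((EE S q)[x.1]'(hlen ▸ x.2)) = i.1 - ff S.length) fun x => Iff.rfl]
    refine Finset.sum_le_sum_of_subset fun x hx => ?_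
    exact Finset.mem_filter.2 ⟨Finset.mem_univ _,
      Nat.eq_sub_of_add_eq (congrArg Fin.val (Finset.mem_filter.1 hx).2)⟩

theorem out_correct (h : Pr S q) : (outG (S, q)).IsTree ∧
    (X3C (S, q) ↔ pd (outG (S, q)) ≤ cap S.length + 1) := by
  have hc := cap_ge S.length
  have hm := List.length_pos_of_ne_nil h.ne
  have k1 : ∀ s ∈ items (S, q), s ≤ cap S.length + 2 := by
    intro s hs
    unfold items at hs
    split_ifs at hs
    · obtain ⟨e, he, rfl⟩ := List.mem_map.1 hs
      exact (szE_cast h he).2.trans (Nat.le_add_right _ _)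
    · simp only [List.mem_singleton] at hs
      omega
  have k2 : (items (S, q)).length ≤ ff S.length := by
    unfold items ff
    split_ifs
    · rw [sizes, List.length_map, EE_length]
      simp only
      omega
    · simp only [List.length_singleton]
      omega
  obtain ⟨t1, t2⟩ := tree_main (N := cap S.length + 2) (B := cap S.length) le_rfl k1
    (by unfold ff; omega) (by unfold ff; omega) k2
  refine ⟨t1, Iff.trans ?_ t2.symm⟩
  have key : ∀ l : List ℕ, l = items (S, q) → (X3C (S, q) ↔
      PackF (cap S.length) (ff S.length) fun x : Fin l.length => l[x]) := by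
    intro l hl
    unfold items at hl
    split_ifs at hl with hs
    · subst hl
      rw [packF_iff h]
      exact ⟨fun hx => (pack_of_x3c h hx).2, x3c_of_pack h hs⟩
    · subst hl
      refine ⟨fun hx => absurd (pack_of_x3c h hx).1 hs, ?_⟩
      rintro ⟨g, -, g2⟩
      have := g2 (g ⟨0, by simp⟩)
      have h4 : [cap S.length + 1][(⟨0, by simp⟩ : Fin [cap S.length + 1].length)] ≤
          cap S.length := by
        refine le_trans ?_ this
        exact Finset.single_le_sum (f := fun x : Fin [cap S.length + 1].length =>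
          [cap S.length + 1][x]) (fun _ _ => Nat.zero_le _)
          (Finset.mem_filter.2 ⟨Finset.mem_univ _, rfl⟩)
      simp at h4
  exact key _ rfl

theorem main (L : Set (List Bool)) (hL : InNP L) :
    ∃ (n : List Bool → ℕ) (T : ∀ x, SimpleGraph (Fin (n x))) (k : List Bool → ℕ),
      PolyTime (fun x => bits (adjMatrix (T x), k x)) ∧ (∀ x, (T x).IsTree ∧ 0 < k x) ∧
      ∀ x, x ∈ L ↔ pd (T x) ≤ k x := by
  obtain ⟨f, hf, h1, h2⟩ := hardPr_X3Cr L hL
  exact ⟨_, fun x => outG (f x), fun x => cap (f x).1.length + 1,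
    PC.toPolyTime_bits poly_out f hf, fun x => ⟨(out_correct (h1 x)).1, Nat.succ_pos _⟩,
    fun x => (h2 x).trans (out_correct (h1 x)).2⟩

end Pool.Agent.H320Z.PD
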