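import Pool.Agent.H320Z.PDLocal

set_option autoImplicit false

/-! The tree attached to a bin packing instance. -/

namespace Pool.Agent.H320Z.PD

inductive Hub (B n : ℕ) (sz : Fin n → ℕ) : Type
  | U (i : Fin (B + 1))
  | W (c m : Fin (B + 1)) (h : c ≠ m)
  | C (x : Fin n)
  | Y (x : Fin n) (j : Fin (sz x))

inductive Vt (B n : ℕ) (sz : Fin n → ℕ) : Type
  | P
  | H (h : Hub B n sz)
  | L (h : Hub B n sz) (t : Fin B)
  | E (i : Fin (B + 1))

open Hub Vt

variable {B n : ℕ} {sz : Fin n → ℕ}

def other (m : Fin (B + 1)) : Fin (B + 1) := if m.1 = 0 then Fin.last B else 0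

theorem other_ne (hB : 1 ≤ B) (m : Fin (B + 1)) : other m ≠ m := by
  unfold other
  split_ifs with h
  · intro e
    have := congrArg Fin.val e
    simp at this
    omega
  · intro e
    exact h (by rw [← e]; rfl)

def par (f : ℕ) : Vt B n sz → Vt B n sz
  | P => P
  | H (U i) => if i.1 < f then P else H (U 0)
  | H (W _ m _) => H (U (other m))
  | H (C _) => P
  | H (Y x _) => H (C x)
  | L h _ => H h
  | E i => H (U i)

def Ad (f : ℕ) (u v : Vt B n sz) : Prop := u ≠ v ∧ (par f u = v ∨ par f v = u)

def rk (f : ℕ) : Vt B n sz → ℕ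
  | P => 0
  | H (U i) => if i.1 < f then 1 else 2
  | H (W _ _ _) => 3
  | H (C _) => 1
  | H (Y _ _) => 2
  | L _ _ => 4
  | E _ => 4

theorem rk_H (f : ℕ) (h : Hub B n sz) : rk f (H h) ≤ 3 := by
  cases h <;> simp only [rk] <;> first | omega | (split_ifs <;> omega)

theorem rk_par {f : ℕ} (hf : 0 < f) (v : Vt B n sz) (hv : v ≠ P) : rk f (par f v) < rk f v := by
  rcases v with _ | h | ⟨h, t⟩ | i
  · exact absurd rfl hv
  · rcases h with i | ⟨c, m, h⟩ | x | ⟨x, j⟩
    · by_cases h : i.1 < f <;> simp [par, rk, h, hf]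
    · simp only [par, rk]; split_ifs <;> omega
    · simp [par, rk]
    · simp [par, rk]
  · have := rk_H f h
    simp only [par]
    exact lt_of_le_of_lt this (by simp [rk])
  · have := rk_H f (U i : Hub B n sz)
    simp only [par]
    exact lt_of_le_of_lt this (by simp [rk])

theorem ad_par {f : ℕ} (hf : 0 < f) {v : Vt B n sz} (hv : v ≠ P) : Ad f v (par f v) :=
  ⟨fun e => by have := rk_par hf v hv; rw [← e] at this; omega, Or.inl rfl⟩

theorem Ad.symm {f : ℕ} {u v : Vt B n sz} (h : Ad f u v) : Ad f v u := ⟨h.1.symm, h.2.symm⟩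

theorem par_ne_L (f : ℕ) (u : Vt B n sz) (h : Hub B n sz) (t : Fin B) : par f u ≠ L h t := by
  rcases u with _ | h | ⟨h, t⟩ | i
  · simp [par]
  · cases h <;> simp only [par] <;> first | (split_ifs <;> simp) | simp
  · simp [par]
  · simp [par]

theorem par_ne_E (f : ℕ) (u : Vt B n sz) (i : Fin (B + 1)) : par f u ≠ E i := by
  rcases u with _ | h | ⟨h, t⟩ | i
  · simp [par]
  · cases h <;> simp only [par] <;> first | (split_ifs <;> simp) | simp
  · simp [par]
  · simp [par]

theorem par_eq_Y {f : ℕ} {u : Vt B n sz} {x : Fin n} {j : Fin (sz x)}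
    (e : par f u = H (Y x j)) : ∃ t, u = L (Y x j) t := by
  rcases u with _ | h | ⟨h, t⟩ | i
  · simp [par] at e
  · cases h <;> simp only [par] at e <;> first | simp at e | (split_ifs at e <;> simp at e)
  · simp only [par, H.injEq] at e
    exact ⟨t, by rw [e]⟩
  · simp [par] at e

/-- Packings: the bins are the numbers `f, ..., B`, each of capacity `B`. -/
def PackF (B f : ℕ) {n : ℕ} (sz : Fin n → ℕ) : Prop :=
  ∃ g : Fin n → Fin (B + 1), (∀ x, f ≤ (g x).1) ∧
    ∀ i, ∑ x ∈ Finset.univ.filter (fun x => g x = i), sz x ≤ B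

theorem card_fib {n : ℕ} (sz : Fin n → ℕ) {α : Type} [DecidableEq α] (g : Fin n → α) (i : α) :
    Fintype.card {p : (Σ x : Fin n, Fin (sz x)) // g p.1 = i} =
      ∑ x ∈ Finset.univ.filter (fun x => g x = i), sz x := by
  rw [Fintype.card_subtype, Finset.card_eq_sum_ones, Finset.sum_filter, Finset.sum_filter,
    Fintype.sum_sigma]
  refine Finset.sum_congr rfl fun x _ => ?_
  by_cases h : g x = i <;> simp [h]

theorem sound {f : ℕ} (hf : 0 < f) {k : ℕ} (hk : k ≤ B + 1) {col : Vt B n sz → Fin k}
    {D : Vt B n sz → Fin k → ℕ} (h : Loc (Ad f) col D) : PackF B f sz := by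
  have leaf : ∀ (l p : Vt B n sz), (∀ u, par f u ≠ l) → par f l = p → ∀ c,
      D l c = if col l = c then 0 else D p c + 1 := by
    intro l p h1 h2 c
    split_ifs with hc
    · exact (h.zero _ _).2 hc
    · obtain ⟨u, ⟨-, hu | hu⟩, e⟩ := h.wit l c fun h0 => hc ((h.zero _ _).1 h0)
      · rw [← h2, hu, e]
      · exact absurd hu (h1 u)
  have twin : ∀ (l l' p : Vt B n sz), (∀ u, par f u ≠ l) → par f l = p → (∀ u, par f u ≠ l') →
      par f l' = p → col l = col l' → l = l' := by
    intro l l' p h1 h2 h3 h4 e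
    refine h.inj (funext fun c => ?_)
    rw [leaf l p h1 h2, leaf l' p h3 h4, e]
  have up : ∀ (v : Vt B n sz) c, v ≠ P → D v c ≤ D (par f v) c + 1 := fun v c hv =>
    h.step _ _ c (ad_par hf hv)
  have down : ∀ (v : Vt B n sz) c, v ≠ P → D (par f v) c ≤ D v c + 1 := fun v c hv =>
    h.step _ _ c (ad_par hf hv).symm
  let lf : Fin (B + 1) → Option (Fin B) → Vt B n sz := fun i o => o.elim (E i) (L (U i))
  have lf1 : ∀ i o u, par f u ≠ lf i o := by
    rintro i (_ | t) u
    · exact par_ne_E f u i
    · exact par_ne_L f u _ t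
  have lf2 : ∀ i o, par f (lf i o) = H (U i) := by
    rintro i (_ | t) <;> rfl
  have lf3 : ∀ i, Function.Injective fun o => col (lf i o) := by
    intro i o o' e
    have := twin _ _ _ (lf1 i o) (lf2 i o) (lf1 i o') (lf2 i o') e
    rcases o with _ | t <;> rcases o' with _ | t' <;> simp [lf] at this ⊢
    exact this
  have hk' : k = B + 1 := by
    have := Fintype.card_le_of_injective _ (lf3 0)
    simp only [Fintype.card_option, Fintype.card_fin] at this
    omega
  subst hk'
  have full : ∀ i c, D (H (U i)) c ≤ 1 := by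
    intro i c
    obtain ⟨o, ho⟩ := ((Fintype.bijective_iff_injective_and_card _).2 ⟨lf3 i, by simp⟩).2 c
    have h1 := down (lf i o) c (by rcases o with _ | t <;> simp [lf])
    rw [lf2, (h.zero _ _).2 ho] at h1
    exact h1
  have val : ∀ v c, D v c ≤ 1 → D v c = if col v = c then 0 else 1 := by
    intro v c h1
    split_ifs with hc
    · exact (h.zero _ _).2 hc
    · have : D v c ≠ 0 := fun h0 => hc ((h.zero _ _).1 h0)
      omega
  have cuinj : Function.Injective fun i : Fin (B + 1) => col (H (U i)) := by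
    intro i i' e
    have : (H (U i) : Vt B n sz) = H (U i') := h.inj (funext fun c => by
      rw [val _ _ (full i c), val _ _ (full i' c)]
      simp only at e
      rw [e])
    simpa using this
  have cusurj := Finite.injective_iff_surjective.1 cuinj
  have nf : ∀ a : Hub B n sz, ∃ m, ∀ c, c ≠ m → D (H a) c ≤ 1 := by
    intro a
    have i1 : Function.Injective fun t : Fin B => col (L a t) := by
      intro t t' e
      have := twin _ _ _ (par_ne_L f · a t) rfl (par_ne_L f · a t') rfl e
      simpa using this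
    have c1 : ((Finset.univ.image fun t : Fin B => col (L a t))ᶜ).card = 1 := by
      rw [Finset.card_compl, Finset.card_image_of_injective _ i1]
      simp
    obtain ⟨m, hm⟩ := Finset.card_eq_one.1 c1
    refine ⟨m, fun c hc => ?_⟩
    have : c ∉ (Finset.univ.image fun t : Fin B => col (L a t))ᶜ := by
      rw [hm]; simpa using hc
    rw [Finset.mem_compl, not_not, Finset.mem_image] at this
    obtain ⟨t, -, ht⟩ := this
    have h1 := down (L a t) c (by simp)
    rw [(h.zero _ _).2 ht] at h1
    exact h1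
  choose m hm using nf
  have slot : ∀ a a' : Hub B n sz, col (H a) = col (H a') → m a = m a' →
      D (H a) (m a) = D (H a') (m a') → a = a' := by
    intro a a' e1 e2 e3
    have : (H a : Vt B n sz) = H a' := h.inj (funext fun c => by
      by_cases hc : c = m a
      · rw [hc, e3, e2]
      · rw [val _ _ (hm a c hc), val _ _ (hm a' c (e2 ▸ hc)), e1])
    simpa using this
  have two : ∀ a : Hub B n sz, (∀ i, a ≠ U i) → 2 ≤ D (H a) (m a) := by
    intro a ha
    by_contra hc
    obtain ⟨i, hi⟩ := cusurj (col (H a))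
    have : (H a : Vt B n sz) = H (U i) := h.inj (funext fun c => by
      have h1 : D (H a) c ≤ 1 := by
        by_cases e : c = m a
        · rw [e]; omega
        · exact hm a c e
      rw [val _ _ h1, val _ _ (full i c)]
      simp only at hi
      rw [hi])
    exact ha i (by simpa using this)
  have cne : ∀ a : Hub B n sz, (∀ i, a ≠ U i) → col (H a) ≠ m a := by
    intro a ha e
    have := two a ha
    rw [(h.zero _ _).2 e] at this
    omega
  have fil : ∀ c m' hh, D (H (W c m' hh)) (m (W c m' hh)) = 2 := by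
    intro c m' hh
    have h1 := two (W c m' hh) (by simp)
    have h2 := up (H (W c m' hh)) (m (W c m' hh)) (by simp)
    have h3 := full (other m') (m (W c m' hh))
    simp only [par] at h2
    omega
  let φ : {p : Fin (B + 1) × Fin (B + 1) // p.1 ≠ p.2} →
      {p : Fin (B + 1) × Fin (B + 1) // p.1 ≠ p.2} := fun p =>
    ⟨(col (H (W p.1.1 p.1.2 p.2)), m (W p.1.1 p.1.2 p.2)), cne _ (by simp)⟩
  have φinj : Function.Injective φ := by
    rintro ⟨⟨c, m'⟩, hh⟩ ⟨⟨c', m''⟩, hh'⟩ e
    have e1 := congrArg (fun p => p.1.1) e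
    have e2 := congrArg (fun p => p.1.2) e
    have := slot _ _ e1 e2 (by rw [fil, fil])
    simpa using this
  have three : ∀ a : Hub B n sz, (∀ i, a ≠ U i) → (∀ c m' hh, a ≠ W c m' hh) →
      3 ≤ D (H a) (m a) := by
    intro a h1 h2
    by_contra hc
    have h3 := two a h1
    obtain ⟨p, hp⟩ := Finite.injective_iff_surjective.1 φinj ⟨(col (H a), m a), cne a h1⟩
    have e1 := congrArg (fun p => p.1.1) hp
    have e2 := congrArg (fun p => p.1.2) hp
    exact h2 _ _ _ (slot _ _ e1 e2 (by rw [fil]; omega)).symm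
  have dP : ∀ c, D P c ≤ 2 := by
    intro c
    have h1 := down (H (U 0)) c (by simp)
    have h2 := full 0 c
    simp only [par, Fin.val_zero, hf, if_true] at h1
    omega
  have dC : ∀ x, D (H (C x)) (m (C x)) = 3 := by
    intro x
    have h1 := three (C x) (by simp) (by simp)
    have h2 := up (H (C x)) (m (C x)) (by simp)
    have h3 := dP (m (C x))
    simp only [par] at h2
    omega
  have mY : ∀ x j, m (Y x j) = m (C x) := by
    intro x j
    by_contra hc
    have h1 := three (Y x j) (by simp) (by simp)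
    have h2 := up (H (Y x j)) (m (Y x j)) (by simp)
    have h3 := hm (C x) _ hc
    simp only [par] at h2
    omega
  have dY : ∀ x j, D (H (Y x j)) (m (Y x j)) = 4 := by
    intro x j
    have h1 := three (Y x j) (by simp) (by simp)
    obtain ⟨u, ⟨-, hu | hu⟩, e⟩ := h.wit (H (Y x j)) (m (Y x j)) (by omega)
    · simp only [par] at hu
      rw [← hu, mY, dC] at e
      rw [mY]
      omega
    · obtain ⟨t, rfl⟩ := par_eq_Y hu
      rw [leaf _ _ (par_ne_L f · _ t) rfl] at e
      simp only [par] at e
      split_ifs at e <;> omega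
  choose g hg using fun x => cusurj (m (C x))
  refine ⟨g, fun x => ?_, fun i => ?_⟩
  · by_contra hc
    have h1 := down (H (U (g x))) (m (C x)) (by simp)
    have h2 := up (H (C x)) (m (C x)) (by simp)
    rw [(h.zero _ _).2 (hg x)] at h1
    simp only [par, not_le.1 hc, if_true] at h1 h2
    have := dC x
    omega
  · rw [← card_fib]
    have key : Function.Injective fun p : {p : (Σ x : Fin n, Fin (sz x)) // g p.1 = i} =>
        (⟨col (H (Y p.1.1 p.1.2)), by
          have h1 := cne (Y p.1.1 p.1.2) (by simp)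
          rw [mY, ← hg, p.2] at h1
          exact h1⟩ : {c : Fin (B + 1) // c ≠ col (H (U i))}) := by
      rintro ⟨⟨x, j⟩, hx⟩ ⟨⟨x', j'⟩, hx'⟩ e
      have e1 := congrArg Subtype.val e
      have := slot _ _ e1 (by rw [mY, mY, ← hg, ← hg]; simp only at hx hx' ⊢; rw [hx, hx'])
        (by rw [dY, dY])
      simp only [Y.injEq] at this
      obtain ⟨rfl, h2⟩ := this
      obtain rfl := eq_of_heq h2
      rfl
    have := Fintype.card_le_of_injective _ key
    rw [Fintype.card_subtype_compl, Fintype.card_subtype_eq, Fintype.card_fin] at this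
    omega

end Pool.Agent.H320Z.PD
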