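import Mathlib

set_option autoImplicit false

/-! A self-similar 2-group whose elements of length at most `3 ^ k` have order dividing
`2 ^ (k + 1)` (problem MP_166ce5_al). -/

namespace Pool.Agent.H320Z.Period

/-- The alphabet. -/
abbrev X : Type := Fin 16 → ZMod 2

/-- Names of the generators. -/
abbrev I : Type := Option (Fin 16)

def e (i : Fin 16) : X := Pi.single i 1

/-- complemented Hadamard rows -/
def v (i : Fin 16) : X := fun j =>
  1 + ((i.val * j.val % 2 + (i.val / 2) * (j.val / 2) % 2 + (i.val / 4) * (j.val / 4) % 2
    + (i.val / 8) * (j.val / 8) % 2 : ℕ) : ZMod 2)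

def pos : I → X
  | none => 0
  | some i => v i

theorem pos_far : ∀ s t : I, s ≠ t → 8 ≤ hammingDist (pos s) (pos t) := by decide +kernel

theorem pos_inj : Function.Injective pos := by
  intro s t h
  by_contra hne
  have := pos_far s t hne
  rw [h, hammingDist_self] at this
  omega

open Classical in
noncomputable def sec (x : X) : Option I := if h : ∃ s, pos s = x then some h.choose else none

theorem sec_some {x : X} {s : I} (h : sec x = some s) : pos s = x := by
  unfold sec at h
  split_ifs at h with h1
  rw [← Option.some.inj h]; exact h1.choose_spec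

theorem sec_pos (s : I) : sec (pos s) = some s := by
  unfold sec
  have h : ∃ t, pos t = pos s := ⟨s, rfl⟩
  rw [dif_pos h, pos_inj h.choose_spec]

noncomputable def gen : I → List X → List X
  | _, [] => []
  | some i, x :: w => (x + e i) :: w
  | none, x :: w => x :: (match sec x with
      | none => w
      | some s => gen s w)

theorem add_self (x : X) : x + x = 0 := by
  funext j
  exact CharTwo.add_self_eq_zero (x j)

theorem gen_invol : ∀ (w : List X) (s : I), gen s (gen s w) = w := by
  intro w
  induction w with
  | nil => intro s; cases s <;> simp [gen]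
  | cons x w ih =>
    intro s
    cases s with
    | some i => simp only [gen]; rw [add_assoc, add_self, add_zero]
    | none =>
      simp only [gen]
      cases h : sec x with
      | none => rfl
      | some t => simp only [ih]

noncomputable def g (s : I) : Equiv.Perm (List X) :=
  Function.Involutive.toPerm (gen s) (fun w => gen_invol w s)

theorem g_apply (s : I) (w : List X) : g s w = gen s w := rfl

theorem g_mul_self (s : I) : g s * g s = 1 := by
  ext w : 1; exact gen_invol w s

noncomputable def ev (ω : List I) : Equiv.Perm (List X) := (ω.map g).prod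

theorem ev_nil : ev [] = 1 := rfl
theorem ev_cons (s : I) (ω : List I) : ev (s :: ω) = g s * ev ω := by simp [ev]
theorem ev_append (ω ω' : List I) : ev (ω ++ ω') = ev ω * ev ω' := by simp [ev]

theorem gen_length : ∀ (w : List X) (s : I), (gen s w).length = w.length := by
  intro w
  induction w with
  | nil => intro s; cases s <;> simp [gen]
  | cons x w ih =>
    intro s
    cases s with
    | some i => simp [gen]
    | none =>
      simp only [gen]
      cases h : sec x with
      | none => rfl
      | some t => simp [ih]

theorem ev_length (ω : List I) (w : List X) : (ev ω w).length = w.length := by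
  induction ω with
  | nil => rfl
  | cons s ω ih => rw [ev_cons, Equiv.Perm.mul_apply, g_apply, gen_length, ih]

theorem ev_nil_apply (ω : List I) : ev ω [] = [] :=
  List.length_eq_zero_iff.1 (ev_length ω [])

/-- action on the first letter -/
def rho : List I → X
  | [] => 0
  | none :: ω => rho ω
  | some i :: ω => rho ω + e i

theorem rho_append (ω ω' : List I) : rho (ω ++ ω') = rho ω + rho ω' := by
  induction ω with
  | nil => simp [rho]
  | cons s ω ih =>
    cases s with
    | none => simpa [rho] using ih
    | some i => simp only [List.cons_append, rho, ih]; abel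

/-- the invariant for the reduced section word -/
def Inv : List I → X → ℕ → Prop
  | [], _, _ => True
  | s :: r, y, n => 8 * r.length + min (hammingDist y (pos s)) 8 ≤ n

theorem dist_e (y z : X) (i : Fin 16) : hammingDist (y + e i) z ≤ hammingDist y z + 1 := by
  have h1 := hammingDist_triangle (y + e i) y z
  have h2 : hammingDist (y + e i) y ≤ 1 := by
    unfold hammingDist
    rw [Finset.card_le_one_iff_subset_singleton]
    refine ⟨i, fun j hj => ?_⟩
    rw [Finset.mem_singleton]
    by_contra hne
    have := (Finset.mem_filter.1 hj).2
    apply this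
    simp [e, Pi.single_eq_of_ne hne]
  omega

theorem section_word (ω : List I) (x : X) : ∃ ω' : List I, Inv ω' (x + rho ω) ω.length ∧
    ∀ w, ev ω (x :: w) = (x + rho ω) :: ev ω' w := by
  induction ω with
  | nil => exact ⟨[], trivial, fun w => by simp [rho, ev]⟩
  | cons s ω ih =>
    obtain ⟨ω', h1, h2⟩ := ih
    cases s with
    | some i =>
      refine ⟨ω', ?_, fun w => ?_⟩
      · cases ω' with
        | nil => trivial
        | cons t r =>
          simp only [Inv, rho, List.length_cons] at h1 ⊢
          have := dist_e (x + rho ω) (pos t) i
          rw [← add_assoc]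
          omega
      · rw [ev_cons, Equiv.Perm.mul_apply, h2, g_apply]
        simp only [gen, rho, add_assoc]
    | none =>
      cases h : sec (x + rho ω) with
      | none =>
        refine ⟨ω', ?_, fun w => ?_⟩
        · cases ω' with
          | nil => trivial
          | cons t r =>
            simp only [Inv, rho, List.length_cons] at h1 ⊢
            omega
        · rw [ev_cons, Equiv.Perm.mul_apply, h2, g_apply]
          simp only [gen, rho, h]
      | some t =>
        have hp := sec_some h
        have h3 : ∀ w, ev (none :: ω) (x :: w) = (x + rho ω) :: ev (t :: ω') w := by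
          intro w
          rw [ev_cons, Equiv.Perm.mul_apply, h2, g_apply, ev_cons, Equiv.Perm.mul_apply, g_apply]
          simp only [gen, h]
        cases ω' with
        | nil =>
          refine ⟨[t], ?_, h3⟩
          simp only [Inv, rho, List.length_cons, hp, hammingDist_self, List.length_nil]
          omega
        | cons t' r =>
          by_cases htt : t = t'
          · subst htt
            refine ⟨r, ?_, fun w => ?_⟩
            · cases r with
              | nil => trivial
              | cons t'' r' =>
                simp only [Inv, rho, List.length_cons] at h1 ⊢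
                omega
            · rw [h3, ev_cons, ev_cons, ← mul_assoc, g_mul_self, one_mul]; rfl
          · refine ⟨t :: t' :: r, ?_, h3⟩
            have := pos_far t t' htt
            simp only [Inv, rho, List.length_cons, hp, hammingDist_self] at h1 this ⊢
            omega

theorem Inv.length_le {ω' : List I} {y : X} {n : ℕ} (h : Inv ω' y n) : 8 * ω'.length ≤ n + 8 := by
  cases ω' with
  | nil => simp
  | cons t r =>
    simp only [Inv, List.length_cons] at h ⊢
    omega

theorem order_bound (k : ℕ) : ∀ ω : List I, ω.length ≤ 3 ^ k → ev ω ^ (2 ^ (k + 1)) = 1 := by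
  induction k with
  | zero =>
    intro ω h
    match ω, h with
    | [], _ => simp [ev]
    | [s], _ => simpa [ev, pow_two] using g_mul_self s
  | succ k ih =>
    intro ω h
    rw [pow_succ' 2 (k + 1), pow_mul, pow_two, ← ev_append]
    ext w : 1
    cases w with
    | nil =>
      have : ∀ m : ℕ, (ev (ω ++ ω) ^ m) [] = [] := by
        intro m
        induction m with
        | zero => rfl
        | succ m ihm => rw [pow_succ, Equiv.Perm.mul_apply, ev_nil_apply, ihm]
      exact this _
    | cons x w =>
      obtain ⟨ω', h1, h2⟩ := section_word (ω ++ ω) x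
      have h3 := h1.length_le
      rw [rho_append, add_self, add_zero] at h2
      have : ∀ (m : ℕ) (w : List X), (ev (ω ++ ω) ^ m) (x :: w) = x :: (ev ω' ^ m) w := by
        intro m
        induction m with
        | zero => intro w; rfl
        | succ m ihm =>
          intro w
          rw [pow_succ, Equiv.Perm.mul_apply, h2, ihm, pow_succ, Equiv.Perm.mul_apply]
      rw [this, ih ω']
      · rfl
      · rw [List.length_append] at h3
        have : 1 ≤ 3 ^ k := Nat.one_le_pow _ _ (by norm_num)
        rw [pow_succ] at h
        omega

theorem rooted (x : X) : ∃ ω : List I, ∀ y w, ev ω (y :: w) = (y + x) :: w := by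
  have : ∀ s : Finset (Fin 16), ∃ ω : List I, ∀ y w,
      ev ω (y :: w) = (y + ∑ i ∈ s, Pi.single i (x i)) :: w := by
    intro s
    induction s using Finset.induction_on with
    | empty => exact ⟨[], fun y w => by simp [ev]⟩
    | insert i s hi ih =>
      obtain ⟨ω, h⟩ := ih
      have hx : ∀ z : ZMod 2, z = 0 ∨ z = 1 := by decide
      rcases hx (x i) with h0 | h0
      · refine ⟨ω, fun y w => ?_⟩
        rw [h, Finset.sum_insert hi, h0, Pi.single_zero, zero_add]
      · refine ⟨some i :: ω, fun y w => ?_⟩
        rw [ev_cons, Equiv.Perm.mul_apply, h, g_apply, Finset.sum_insert hi, h0]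
        simp only [gen, e]
        congr 1
        abel
  obtain ⟨ω, h⟩ := this Finset.univ
  refine ⟨ω, fun y w => ?_⟩
  rw [h, Finset.univ_sum_single]

theorem lift (ω : List I) : ∃ ω' : List I, ∀ w, ev ω' (0 :: w) = 0 :: ev ω w := by
  induction ω with
  | nil => exact ⟨[], fun w => rfl⟩
  | cons s ω ih =>
    obtain ⟨ω', h⟩ := ih
    obtain ⟨u, hu⟩ := rooted (pos s)
    refine ⟨u ++ none :: u ++ ω', fun w => ?_⟩
    rw [ev_append, ev_append, ev_cons, ev_cons]
    simp only [Equiv.Perm.mul_apply, h, hu, zero_add, g_apply, gen, sec_pos, add_self]

theorem transitive (u : List X) : ∃ ω : List I, ev ω (List.replicate u.length 0) = u := by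
  induction u with
  | nil => exact ⟨[], rfl⟩
  | cons x u ih =>
    obtain ⟨ω, h⟩ := ih
    obtain ⟨ω', h'⟩ := lift ω
    obtain ⟨a, ha⟩ := rooted x
    refine ⟨a ++ ω', ?_⟩
    rw [ev_append, Equiv.Perm.mul_apply, List.length_cons, List.replicate_succ, h', h, ha, zero_add]

theorem gen_count : ∀ (w : List X) (s : I),
    (gen s w).countP (· ≠ 0) ≤ w.countP (· ≠ 0) + 1 := by
  intro w
  induction w with
  | nil => intro s; cases s <;> simp [gen]
  | cons x w ih =>
    intro s
    cases s with
    | some i =>
      simp only [gen, List.countP_cons]
      split_ifs <;> omega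
    | none =>
      simp only [gen, List.countP_cons]
      cases h : sec x with
      | none => simp only; omega
      | some t => simp only; have := ih t; omega

theorem ev_count (ω : List I) (w : List X) :
    (ev ω w).countP (· ≠ 0) ≤ w.countP (· ≠ 0) + ω.length := by
  induction ω with
  | nil => simp [ev]
  | cons s ω ih =>
    rw [ev_cons, Equiv.Perm.mul_apply, g_apply, List.length_cons]
    have := gen_count (ev ω w) s
    omega

/-- Geodesic words of every length. -/
theorem geodesic (n : ℕ) : ∃ ω : List I, ω.length = n ∧
    ∀ i j, i < j → j ≤ n → ev (ω.drop i) ≠ ev (ω.drop j) := by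
  classical
  obtain ⟨ω0, h0⟩ := transitive (List.replicate n (e 0))
  have hex : ∃ m, ∃ ω : List I, ω.length = m ∧ ev ω = ev ω0 := ⟨_, ω0, rfl, rfl⟩
  obtain ⟨ω, hl, hω⟩ := Nat.find_spec hex
  have hmin : ∀ ω' : List I, ev ω' = ev ω0 → ω.length ≤ ω'.length := fun ω' h => by
    rw [hl]; exact Nat.find_min' hex ⟨ω', rfl, h⟩
  have hn : n ≤ ω.length := by
    have h1 := ev_count ω (List.replicate n 0)
    rw [List.length_replicate] at h0
    rw [hω, h0] at h1
    have he : e 0 ≠ 0 := by decide
    simpa [List.countP_replicate, he] using h1
  refine ⟨ω.drop (ω.length - n), by rw [List.length_drop]; omega, fun i j hij hj h => ?_⟩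
  rw [List.drop_drop, List.drop_drop] at h
  have h2 := hmin (ω.take (ω.length - n + i) ++ ω.drop (ω.length - n + j)) (by
    rw [ev_append, ← h, ← ev_append, List.take_append_drop, hω])
  rw [List.length_append, List.length_take, List.length_drop] at h2
  omega

end Pool.Agent.H320Z.Period
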