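import Pool.Agent.H320Z.Period1

set_option autoImplicit false

/-! The lamplighter over the self-similar group, as a permutation group with finite orbits. -/

namespace Pool.Agent.H320Z.Period

open Filter

abbrev Y : Type := List (List X)
abbrev Z : Type := Y × ZMod 2

noncomputable def enum : ℕ → List X := (exists_surjective_nat (List X)).choose

theorem enum_surj : Function.Surjective enum := (exists_surjective_nat (List X)).choose_spec

noncomputable def base (m : ℕ) : Y := (List.range m).map enum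

theorem base_length (m : ℕ) : (base m).length = m := by simp [base]

open Classical in
noncomputable def lamp (y : Y) : ZMod 2 := if y = base y.length then 1 else 0

theorem map_g_g (s : I) (y : Y) : (y.map (g s)).map (g s) = y := by
  rw [List.map_map]
  conv_rhs => rw [← List.map_id y]
  exact List.map_congr_left fun w _ => gen_invol w s

noncomputable def gam (k : I × ZMod 2) : Equiv.Perm Z where
  toFun z := (z.1.map (g k.1), z.2 + k.2 * lamp z.1)
  invFun z := (z.1.map (g k.1), z.2 - k.2 * lamp (z.1.map (g k.1)))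
  left_inv z := by simp only [map_g_g, add_sub_cancel_right]
  right_inv z := by simp only [map_g_g, sub_add_cancel]

theorem gam_apply (k : I × ZMod 2) (z : Z) :
    gam k z = (z.1.map (g k.1), z.2 + k.2 * lamp z.1) := rfl

theorem gam_inv_apply (k : I × ZMod 2) (z : Z) :
    (gam k)⁻¹ z = (z.1.map (g k.1), z.2 - k.2 * lamp (z.1.map (g k.1))) := rfl

/-- `u` covers the permutation `p` of the words. -/
def Form (u : Equiv.Perm Z) (p : Equiv.Perm (List X)) : Prop :=
  ∃ f : Y → ZMod 2, ∀ z : Z, u z = (z.1.map p, z.2 + f z.1)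

theorem form_one : Form 1 1 := ⟨0, fun z => by simp⟩

theorem Form.mul {u u' : Equiv.Perm Z} {p p' : Equiv.Perm (List X)} (h : Form u p)
    (h' : Form u' p') : Form (u * u') (p * p') := by
  obtain ⟨f, hf⟩ := h
  obtain ⟨f', hf'⟩ := h'
  refine ⟨fun y => f' y + f (y.map p'), fun z => ?_⟩
  rw [Equiv.Perm.mul_apply, hf', hf]
  simp [add_assoc]

theorem Form.pow {u : Equiv.Perm Z} {p : Equiv.Perm (List X)} (h : Form u p) (m : ℕ) :
    Form (u ^ m) (p ^ m) := by
  induction m with
  | zero => exact form_one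
  | succ m ih => rw [pow_succ, pow_succ]; exact ih.mul h

theorem Form.sq {u : Equiv.Perm Z} (h : Form u 1) : u * u = 1 := by
  obtain ⟨f, hf⟩ := h
  ext z : 1
  rw [Equiv.Perm.mul_apply, hf, hf]
  simp [add_assoc, CharTwo.add_self_eq_zero]

theorem form_gam (k : I × ZMod 2) : Form (gam k) (g k.1) := ⟨fun y => k.2 * lamp y, fun _ => rfl⟩

theorem form_gam_inv (k : I × ZMod 2) : Form (gam k)⁻¹ (g k.1) :=
  ⟨fun y => -(k.2 * lamp (y.map (g k.1))), fun z => by rw [gam_inv_apply, sub_eq_add_neg]⟩

/-- The group. -/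
noncomputable def W : Subgroup (Equiv.Perm Z) := Subgroup.closure (Set.range gam)

noncomputable def gw (k : I × ZMod 2) : W := ⟨gam k, Subgroup.subset_closure ⟨k, rfl⟩⟩

open Classical in
noncomputable def SS : Finset W := Finset.univ.image gw

theorem mem_SS {x : W} : x ∈ SS ↔ ∃ k, gw k = x := by simp [SS]

theorem closure_SS : Subgroup.closure (SS : Set W) = ⊤ := by
  have : (SS : Set W) = ((↑) : W → Equiv.Perm Z) ⁻¹' Set.range gam := by
    ext x
    rw [Finset.mem_coe, mem_SS]
    constructor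
    · rintro ⟨k, rfl⟩; exact ⟨k, rfl⟩
    · rintro ⟨k, hk⟩; exact ⟨k, Subtype.ext hk⟩
  rw [this]
  exact Subgroup.closure_closure_coe_preimage

theorem form_list (l : List W) (hl : ∀ x ∈ l, x ∈ SS ∨ x⁻¹ ∈ SS) :
    ∃ ω : List I, ω.length = l.length ∧ Form (l.prod : W) (ev ω) := by
  induction l with
  | nil => exact ⟨[], rfl, form_one⟩
  | cons x l ih =>
    obtain ⟨ω, h1, h2⟩ := ih fun y hy => hl y (List.mem_cons_of_mem _ hy)
    have : ∃ s, Form (x : Equiv.Perm Z) (g s) := by
      rcases hl x List.mem_cons_self with h | h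
      · obtain ⟨k, rfl⟩ := mem_SS.1 h
        exact ⟨k.1, form_gam k⟩
      · obtain ⟨k, hk⟩ := mem_SS.1 h
        have : x = (gw k)⁻¹ := by rw [hk, inv_inv]
        rw [this]
        exact ⟨k.1, form_gam_inv k⟩
    obtain ⟨s, hs⟩ := this
    refine ⟨s :: ω, by simp [h1], ?_⟩
    rw [List.prod_cons, ev_cons]
    exact hs.mul h2

theorem pow_eq_one_of (u : W) (ω : List I) (h : Form (u : Equiv.Perm Z) (ev ω)) (k : ℕ)
    (hk : ω.length ≤ 3 ^ k) : u ^ (2 ^ (k + 2)) = 1 := by
  have h1 := h.pow (2 ^ (k + 1))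
  rw [order_bound k ω hk] at h1
  apply Subtype.ext
  rw [pow_succ 2 (k + 1), pow_mul, pow_two]
  exact h1.sq

theorem exists_list (u : W) : ∃ l : List W, (∀ x ∈ l, x ∈ SS ∨ x⁻¹ ∈ SS) ∧ l.prod = u := by
  have hu : u ∈ Subgroup.closure (SS : Set W) := by rw [closure_SS]; trivial
  induction hu using Subgroup.closure_induction with
  | mem x hx => exact ⟨[x], by simpa using Or.inl hx, by simp⟩
  | one => exact ⟨[], by simp, rfl⟩
  | mul x y _ _ hx hy =>
    obtain ⟨l, h1, rfl⟩ := hx
    obtain ⟨l', h2, rfl⟩ := hy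
    refine ⟨l ++ l', fun z hz => ?_, List.prod_append⟩
    rcases List.mem_append.1 hz with h | h
    · exact h1 z h
    · exact h2 z h
  | inv x _ hx =>
    obtain ⟨l, h1, rfl⟩ := hx
    refine ⟨(l.map fun z => z⁻¹).reverse, fun z hz => ?_, (List.prod_inv_reverse l).symm⟩
    obtain ⟨w, hw, rfl⟩ := List.mem_map.1 (List.mem_reverse.1 hz)
    rw [inv_inv]
    exact (h1 w hw).symm

theorem exists_form (u : W) : ∃ ω : List I, Form (u : Equiv.Perm Z) (ev ω) := by
  obtain ⟨l, h1, rfl⟩ := exists_list u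
  obtain ⟨ω, -, h⟩ := form_list l h1
  exact ⟨ω, h⟩

theorem periodic (u : W) : IsOfFinOrder u := by
  obtain ⟨ω, h⟩ := exists_form u
  exact isOfFinOrder_iff_pow_eq_one.2 ⟨_, by positivity,
    pow_eq_one_of u ω h ω.length (Nat.lt_pow_self (by norm_num)).le⟩

theorem finite_shape (sh : List ℕ) : {y : Y | y.map List.length = sh}.Finite := by
  induction sh with
  | nil => exact (Set.finite_singleton []).subset fun y hy => by simpa using hy
  | cons k sh ih =>
    refine ((List.finite_length_eq X k).image2 List.cons ih).subset fun y hy => ?_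
    cases y with
    | nil => simp at hy
    | cons w y =>
      simp only [Set.mem_ofPred_eq, List.map_cons, List.cons.injEq] at hy
      exact Set.mem_image2_of_mem hy.1 hy.2

theorem finite_orbit (z : Z) : (MulAction.orbit W z).Finite := by
  refine ((finite_shape (z.1.map List.length)).prod Set.finite_univ).subset ?_
  rintro _ ⟨u, rfl⟩
  obtain ⟨ω, f, hf⟩ := exists_form u
  refine ⟨?_, trivial⟩
  change ((u : Equiv.Perm Z) z).1.map List.length = _
  rw [hf, List.map_map]
  exact List.map_congr_left fun w _ => ev_length ω w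

theorem res_finite (u : W) (hu : u ≠ 1) :
    ∃ N : Subgroup W, N.Normal ∧ N.index ≠ 0 ∧ u ∉ N := by
  have : ∃ z, (u : Equiv.Perm Z) z ≠ z := by
    by_contra h
    push Not at h
    exact hu (Subtype.ext (Equiv.ext h))
  obtain ⟨z, hz⟩ := this
  have hi : (MulAction.stabilizer W z).FiniteIndex := by
    refine ⟨?_⟩
    rw [MulAction.index_stabilizer]
    exact ((Set.ncard_pos (finite_orbit z)).2 ⟨z, MulAction.mem_orbit_self z⟩).ne'
  refine ⟨(MulAction.stabilizer W z).normalCore, inferInstance,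
    Subgroup.FiniteIndex.index_ne_zero, fun h => hz ?_⟩
  exact Subgroup.normalCore_le _ h

noncomputable def U (ω : List (I × ZMod 2)) : Equiv.Perm Z := (ω.map gam).prod

theorem U_cons (k : I × ZMod 2) (ω : List (I × ZMod 2)) : U (k :: ω) = gam k * U ω := by simp [U]

theorem U_fst (ω : List (I × ZMod 2)) (z : Z) : (U ω z).1 = z.1.map (ev (ω.map Prod.fst)) := by
  induction ω with
  | nil => simp [U, ev]
  | cons k ω ih =>
    rw [U_cons, Equiv.Perm.mul_apply, gam_apply, List.map_cons, ev_cons]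
    simp [ih]

theorem U_snd (ω : List (I × ZMod 2)) (z : Z)
    (h : ∀ j, 1 ≤ j → j ≤ ω.length → lamp (z.1.map (ev ((ω.map Prod.fst).drop j))) = 0) :
    (U ω z).2 = z.2 := by
  induction ω with
  | nil => simp [U]
  | cons k ω ih =>
    rw [U_cons, Equiv.Perm.mul_apply, gam_apply, U_fst, ih]
    · have := h 1 le_rfl (by simp)
      simp only [List.map_cons, List.drop_succ_cons, List.drop_zero] at this
      simp [this]
    · intro j h1 h2
      have := h (j + 1) (by omega) (by simp [h2])
      simpa using this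

theorem moves (p : Equiv.Perm (List X)) (hp : p ≠ 1) : ∀ᶠ m in atTop, (base m).map p ≠ base m := by
  have : ∃ w, p w ≠ w := by
    by_contra h
    push Not at h
    exact hp (Equiv.ext h)
  obtain ⟨w, hw⟩ := this
  obtain ⟨k, rfl⟩ := enum_surj w
  filter_upwards [eventually_gt_atTop k] with m hm h
  apply hw
  have := congrArg (fun l => l[k]?) h
  simpa [base, hm] using this

theorem U_inj (ω : List I) : (∀ i j, i < j → j ≤ ω.length → ev (ω.drop i) ≠ ev (ω.drop j)) →
    ∀ a b : List (ZMod 2), a.length = ω.length → b.length = ω.length →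
      U (ω.zip a) = U (ω.zip b) → a = b := by
  induction ω with
  | nil =>
    intro _ a b ha hb _
    rw [List.length_eq_zero_iff.1 ha, List.length_eq_zero_iff.1 hb]
  | cons s ω ih =>
    intro hd a b ha hb h
    match a, b, ha, hb with
    | x :: a, y :: b, ha, hb =>
      have ha' : a.length = ω.length := by simpa using ha
      have hb' : b.length = ω.length := by simpa using hb
      rw [List.zip_cons_cons, List.zip_cons_cons, U_cons, U_cons] at h
      have hev : ∀ᶠ m in atTop, ∀ j ∈ Finset.Icc 1 ω.length,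
          (base m).map (ev (ω.drop j) * (ev ω)⁻¹) ≠ base m := by
        refine (eventually_all_finset _).2 fun j hj => moves _ fun he => ?_
        rw [Finset.mem_Icc] at hj
        refine hd 1 (j + 1) (by omega) (by simp [hj.2]) ?_
        simp only [List.drop_succ_cons, List.drop_zero]
        exact (mul_inv_eq_one.1 he).symm
      obtain ⟨m, hm⟩ := hev.exists
      have key : ∀ c : List (ZMod 2), c.length = ω.length →
          U (ω.zip c) ((base m).map ((ev ω)⁻¹ : Equiv.Perm (List X)), 0) = (base m, 0) := by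
        intro c hc
        have hf : (ω.zip c).map Prod.fst = ω := List.map_fst_zip (by omega)
        refine Prod.ext ?_ ?_
        · rw [U_fst, hf]
          simp
        · refine U_snd _ _ fun j h1 h2 => ?_
          rw [hf]
          have h3 := hm j (Finset.mem_Icc.2 ⟨h1, by simpa [hc] using h2⟩)
          unfold lamp
          rw [if_neg]
          simp only [List.length_map, base_length, List.map_map]
          exact h3
      have h1 := congrArg (fun u : Equiv.Perm Z => (u ((base m).map ((ev ω)⁻¹ : Equiv.Perm (List X)), 0)).2) h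
      simp only [Equiv.Perm.mul_apply, key a ha', key b hb', gam_apply] at h1
      have hl : lamp (base m) = 1 := by unfold lamp; rw [if_pos (by rw [base_length])]
      rw [hl] at h1
      have hxy : x = y := by simpa using h1
      subst hxy
      rw [ih (fun i j hij hj => by
        have := hd (i + 1) (j + 1) (by omega) (by simp [hj])
        simpa using this) a b ha' hb' (mul_left_cancel h)]

theorem ball_finite (n : ℕ) : {u : W | ∃ l : List W, l.length ≤ n ∧
    (∀ x ∈ l, x ∈ SS ∨ x⁻¹ ∈ SS) ∧ l.prod = u}.Finite := by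
  have hT : {x : W | x ∈ SS ∨ x⁻¹ ∈ SS}.Finite :=
    SS.finite_toSet.union (SS.finite_toSet.preimage inv_injective.injOn)
  have := hT.to_subtype
  refine ((List.finite_length_le {x : W | x ∈ SS ∨ x⁻¹ ∈ SS} n).image
    fun l => (l.map Subtype.val).prod).subset ?_
  rintro _ ⟨l, h1, h2, rfl⟩
  refine ⟨l.pmap Subtype.mk h2, by simpa using h1, ?_⟩
  simp [List.map_pmap]

theorem growth (n : ℕ) : 2 ^ n ≤ {u : W | ∃ l : List W, l.length ≤ n ∧
    (∀ x ∈ l, x ∈ SS ∨ x⁻¹ ∈ SS) ∧ l.prod = u}.ncard := by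
  obtain ⟨ω, hl, hω⟩ := geodesic n
  let φ : (Fin n → ZMod 2) → W := fun a => ((ω.zip (List.ofFn a)).map gw).prod
  have hφ : ∀ a, (φ a : Equiv.Perm Z) = U (ω.zip (List.ofFn a)) := by
    intro a
    simp only [φ, U, SubmonoidClass.coe_list_prod, List.map_map]
    rfl
  have hinj : Function.Injective φ := by
    intro a b hab
    have := U_inj ω (by rw [hl]; exact hω) (List.ofFn a) (List.ofFn b) (by simp [hl])
      (by simp [hl]) (by rw [← hφ, ← hφ, hab])
    exact List.ofFn_injective this
  have h1 := Set.ncard_le_ncard_of_injOn (s := Set.univ) φ (fun a _ =>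
    (⟨(ω.zip (List.ofFn a)).map gw, by simp [hl], fun x hx => by
      obtain ⟨k, -, rfl⟩ := List.mem_map.1 hx
      exact Or.inl (mem_SS.2 ⟨k, rfl⟩), rfl⟩ : φ a ∈ {u : W | ∃ l : List W, l.length ≤ n ∧
    (∀ x ∈ l, x ∈ SS ∨ x⁻¹ ∈ SS) ∧ l.prod = u})) hinj.injOn (ball_finite n)
  rw [Set.ncard_univ] at h1
  simpa using h1

theorem infinite_W : Infinite W := by
  by_contra h
  have hfin : Finite W := not_infinite_iff_finite.1 h
  have h1 := growth (Nat.card W)
  have h2 := Set.ncard_le_card {u : W | ∃ l : List W, l.length ≤ Nat.card W ∧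
    (∀ x ∈ l, x ∈ SS ∨ x⁻¹ ∈ SS) ∧ l.prod = u}
  have h3 : Nat.card W < 2 ^ Nat.card W := Nat.lt_pow_self (by norm_num)
  omega

theorem sublinear (ε : ℝ) (hε : 0 < ε) : ∃ N : ℕ, ∀ n : ℕ, N ≤ n → ∀ u : W,
    (∃ l : List W, l.length ≤ n ∧ (∀ x ∈ l, x ∈ SS ∨ x⁻¹ ∈ SS) ∧ l.prod = u) →
    (orderOf u : ℝ) ≤ ε * n := by
  obtain ⟨K, hK⟩ := exists_pow_lt_of_lt_one (show 0 < ε / 8 by positivity)
    (show (2 / 3 : ℝ) < 1 by norm_num)
  refine ⟨3 ^ K, fun n hn u ⟨l, h1, h2, h3⟩ => ?_⟩
  have hn0 : n ≠ 0 := by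
    have : 0 < 3 ^ K := by positivity
    omega
  obtain ⟨ω, h4, h5⟩ := form_list l h2
  rw [h3] at h5
  set k := Nat.log 3 n with hk
  have hk1 : 3 ^ k ≤ n := Nat.pow_log_le_self 3 hn0
  have hk2 : n < 3 ^ (k + 1) := Nat.lt_pow_succ_log_self (by norm_num) n
  have hk3 : K ≤ k := Nat.le_log_of_pow_le (by norm_num) hn
  have h6 := pow_eq_one_of u ω h5 (k + 1) (by omega)
  have h7 : orderOf u ≤ 2 ^ (k + 1 + 2) := orderOf_le_of_pow_eq_one (by positivity) h6
  have h8 : (orderOf u : ℝ) ≤ 2 ^ (k + 1 + 2) := by exact_mod_cast h7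
  have h9 : (2 / 3 : ℝ) ^ k ≤ (2 / 3) ^ K := pow_le_pow_of_le_one (by norm_num) (by norm_num) hk3
  have h10 : (3 : ℝ) ^ k ≤ n := by exact_mod_cast hk1
  have h11 : (2 : ℝ) ^ (k + 1 + 2) = 8 * (2 / 3) ^ k * 3 ^ k := by
    rw [div_pow]; field_simp; ring
  calc (orderOf u : ℝ) ≤ 8 * (2 / 3) ^ k * 3 ^ k := by rw [← h11]; exact h8
    _ ≤ ε * 3 ^ k := by gcongr; linarith
    _ ≤ ε * n := by gcongr

end Pool.Agent.H320Z.Period
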