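import Mathlib

set_option autoImplicit false

/-! Definitions for the rainbow entropy-Turan density (problem MP_5f020a_co). -/

namespace Pool.Agent.H320Z.Rainbow

/-- The edges of the complete graph `K_n`. -/
abbrev EdgeK (n : ℕ) : Type := (⊤ : SimpleGraph (Fin n)).edgeSet

/-- An `l`-palette template on `K_n`: a nonempty set of colours on every edge of `K_n`. -/
def IsTemplate {n l : ℕ} (P : EdgeK n → Finset (Fin l)) : Prop := ∀ e, (P e).Nonempty

/-- `P` is `H`-SDR-free: for no copy of `H` in `K_n` can one pick pairwise distinct colours, one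
from the palette of each edge of the copy. -/
def SDRFree {V : Type} (H : SimpleGraph V) {n l : ℕ} (P : EdgeK n → Finset (Fin l)) : Prop :=
  ∀ φ : H.Copy (⊤ : SimpleGraph (Fin n)),
    ¬ ∃ c : H.edgeSet → Fin l, Function.Injective c ∧ ∀ e, c e ∈ P (φ.mapEdgeSet e)

/-- `ex_log(n; H, l)`: the largest value of the sum of `log |P(e)|` over the edges of `K_n`, among
the `H`-SDR-free `l`-palette templates `P` on `K_n`. -/
noncomputable def exLog {V : Type} (H : SimpleGraph V) (l n : ℕ) : ℝ :=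
  sSup {x : ℝ | ∃ P : EdgeK n → Finset (Fin l), IsTemplate P ∧ SDRFree H P ∧
    x = ∑ e : EdgeK n, Real.log (P e).card}

/-- `λ(H, l)`: the infimum over `n ≥ v(H)` of `ex_log(n; H, l) / (n choose 2)`. -/
noncomputable def lam {V : Type} (H : SimpleGraph V) (l : ℕ) : ℝ :=
  sInf {x : ℝ | ∃ n : ℕ, Nat.card V ≤ n ∧ x = exLog H l n / (n.choose 2 : ℝ)}

/-- `χ_j(H)`: the least chromatic number of `H - S` over the sets `S` of `j` edges of `H`. -/
noncomputable def chiDel {V : Type} (H : SimpleGraph V) (j : ℕ) : ℕ :=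
  sInf {k : ℕ | ∃ S : Set (Sym2 V), S ⊆ H.edgeSet ∧ S.ncard = j ∧
    (H.deleteEdges S).chromaticNumber = (k : ℕ∞)}

/-- `π_j(H) = 1 - 1 / (χ_j(H) - 1)` if `χ_j(H) ≥ 3`, and `0` otherwise. -/
noncomputable def piDel {V : Type} (H : SimpleGraph V) (j : ℕ) : ℝ :=
  if 3 ≤ chiDel H j then 1 - 1 / ((chiDel H j : ℝ) - 1) else 0

end Pool.Agent.H320Z.Rainbow
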