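import Pool.Agent.H320Z.RainbowDefs

set_option autoImplicit false

namespace Pool.Agent.H320Z.Rainbow

open SimpleGraph Finset

/-- One gadget: triangle 0,1,2; vertices 3..29 joined to 0,1; vertices 30..56 joined to 1,2. -/
def rel (i j : Fin 57) : Prop :=
  i.val < j.val ∧ (j.val < 3 ∨ (i.val ≤ 1 ∧ j.val < 30) ∨ (1 ≤ i.val ∧ i.val ≤ 2 ∧ 30 ≤ j.val))

instance (i j : Fin 57) : Decidable (rel i j) := by unfold rel; infer_instance

abbrev VH : Type := Fin 2 × Fin 57

def HH : SimpleGraph VH where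
  Adj a b := a.1 = b.1 ∧ (rel a.2 b.2 ∨ rel b.2 a.2)
  symm := ⟨fun a b h => ⟨h.1.symm, h.2.symm⟩⟩
  loopless := ⟨fun a h => by
    rcases h.2 with h | h <;> exact lt_irrefl _ h.1⟩

instance : DecidableRel HH.Adj := fun a b => by
  change Decidable (a.1 = b.1 ∧ (rel a.2 b.2 ∨ rel b.2 a.2)); infer_instance

theorem sum_deg : ∑ v : VH, (univ.filter fun w => HH.Adj v w).card = 444 := by
  decide +kernel

theorem card_edge : HH.edgeFinset.card = 222 := by
  have h := HH.sum_degrees_eq_twice_card_edges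
  have h2 : ∑ v : VH, HH.degree v = 444 := by
    rw [← sum_deg]
    refine Finset.sum_congr rfl fun v _ => ?_
    rw [← card_neighborFinset_eq_degree, neighborFinset_eq_filter]
  omega

theorem ncard_edge : HH.edgeSet.ncard = 222 := by
  rw [← card_edge, ← coe_edgeFinset, Set.ncard_coe_finset]

theorem no_isolated : ∀ v : VH, ∃ w, HH.Adj v w := by decide +kernel

theorem col3 : HH.Colorable 3 := by
  refine ⟨Coloring.mk (fun v => if v.2.val = 0 then 0 else if v.2.val = 1 then 1 else
    if v.2.val < 30 then 2 else 0) ?_⟩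
  have : ∀ a b : VH, HH.Adj a b → (if a.2.val = 0 then (0 : Fin 3) else if a.2.val = 1 then 1 else
    if a.2.val < 30 then 2 else 0) ≠ (if b.2.val = 0 then 0 else if b.2.val = 1 then 1 else
    if b.2.val < 30 then 2 else 0) := by decide +kernel
  exact fun {a b} h => this a b h

/-- The six triangle edges. -/
def tri : Finset (Sym2 VH) :=
  {s((0, 0), (0, 1)), s((0, 0), (0, 2)), s((0, 1), (0, 2)),
   s((1, 0), (1, 1)), s((1, 0), (1, 2)), s((1, 1), (1, 2))}

theorem tri_card : tri.card = 6 := by decide +kernel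

theorem tri_sub : tri ⊆ HH.edgeFinset := by
  intro e he
  simp only [tri, mem_insert, mem_singleton] at he
  rcases he with rfl | rfl | rfl | rfl | rfl | rfl <;>
    (rw [mem_edgeFinset, mem_edgeSet]; decide)

theorem col2 : (HH.deleteEdges (tri : Set (Sym2 VH))).Colorable 2 := by
  refine ⟨Coloring.mk (fun v => if v.2.val < 3 then 0 else 1) ?_⟩
  have : ∀ a b : VH, HH.Adj a b → s(a, b) ∉ tri → (if a.2.val < 3 then (0 : Fin 2) else 1) ≠
    (if b.2.val < 3 then 0 else 1) := by decide +kernel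
  intro a b h
  rw [deleteEdges_adj] at h
  exact this a b h.1 (by simpa using h.2)

theorem chi_le_of (j m : ℕ) (S : Finset (Sym2 VH)) (hS : S ⊆ HH.edgeFinset) (hj : S.card = j)
    (hc : (HH.deleteEdges (S : Set (Sym2 VH))).Colorable m) : chiDel HH j ≤ m := by
  have h1 : (HH.deleteEdges (S : Set (Sym2 VH))).chromaticNumber ≤ m := hc.chromaticNumber_le
  have h2 : (HH.deleteEdges (S : Set (Sym2 VH))).chromaticNumber ≠ ⊤ :=
    ne_top_of_le_ne_top (ENat.natCast_ne_top m) h1
  obtain ⟨k, hk⟩ := ENat.ne_top_iff_exists.mp h2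
  have h3 : k ≤ m := by
    rw [← hk] at h1; exact_mod_cast h1
  refine le_trans (Nat.sInf_le ⟨(S : Set (Sym2 VH)), ?_, ?_, hk.symm⟩) h3
  · rw [← coe_edgeFinset]; exact_mod_cast hS
  · rw [Set.ncard_coe_finset, hj]

theorem chi_le3 (j : ℕ) (hj : j ≤ 222) : chiDel HH j ≤ 3 := by
  obtain ⟨S, hS, hc⟩ := Finset.exists_subset_card_eq (s := HH.edgeFinset) (n := j)
    (by rw [card_edge]; exact hj)
  exact chi_le_of j 3 S hS hc (col3.mono_left (deleteEdges_le _))

theorem chi_le2 (j : ℕ) (hj6 : 6 ≤ j) (hj : j ≤ 222) : chiDel HH j ≤ 2 := by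
  obtain ⟨S, h1, h2, h3⟩ := Finset.exists_subsuperset_card_eq (n := j) tri_sub
    (by rw [tri_card]; exact hj6) (by rw [card_edge]; exact hj)
  refine chi_le_of j 2 S h2 h3 (col2.mono_left (deleteEdges_anti ?_))
  exact_mod_cast h1

theorem pi_cases (j : ℕ) (hj : j ≤ 222) :
    piDel HH j = 0 ∨ (j ≤ 5 ∧ piDel HH j = 1 / 2) := by
  unfold piDel
  by_cases h : 3 ≤ chiDel HH j
  · right
    have h3 := chi_le3 j hj
    have : chiDel HH j = 3 := by omega
    refine ⟨?_, ?_⟩
    · by_contra h5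
      have := chi_le2 j (by omega) hj
      omega
    · rw [if_pos h, this]; norm_num
  · left; rw [if_neg h]

abbrev AA : Type := ZMod 2 × ZMod 2

/-- The palette depending on the sum of the two classes. -/
def pal (d : AA) : Finset (Fin 9700) :=
  if d.1 ≠ 0 then univ else if d.2 ≠ 0 then univ.filter (fun c => c.val < 26)
  else univ.filter (fun c => c.val < 1)

theorem card_lt (m : ℕ) (hm : m ≤ 9700) :
    (univ.filter (fun c : Fin 9700 => c.val < m)).card = m := by
  rw [Fin.card_filter_val_lt]; omega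

theorem pal_nonempty (d : AA) : (pal d).Nonempty := by
  refine ⟨0, ?_⟩
  unfold pal
  split_ifs <;> simp

theorem sum_pal : ∑ d : AA, Real.log (pal d).card = 2 * Real.log 9700 + Real.log 26 := by
  rw [Fintype.sum_prod_type]
  have e : (univ : Finset (ZMod 2)) = {0, 1} := by decide
  simp only [e]
  rw [sum_pair (by decide), sum_pair (by decide), sum_pair (by decide)]
  have h10 : (1 : ZMod 2) ≠ 0 := by decide
  simp only [pal, ne_eq, not_true_eq_false, if_false, h10, not_false_eq_true, if_true,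
    card_lt 26 (by norm_num), card_lt 1 (by norm_num), card_univ, Fintype.card_fin]
  push_cast
  rw [Real.log_one]; ring

/-- The template attached to a four-class partition. -/
def tmpl {n : ℕ} (f : Fin n → AA) (e : EdgeK n) : Finset (Fin 9700) :=
  pal (Sym2.lift ⟨fun u v => f u + f v, fun _ _ => add_comm _ _⟩ e.1)

theorem pigeon (m : ℕ) (hm : m ≤ 9700) (c : HH.edgeSet → Fin 9700) (hc : Function.Injective c)
    (E : Fin (m + 1) → HH.edgeSet) (hE : Function.Injective E) (h : ∀ k, (c (E k)).val < m) :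
    False := by
  have := Finset.card_le_card_of_injOn (s := (univ : Finset (Fin (m + 1))))
    (t := univ.filter (fun c : Fin 9700 => c.val < m)) (fun k => c (E k))
    (fun k _ => by simpa using h k) (fun a _ b _ hab => hE (hc hab))
  rw [card_lt m hm] at this
  simp at this

theorem mem_pal_26 {d : AA} (hd : d.1 = 0) {c : Fin 9700} (hc : c ∈ pal d) : c.val < 26 := by
  unfold pal at hc
  rw [if_neg (by simpa using hd)] at hc
  split_ifs at hc
  · simpa using hc
  · have : c.val < 1 := by simpa using hc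
    omega

theorem mem_pal_1 {d : AA} (hd : d = 0) {c : Fin 9700} (hc : c ∈ pal d) : c.val < 1 := by
  subst hd
  unfold pal at hc
  simpa using hc

theorem book (s : VH → AA) (c : HH.edgeSet → Fin 9700) (hc : Function.Injective c)
    (hp : ∀ (a b : VH) (h : HH.Adj a b), c ⟨s(a, b), h⟩ ∈ pal (s a + s b))
    (x y : VH) (hxy : (s x).1 ≠ (s y).1) (w : Fin 27 → VH) (hw : Function.Injective w)
    (hx : ∀ k, HH.Adj (w k) x) (hy : ∀ k, HH.Adj (w k) y) (hwx : ∀ k, w k ≠ x)
    (hwy : ∀ k, w k ≠ y) : False := by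
  have key : ∀ p q r : ZMod 2, q ≠ r → p + q = 0 ∨ p + r = 0 := by decide
  have h1 : ∀ k, ∃ z : VH, (z = x ∨ z = y) ∧ ∃ h : HH.Adj (w k) z,
      (c ⟨s(w k, z), h⟩).val < 26 := by
    intro k
    rcases key (s (w k)).1 _ _ hxy with h | h
    · exact ⟨x, Or.inl rfl, hx k, mem_pal_26 (d := s (w k) + s x) h (hp _ _ _)⟩
    · exact ⟨y, Or.inr rfl, hy k, mem_pal_26 (d := s (w k) + s y) h (hp _ _ _)⟩
  choose z hz hadj hlt using h1
  refine pigeon 26 (by norm_num) c hc (fun k => ⟨s(w k, z k), hadj k⟩) ?_ hlt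
  intro a b hab
  have h2 : s(w a, z a) = s(w b, z b) := congrArg Subtype.val hab
  rw [Sym2.eq_iff] at h2
  rcases h2 with h2 | h2
  · exact hw h2.1
  · exfalso
    rcases hz b with h3 | h3
    · exact hwx a (h2.1.trans h3)
    · exact hwy a (h2.1.trans h3)

theorem tmpl_free {n : ℕ} (f : Fin n → AA) : SDRFree HH (tmpl f) := by
  rintro φ ⟨c, hc, hP⟩
  have hp : ∀ (a b : VH) (h : HH.Adj a b), c ⟨s(a, b), h⟩ ∈ pal (f (φ a) + f (φ b)) :=
    fun a b h => hP ⟨s(a, b), h⟩
  have h01 : ∀ g : Fin 2, (f (φ (g, 0))).1 = (f (φ (g, 1))).1 := by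
    intro g
    by_contra h
    refine book (fun v => f (φ v)) c hc hp (g, 0) (g, 1) h
      (fun k => (g, ⟨k.val + 3, by omega⟩)) ?_ ?_ ?_ ?_ ?_
    · intro a b hab
      have := congrArg (fun v : VH => v.2.val) hab
      exact Fin.ext (by simpa using this)
    · intro k; exact ⟨rfl, Or.inr (by unfold rel; simp; omega)⟩
    · intro k; exact ⟨rfl, Or.inr (by unfold rel; simp; omega)⟩
    · intro k hk
      have := congrArg (fun v : VH => v.2.val) hk
      simp at this
    · intro k hk
      have := congrArg (fun v : VH => v.2.val) hk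
      simp at this
  have h12 : ∀ g : Fin 2, (f (φ (g, 1))).1 = (f (φ (g, 2))).1 := by
    intro g
    by_contra h
    refine book (fun v => f (φ v)) c hc hp (g, 1) (g, 2) h
      (fun k => (g, ⟨k.val + 30, by omega⟩)) ?_ ?_ ?_ ?_ ?_
    · intro a b hab
      have := congrArg (fun v : VH => v.2.val) hab
      exact Fin.ext (by simpa using this)
    · intro k; exact ⟨rfl, Or.inr (by unfold rel; simp)⟩
    · intro k; exact ⟨rfl, Or.inr (by unfold rel; simp)⟩
    · intro k hk
      have := congrArg (fun v : VH => v.2.val) hk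
      simp at this
    · intro k hk
      have := congrArg (fun v : VH => v.2.val) hk
      simp at this
  have key : ∀ p q r : AA, p.1 = q.1 → q.1 = r.1 → p + q = 0 ∨ p + r = 0 ∨ q + r = 0 := by decide
  have h3 : ∀ g : Fin 2, ∃ (i j : Fin 57) (h : HH.Adj (g, i) (g, j)),
      (c ⟨s((g, i), (g, j)), h⟩).val < 1 := by
    intro g
    rcases key _ _ _ (h01 g) (h12 g) with h | h | h
    · exact ⟨0, 1, ⟨rfl, Or.inl (show rel 0 1 by decide)⟩, mem_pal_1 h (hp _ _ _)⟩
    · exact ⟨0, 2, ⟨rfl, Or.inl (show rel 0 2 by decide)⟩, mem_pal_1 h (hp _ _ _)⟩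
    · exact ⟨1, 2, ⟨rfl, Or.inl (show rel 1 2 by decide)⟩, mem_pal_1 h (hp _ _ _)⟩
  choose i j hadj hlt using h3
  refine pigeon 1 (by norm_num) c hc (fun g => ⟨s((g, i g), (g, j g)), hadj g⟩) ?_ hlt
  intro a b hab
  have h2 : s((a, i a), (a, j a)) = s((b, i b), (b, j b)) := congrArg Subtype.val hab
  rw [Sym2.eq_iff] at h2
  rcases h2 with h2 | h2 <;> exact congrArg Prod.fst h2.1

theorem avg_edge {n : ℕ} (e : EdgeK n) :
    4 * ∑ f : Fin n → AA, Real.log (tmpl f e).card =
      ∑ _f : Fin n → AA, (2 * Real.log 9700 + Real.log 26) := by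
  obtain ⟨e, he⟩ := e
  induction e using Sym2.ind with
  | _ u v =>
    have huv : u ≠ v := by simpa using he
    have h1 : ∀ t : AA, ∑ f : Fin n → AA, Real.log (tmpl f ⟨s(u, v), he⟩).card =
        ∑ f : Fin n → AA, Real.log (pal (f u + f v + t)).card := by
      intro t
      rw [← Equiv.sum_comp (Equiv.addRight (Pi.single u t))]
      refine Finset.sum_congr rfl fun f _ => ?_
      have : tmpl (Equiv.addRight (Pi.single u t) f) ⟨s(u, v), he⟩ = pal (f u + f v + t) := by
        unfold tmpl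
        simp [Pi.single_eq_of_ne huv.symm, add_right_comm]
      rw [this]
    have h2 : ∑ _t : AA, ∑ f : Fin n → AA, Real.log (tmpl f ⟨s(u, v), he⟩).card =
        ∑ t : AA, ∑ f : Fin n → AA, Real.log (pal (f u + f v + t)).card :=
      Finset.sum_congr rfl fun t _ => h1 t
    rw [Finset.sum_comm (s := (univ : Finset AA)) (t := (univ : Finset (Fin n → AA)))
      (f := fun t f => Real.log (pal (f u + f v + t)).card)] at h2
    have h3 : ∀ f : Fin n → AA, ∑ t : AA, Real.log (pal (f u + f v + t)).card =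
        2 * Real.log 9700 + Real.log 26 := by
      intro f
      rw [← sum_pal]
      exact Equiv.sum_comp (Equiv.addLeft (f u + f v)) (fun d => Real.log (pal d).card)
    simp only [h3] at h2
    rw [← h2, sum_const, card_univ]
    simp

theorem exists_good (n : ℕ) : ∃ f : Fin n → AA,
    (n.choose 2 : ℝ) * ((2 * Real.log 9700 + Real.log 26) / 4) ≤
      ∑ e : EdgeK n, Real.log (tmpl f e).card := by
  have hcard : Fintype.card (EdgeK n) = n.choose 2 := by
    have := SimpleGraph.card_edgeFinset_top_eq_card_choose_two (V := Fin n)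
    rw [SimpleGraph.edgeFinset_card, Fintype.card_fin] at this
    convert this
  have h : ∑ _f : Fin n → AA, (n.choose 2 : ℝ) * ((2 * Real.log 9700 + Real.log 26) / 4) ≤
      ∑ f : Fin n → AA, ∑ e : EdgeK n, Real.log (tmpl f e).card := by
    rw [Finset.sum_comm]
    have : ∀ e : EdgeK n, ∑ f : Fin n → AA, Real.log (tmpl f e).card =
        ∑ _f : Fin n → AA, ((2 * Real.log 9700 + Real.log 26) / 4) := by
      intro e
      have := avg_edge e
      rw [← Finset.sum_div]; linarith
    simp only [this]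
    rw [sum_const, sum_const, sum_const, card_univ, card_univ, hcard]
    simp only [nsmul_eq_mul]
    apply le_of_eq; ring
  obtain ⟨f, _, hf⟩ := Finset.exists_le_of_sum_le univ_nonempty h
  exact ⟨f, hf⟩

theorem exLog_ge (n : ℕ) :
    (n.choose 2 : ℝ) * ((2 * Real.log 9700 + Real.log 26) / 4) ≤ exLog HH 9700 n := by
  obtain ⟨f, hf⟩ := exists_good n
  refine hf.trans (le_csSup ?_ ⟨tmpl f, fun e => pal_nonempty _, tmpl_free f, rfl⟩)
  apply Set.Finite.bddAbove
  refine (Set.finite_range (fun P : EdgeK n → Finset (Fin 9700) =>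
    ∑ e : EdgeK n, Real.log (P e).card)).subset ?_
  rintro x ⟨P, -, -, rfl⟩
  exact ⟨P, rfl⟩

theorem lam_ge : (2 * Real.log 9700 + Real.log 26) / 4 ≤ lam HH 9700 := by
  refine le_csInf ⟨_, Nat.card VH, le_rfl, rfl⟩ ?_
  rintro x ⟨n, hn, rfl⟩
  have hn2 : 2 ≤ n := by
    have : Nat.card VH = 114 := by simp
    omega
  have hpos : (0 : ℝ) < n.choose 2 := by exact_mod_cast Nat.choose_pos hn2
  rw [le_div_iff₀ hpos, mul_comm]
  exact exLog_ge n

theorem log_lt : Real.log 221 < (2 * Real.log 9700 + Real.log 26) / 4 := by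
  have h1 : Real.log ((221 : ℝ) ^ 4) < Real.log (9700 ^ 2 * 26) :=
    Real.log_lt_log (by positivity) (by norm_num)
  rw [Real.log_mul (by positivity) (by positivity), Real.log_pow, Real.log_pow] at h1
  push_cast at h1
  linarith

theorem cond (j : ℕ) (h1 : 1 ≤ j) (hj : j ≤ 221) :
    (9700 : ℝ) ^ piDel HH j * (j : ℝ) ^ (1 - piDel HH j) ≤ 221 := by
  rcases pi_cases j (by omega) with h | ⟨h5, h⟩
  · rw [h]; simp; exact_mod_cast hj
  · rw [h, show (1 : ℝ) - 1 / 2 = 1 / 2 by norm_num,
      ← Real.mul_rpow (by norm_num) (by positivity), ← Real.sqrt_eq_rpow]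
    apply Real.sqrt_le_iff.mpr
    have : (j : ℝ) ≤ 5 := by exact_mod_cast h5
    constructor
    · norm_num
    · nlinarith

theorem main : ∃ (V : Type) (_ : Finite V) (H : SimpleGraph V) (l : ℕ),
    (∀ v, ∃ w, H.Adj v w) ∧ 3 ≤ H.edgeSet.ncard ∧
    (∃ u v w, H.Adj u v ∧ H.Adj u w ∧ v ≠ w) ∧ H.edgeSet.ncard ≤ l ∧
    (∀ j : ℕ, 1 ≤ j → j ≤ H.edgeSet.ncard - 1 →
      (l : ℝ) ^ piDel H j * (j : ℝ) ^ (1 - piDel H j) ≤ (H.edgeSet.ncard : ℝ) - 1) ∧
    Real.log ((H.edgeSet.ncard : ℝ) - 1) < lam H l ∧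
    (∀ j : ℕ, 1 ≤ j → j ≤ H.edgeSet.ncard - 1 →
      piDel H j * Real.log l + (1 - piDel H j) * Real.log j < lam H l) := by
  have hl : Real.log 221 < lam HH 9700 := lt_of_lt_of_le log_lt lam_ge
  refine ⟨VH, inferInstance, HH, 9700, no_isolated, by rw [ncard_edge]; norm_num,
    ⟨(0, 0), (0, 1), (0, 2), by decide, by decide, by decide⟩, by rw [ncard_edge]; norm_num,
    ?_, ?_, ?_⟩
  · intro j h1 hj
    rw [ncard_edge] at hj ⊢
    have := cond j h1 hj
    push_cast
    linarith
  · rw [ncard_edge]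
    push_cast
    norm_num
    exact hl
  · intro j h1 hj
    rw [ncard_edge] at hj
    have h := cond j h1 hj
    have hj0 : (0 : ℝ) < j := by exact_mod_cast h1
    have h2 := Real.log_le_log (by positivity) h
    rw [Real.log_mul (by positivity) (by positivity), Real.log_rpow (by norm_num),
      Real.log_rpow hj0] at h2
    push_cast
    linarith

end Pool.Agent.H320Z.Rainbow
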