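import Pool.Agent.H320Z.SigSound

set_option autoImplicit false

/-! Completeness of the reduction. -/

namespace Pool.Agent.H320Z.Sig

open Pool.Agent.NPC

abbrev QQ : Type := ℚ × ℚ

def Acc (p : QQ) : Prop := 3 / 2 ≤ 1 / (1 + p.1) + 1 / (1 + p.2)

instance (p : QQ) : Decidable (Acc p) := by unfold Acc; infer_instance

def Pos (p : QQ) : Prop := 0 < p.1 ∧ 0 < p.2

instance (p : QQ) : Decidable (Pos p) := by unfold Pos; infer_instance

theorem Pos.mul {p q : QQ} (hp : Pos p) (hq : Pos q) : Pos (p * q) :=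
  ⟨mul_pos hp.1 hq.1, mul_pos hp.2 hq.2⟩

theorem Pos.div {p q : QQ} (hp : Pos p) (hq : Pos q) : Pos (p / q) :=
  ⟨div_pos hp.1 hq.1, div_pos hp.2 hq.2⟩

theorem Pos.mul_div {q : QQ} (hq : Pos q) (c : QQ) : q * (c / q) = c :=
  Prod.ext (mul_div_cancel₀ c.1 hq.1.ne') (mul_div_cancel₀ c.2 hq.2.ne')

noncomputable def lg (p : QQ) : ℝ × ℝ := (-Real.log p.1, -Real.log p.2)

theorem lg_mul {p q : QQ} (hp : Pos p) (hq : Pos q) : lg (p * q) = lg p + lg q := by
  have h1 : (p.1 : ℝ) ≠ 0 := by exact_mod_cast hp.1.ne'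
  have h2 : (p.2 : ℝ) ≠ 0 := by exact_mod_cast hp.2.ne'
  have h3 : (q.1 : ℝ) ≠ 0 := by exact_mod_cast hq.1.ne'
  have h4 : (q.2 : ℝ) ≠ 0 := by exact_mod_cast hq.2.ne'
  simp only [lg, Prod.fst_mul, Prod.snd_mul, Rat.cast_mul, Real.log_mul h1 h3, Real.log_mul h2 h4,
    Prod.mk_add_mk, neg_add]

theorem KK_lg {p : QQ} (hp : Pos p) : KK (-3 / 2) 1 1 (lg p) ↔ Acc p := by
  have h1 : (0 : ℝ) < p.1 := by exact_mod_cast hp.1
  have h2 : (0 : ℝ) < p.2 := by exact_mod_cast hp.2
  unfold KK sigm lg Acc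
  simp only [neg_neg, Real.exp_log h1, Real.exp_log h2]
  rw [← Rat.cast_le (K := ℝ)]
  push_cast
  constructor <;> intro h <;> linarith

theorem prod_pos {M : Co → QQ} (hM : ∀ v, Pos (M v)) (S : List Co) : Pos (S.map M).prod := by
  induction S with
  | nil => exact ⟨one_pos, one_pos⟩
  | cons a S ih => rw [List.map_cons, List.prod_cons]; exact (hM a).mul ih

theorem lg_prod {M : Co → QQ} (hM : ∀ v, Pos (M v)) (S : List Co) :
    lg (S.map M).prod = (S.map fun v => lg (M v)).sum := by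
  induction S with
  | nil => simp [lg]
  | cons a S ih =>
    rw [List.map_cons, List.prod_cons, lg_mul (hM a) (prod_pos hM S), ih, List.map_cons,
      List.sum_cons]

def cO : QQ := (33337 / 100000, 33326 / 100000)
def cT : QQ := (89898 / 100000, 110700 / 100000)
def cF : QQ := (102707 / 100000, 97361 / 100000)
def cZ : QQ := (112896 / 100000, 87943 / 100000)
def cR : QQ := (179573 / 100000, 14773 / 100000)
def cR' : QQ := (14773 / 100000, 179573 / 100000)
def cC : QQ := (49246 / 100000, 21418 / 100000)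
def cC' : QQ := (21418 / 100000, 49246 / 100000)

/-- The label of a set is correct, multiplicative form. -/
def MLab (M : Co → QQ) (p : Pt) : Prop := p.2 = true ↔ Acc (cO * (p.1.map M).prod)

theorem aload_of_mlab {P : List Pt} {M : Co → QQ} (hM : ∀ v, Pos (M v))
    (h : ∀ p ∈ P, MLab M p) : ALoad P := by
  have hO : Pos cO := by decide +kernel
  refine ⟨fun v => lg (M v), lg cO, -3 / 2, 1, 1, fun p hp => ?_⟩
  rw [← lg_prod hM, ← lg_mul hO (prod_pos hM _), KK_lg (hO.mul (prod_pos hM _))]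
  exact h p hp

def EOK (X Y : QQ) : Prop :=
  ¬ Acc (cO * (X * X)) ∧ ¬ Acc (cO * (Y * Y)) ∧ Acc (cO * (X * Y)) ∧
    Acc (cO * (X * (X * (Y * Y))))

instance (X Y : QQ) : Decidable (EOK X Y) := by unfold EOK; infer_instance

theorem edge_compl {M : Co → QQ} {x y : Co} {X Y : QQ} (hx : ∀ a, a < 5 → M (fam x a) = X)
    (hy : ∀ a, a < 5 → M (fam y a) = Y) (h : EOK X Y) : ∀ p ∈ edgePts x y, MLab M p := by
  rw [forall_edge]
  refine ⟨fun a b k1 k2 => ?_, fun a b k1 k2 => ?_, fun a b k1 k2 => ?_,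
    fun a b c d k1 k2 k3 k4 => ?_⟩
  · simpa [MLab, hx a (by omega), hx b k2] using h.1
  · simpa [MLab, hy a (by omega), hy b k2] using h.2.1
  · simpa [MLab, hx a k1, hy b k2] using h.2.2.1
  · simpa [MLab, hx a (by omega), hx b k2, hy c (by omega), hy d k4] using h.2.2.2

theorem chord_compl {M : Co → QQ} {Q : List Co} {x y : Co} {C Y : QQ}
    (hq : Pos (cO * (Q.map M).prod)) (hx : ∀ a, a < 5 → M (fam x a) = C / (cO * (Q.map M).prod))
    (hy : ∀ a, a < 5 → M (fam y a) = Y) (h1 : ¬ Acc C) (h2 : Acc (C * Y))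
    (h3 : ¬ Acc (C * (Y * Y))) : ∀ p ∈ chordPts Q x y, MLab M p := by
  have e := hq.mul_div C
  rw [forall_chord]
  refine ⟨fun a k1 => ?_, fun a b k1 k2 => ?_, fun a b c k1 k2 k3 => ?_⟩
  · simp only [MLab, List.map_cons, List.prod_cons, hx a k1, Bool.false_eq_true, false_iff]
    generalize C / (cO * (Q.map M).prod) = D at e
    rw [← e] at h1
    convert h1 using 2
    ac_rfl
  · simp only [MLab, List.map_cons, List.prod_cons, hx a k1, hy b k2, true_iff]
    generalize C / (cO * (Q.map M).prod) = D at e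
    rw [← e] at h2
    convert h2 using 1
    ac_rfl
  · simp only [MLab, List.map_cons, List.prod_cons, hx a k1, hy b (by omega), hy c k3,
      Bool.false_eq_true, false_iff]
    generalize C / (cO * (Q.map M).prod) = D at e
    rw [← e] at h3
    convert h3 using 2
    ac_rfl

def QOK (q : QQ) : Prop := Pos q ∧ Acc q ∧ EOK (cC / q) cR' ∧ EOK (cC' / q) cR

instance (q : QQ) : Decidable (QOK q) := by unfold QOK; infer_instance

theorem cert_compl {M : Co → QQ} {Q : List Co} {x : Co} {q : QQ} (hq : QOK q)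
    (e : cO * (Q.map M).prod = q)
    (h1 : ∀ a, a < 5 → M (fam x a) = cC / q)
    (h2 : ∀ a, a < 5 → M (fam (x.1, x.2 + 5) a) = cC' / q)
    (h3 : ∀ a, a < 5 → M (fam (0, 23) a) = cR) (h4 : ∀ a, a < 5 → M (fam (0, 28) a) = cR') :
    ∀ p ∈ certPts Q x, MLab M p := by
  subst e
  simp only [certPts, List.forall_mem_append]
  exact ⟨edge_compl h3 h4 (by decide +kernel), edge_compl h1 h4 hq.2.2.1,
    edge_compl h2 h3 hq.2.2.2,
    chord_compl hq.1 h1 h3 (by decide +kernel) (by decide +kernel) (by decide +kernel),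
    chord_compl hq.1 h2 h4 (by decide +kernel) (by decide +kernel) (by decide +kernel)⟩

def tf (b : Bool) : QQ := bif b then cT else cF

def q3 (b₁ b₂ b₃ : Bool) : QQ := cO * (tf b₁ * (tf b₂ * (tf b₃ * cZ)))

theorem q3_ok : ∀ b₁ b₂ b₃ : Bool, (b₁ = true ∨ b₂ = true ∨ b₃ = true) → QOK (q3 b₁ b₂ b₃) := by
  decide +kernel

theorem q3_pos : ∀ b₁ b₂ b₃ : Bool, Pos (q3 b₁ b₂ b₃) := by decide +kernel

theorem tf_pos : ∀ b : Bool, Pos (tf b) := by decide +kernel

theorem tf_rej : ∀ b : Bool, ¬ Acc (cO * tf b) := by decide +kernel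

def qc (τ : ℕ → Bool) (φ : List Cl) (i : ℕ) : QQ :=
  match φ[i]? with
  | some c => q3 (τ c.1.2 == c.1.1) (τ c.2.1.2 == c.2.1.1) (τ c.2.2.2 == c.2.2.1)
  | none => cO

theorem qc_pos (τ : ℕ → Bool) (φ : List Cl) (i : ℕ) : Pos (qc τ φ i) := by
  unfold qc
  split
  · exact q3_pos _ _ _
  · decide +kernel

def MM (τ : ℕ → Bool) (φ : List Cl) (v : Co) : QQ :=
  if v.2 = 0 then tf (τ v.1) else if v.2 = 1 then tf (!τ v.1)
  else if v.2 < 7 then cC / (cO * (cT * cF)) else if v.2 < 12 then cC' / (cO * (cT * cF))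
  else if v.2 < 17 then cC / qc τ φ v.1 else if v.2 < 22 then cC' / qc τ φ v.1
  else if v.2 = 22 then cZ else if v.2 < 28 then cR else if v.2 < 33 then cR'
  else if v.2 < 38 then cC / cO else cC' / cO

theorem MM_pos (τ : ℕ → Bool) (φ : List Cl) (v : Co) : Pos (MM τ φ v) := by
  have h1 : Pos cC := by decide +kernel
  have h2 : Pos cC' := by decide +kernel
  unfold MM
  split_ifs
  · exact tf_pos _
  · exact tf_pos _
  · decide +kernel
  · decide +kernel
  · exact h1.div (qc_pos _ _ _)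
  · exact h2.div (qc_pos _ _ _)
  all_goals decide +kernel

theorem MM_lc (τ : ℕ → Bool) (φ : List Cl) (l : Lit ℕ) : MM τ φ (lc l) = tf (τ l.2 == l.1) := by
  obtain ⟨b, x⟩ := l
  cases b <;> simp [MM, lc]

theorem complete {φ : List Cl} (h : SAT3 φ) : ALoad (pts φ) := by
  obtain ⟨τ, hτ⟩ := h
  refine aload_of_mlab (MM_pos τ φ) ?_
  have h3 : ∀ a, a < 5 → MM τ φ (fam (0, 23) a) = cR := by
    intro a ha
    interval_cases a <;> rfl
  have h4 : ∀ a, a < 5 → MM τ φ (fam (0, 28) a) = cR' := by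
    intro a ha
    interval_cases a <;> rfl
  have hz : MM τ φ (0, 22) = cZ := rfl
  rw [forall_pts]
  refine ⟨?_, ?_, ?_, fun i _ => ?_, fun c i hc => ?_⟩
  · simp only [MLab, List.map_nil, List.prod_nil, mul_one, true_iff]
    decide +kernel
  · simp only [MLab, List.map_cons, List.prod_cons, List.map_nil, List.prod_nil, mul_one, hz,
      Bool.false_eq_true, false_iff]
    decide +kernel
  · refine cert_compl (q := cO) (by decide +kernel) (by simp) ?_ ?_ h3 h4 <;>
    · intro a ha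
      interval_cases a <;> rfl
  · have e0 : MM τ φ (i, 0) = tf (τ i) := rfl
    have e1 : MM τ φ (i, 1) = tf (!τ i) := rfl
    have e : cO * ([(i, 0), (i, 1)].map (MM τ φ)).prod = cO * (cT * cF) := by
      simp only [List.map_cons, List.prod_cons, List.map_nil, List.prod_nil, mul_one, e0, e1]
      cases τ i
      · exact congrArg _ (mul_comm _ _)
      · rfl
    have hq : QOK (cO * (cT * cF)) := by decide +kernel
    refine ⟨?_, ?_, ?_, cert_compl hq e ?_ ?_ h3 h4⟩
    · simpa [MLab, e0] using tf_rej _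
    · simpa [MLab, e1] using tf_rej _
    · simp only [MLab, e, true_iff]
      exact hq.2.1
    · intro a ha
      interval_cases a <;> rfl
    · intro a ha
      interval_cases a <;> rfl
  · have hm : c ∈ φ := List.mem_of_getElem? hc
    have e' : qc τ φ i = q3 (τ c.1.2 == c.1.1) (τ c.2.1.2 == c.2.1.1) (τ c.2.2.2 == c.2.2.1) := by
      simp only [qc, hc]
    have e : cO * ((clSet c).map (MM τ φ)).prod = qc τ φ i := by
      simp only [clSet, List.map_cons, List.prod_cons, List.map_nil, List.prod_nil, mul_one, hz,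
        MM_lc, e', q3]
    have hq : QOK (qc τ φ i) := by
      rw [e']
      exact q3_ok _ _ _ (by simpa using hτ c hm)
    refine ⟨?_, cert_compl hq e ?_ ?_ h3 h4⟩
    · simp only [MLab, e, true_iff]
      exact hq.2.1
    · intro a ha
      interval_cases a <;> rfl
    · intro a ha
      interval_cases a <;> rfl

theorem hardPr_load :
    HardPr (fun I : Inst => WellFormed I ∧ I.2.length ≤ 24 * I.1) Loadable :=
  hardPr_SAT3b.trans poly_red (fun φ h => ⟨red_wf φ, red_size φ h.2.2⟩) fun _ h =>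
    ⟨fun hs => (red_iff h.1 h.2.1 h.2.2).2 (complete hs),
      fun hl => sound h.2.1 ((red_iff h.1 h.2.1 h.2.2).1 hl)⟩

end Pool.Agent.H320Z.Sig
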