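import Pool.Agent.NPC.Defs

set_option autoImplicit false

/-! The loading problem for the three-node sigmoid network (problem MP_fae5c8_lc). -/

namespace Pool.Agent.H320Z.Sig

/-- The standard sigmoid. -/
noncomputable def sigm (z : ℝ) : ℝ := 1 / (1 + Real.exp (-z))

/-- An instance: the input dimension `k` and a list of labelled Boolean points. -/
abbrev Inst : Type := ℕ × List (List Bool × Bool)

/-- All points have exactly `k` coordinates. -/
def WellFormed (I : Inst) : Prop := ∀ p ∈ I.2, p.1.length = I.1

/-- The scalar product of a weight vector with a point of `{0,1}^k`. -/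
noncomputable def dot {k : ℕ} (w : Fin k → ℝ) (x : List Bool) : ℝ :=
  ∑ i : Fin k, w i * (if x.getD i false then 1 else 0)

/-- Some choice of real parameters makes the network with two standard-sigmoid hidden nodes and a
Heaviside output node give every point its label. -/
def Loadable (I : Inst) : Prop :=
  ∃ (w₁ w₂ : Fin I.1 → ℝ) (b₁ b₂ a₀ a₁ a₂ : ℝ), ∀ p ∈ I.2,
    (p.2 = true ↔ 0 ≤ a₁ * sigm (dot w₁ p.1 + b₁) + a₂ * sigm (dot w₂ p.1 + b₂) + a₀)

end Pool.Agent.H320Z.Sig
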