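import Pool.Agent.H320Z.SigXor

set_option autoImplicit false

/-! Soundness of the gadgets. -/

namespace Pool.Agent.H320Z.Sig

variable {K : ℝ × ℝ → Prop} {J : Set ℝ}

/-- The labels of an edge gadget between two families of five vectors. -/
def EdgeOK (K : ℝ × ℝ → Prop) (o : ℝ × ℝ) (x y : ℕ → ℝ × ℝ) : Prop :=
  (∀ a b, a < b → b < 5 → ¬ K (o + (x a + x b))) ∧ (∀ a b, a < b → b < 5 → ¬ K (o + (y a + y b))) ∧
  (∀ a c, a < 5 → c < 5 → K (o + (x a + y c))) ∧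
  (∀ a b c d, a < b → b < 5 → c < d → d < 5 → K (o + (x a + x b + y c + y d)))

/-- Three members of the family have first coordinate of sign `e`. -/
def Maj (e : ℝ) (x : ℕ → ℝ × ℝ) : Prop :=
  ∃ a b c, a < b ∧ b < c ∧ c < 5 ∧ 0 ≤ e * (x a).1 ∧ 0 ≤ e * (x b).1 ∧ 0 ≤ e * (x c).1

theorem maj_or (x : ℕ → ℝ × ℝ) : Maj 1 x ∨ Maj (-1) x := by
  have h : ∀ i, 0 ≤ 1 * (x i).1 ∨ 0 ≤ -1 * (x i).1 := fun i => by
    rcases le_total 0 (x i).1 with h | h
    · left; linarith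
    · right; linarith
  unfold Maj
  rcases h 0 with h0 | h0 <;> rcases h 1 with h1 | h1 <;> rcases h 2 with h2 | h2 <;>
    rcases h 3 with h3 | h3 <;> rcases h 4 with h4 | h4 <;>
    first
    | exact Or.inl ⟨0, 1, 2, by omega, by omega, by omega, h0, h1, h2⟩
    | exact Or.inl ⟨0, 1, 3, by omega, by omega, by omega, h0, h1, h3⟩
    | exact Or.inl ⟨0, 1, 4, by omega, by omega, by omega, h0, h1, h4⟩
    | exact Or.inl ⟨0, 2, 3, by omega, by omega, by omega, h0, h2, h3⟩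
    | exact Or.inl ⟨0, 2, 4, by omega, by omega, by omega, h0, h2, h4⟩
    | exact Or.inl ⟨0, 3, 4, by omega, by omega, by omega, h0, h3, h4⟩
    | exact Or.inl ⟨1, 2, 3, by omega, by omega, by omega, h1, h2, h3⟩
    | exact Or.inl ⟨1, 2, 4, by omega, by omega, by omega, h1, h2, h4⟩
    | exact Or.inl ⟨1, 3, 4, by omega, by omega, by omega, h1, h3, h4⟩
    | exact Or.inl ⟨2, 3, 4, by omega, by omega, by omega, h2, h3, h4⟩
    | exact Or.inr ⟨0, 1, 2, by omega, by omega, by omega, h0, h1, h2⟩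
    | exact Or.inr ⟨0, 1, 3, by omega, by omega, by omega, h0, h1, h3⟩
    | exact Or.inr ⟨0, 1, 4, by omega, by omega, by omega, h0, h1, h4⟩
    | exact Or.inr ⟨0, 2, 3, by omega, by omega, by omega, h0, h2, h3⟩
    | exact Or.inr ⟨0, 2, 4, by omega, by omega, by omega, h0, h2, h4⟩
    | exact Or.inr ⟨0, 3, 4, by omega, by omega, by omega, h0, h3, h4⟩
    | exact Or.inr ⟨1, 2, 3, by omega, by omega, by omega, h1, h2, h3⟩
    | exact Or.inr ⟨1, 2, 4, by omega, by omega, by omega, h1, h2, h4⟩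
    | exact Or.inr ⟨1, 3, 4, by omega, by omega, by omega, h1, h3, h4⟩
    | exact Or.inr ⟨2, 3, 4, by omega, by omega, by omega, h2, h3, h4⟩

theorem abs_sub_le_of_sign {e X Y : ℝ} (he : e = 1 ∨ e = -1) (hX : 0 ≤ e * X) (hY : 0 ≤ e * Y) :
    |X - Y| ≤ |X + Y| := by
  rw [← sq_le_sq]
  rcases he with rfl | rfl <;> nlinarith [mul_nonneg hX hY]

theorem pair_lemma (hX : XorProp K J) {e : ℝ} (he : e = 1 ∨ e = -1) {o xa xb yc yd : ℝ × ℝ}
    (h0 : K o) (hx : ¬ K (o + (xa + xb))) (hy : ¬ K (o + (yc + yd)))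
    (h1 : K (o + (xa + yc))) (h2 : K (o + (xb + yd))) (h4 : K (o + (xa + xb + yc + yd)))
    (s1 : 0 ≤ e * xa.1) (s2 : 0 ≤ e * xb.1) (s3 : 0 ≤ e * yc.1) (s4 : 0 ≤ e * yd.1) :
    0 < (yc.1 - xb.1) * (xa.1 - yd.1) := by
  have k1 := hX.2 _ _ _ _ h0 h4 hx hy (by abel)
  have k2 := hX.2 _ _ _ _ h1 h2 hx hy (by abel)
  simp only [Prod.fst_add] at k1 k2
  have hn : o.1 + (o.1 + (xa.1 + xb.1 + yc.1 + yd.1)) ∉ J := by
    intro hJ
    have := k1.1 hJ
    have h5 := abs_sub_le_of_sign he (X := xa.1 + xb.1) (Y := yc.1 + yd.1) (by linarith)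
      (by linarith)
    rw [show o.1 - (o.1 + (xa.1 + xb.1 + yc.1 + yd.1)) = -(xa.1 + xb.1 + (yc.1 + yd.1)) by ring,
      abs_neg, show o.1 + (xa.1 + xb.1) - (o.1 + (yc.1 + yd.1)) = xa.1 + xb.1 - (yc.1 + yd.1) by
      ring] at this
    linarith
  have h6 := k2.2 (by
    rw [show o.1 + (xa.1 + yc.1) + (o.1 + (xb.1 + yd.1)) =
      o.1 + (o.1 + (xa.1 + xb.1 + yc.1 + yd.1)) by ring]
    exact hn)
  rw [← sq_lt_sq] at h6
  nlinarith

theorem edge_lemma (hX : XorProp K J) {e : ℝ} (he : e = 1 ∨ e = -1) {o : ℝ × ℝ} (h0 : K o)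
    {x y : ℕ → ℝ × ℝ} (h : EdgeOK K o x y) (hx : Maj e x) (hy : Maj e y) : False := by
  obtain ⟨a, b, c, ab, bc, c5, sa, sb, sc⟩ := hx
  obtain ⟨a', b', c', ab', bc', c5', sa', sb', sc'⟩ := hy
  obtain ⟨e1, e2, e3, e4⟩ := h
  have key : ∀ i j i' j', i < j → j < 5 → i' < j' → j' < 5 → 0 ≤ e * (x i).1 → 0 ≤ e * (x j).1 →
      0 ≤ e * (y i').1 → 0 ≤ e * (y j').1 →
      0 < ((y j').1 - (x j).1) * ((x i).1 - (y i').1) := by
    intro i j i' j' h1 h2 h3 h4 s1 s2 s3 s4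
    refine pair_lemma hX he h0 (e1 i j h1 h2) ?_ (e3 i j' (by omega) h4) (e3 j i' h2 (by omega))
      ?_ s1 s2 s4 s3
    · rw [add_comm (y j')]; exact e2 i' j' h3 h4
    · rw [add_right_comm (x i + x j)]; exact e4 i j i' j' h1 h2 h3 h4
  have k1 := key a b a' b' ab (by omega) ab' (by omega) sa sb sa' sb'
  have k2 := key b c b' c' bc c5 bc' c5' sb sc sb' sc'
  have k3 := key a c a' c' (by omega) c5 (by omega) c5' sa sc sa' sc'
  have r1 : (x a).1 - (y a').1 = -((y a').1 - (x a).1) := by ring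
  have r2 : (x b).1 - (y b').1 = -((y b').1 - (x b).1) := by ring
  rw [r1] at k1 k3
  rw [r2] at k2
  generalize (y a').1 - (x a).1 = A at *
  generalize (y b').1 - (x b).1 = B at *
  generalize (y c').1 - (x c).1 = C at *
  have := mul_pos (mul_pos k1 k2) k3
  nlinarith [sq_nonneg (A * B * C)]

/-- The labels of a chord gadget at the point `q`. -/
def ChordOK (K : ℝ × ℝ → Prop) (q : ℝ × ℝ) (s r : ℕ → ℝ × ℝ) : Prop :=
  (∀ a, a < 5 → ¬ K (q + s a)) ∧ (∀ a b, a < 5 → b < 5 → K (q + (s a + r b))) ∧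
  (∀ a b c, a < 5 → b < c → c < 5 → ¬ K (q + (s a + r b + r c)))

theorem chord_lemma (hX : XorProp K J) {e : ℝ} (he : e = 1 ∨ e = -1) {q : ℝ × ℝ}
    {s r : ℕ → ℝ × ℝ} (h : ChordOK K q s r) (hs : Maj e s) (hr : Maj e r) :
    ∃ t ∈ J, 0 ≤ e * (t - 2 * q.1) := by
  obtain ⟨a, _, _, ab, bc, c5, sa, -, -⟩ := hs
  obtain ⟨b, c, _, ab', bc', c5', sb, sc, -⟩ := hr
  have k := hX.2 _ _ _ _ (h.2.1 a b (by omega) (by omega)) (h.2.1 a c (by omega) (by omega))
    (h.1 a (by omega)) (h.2.2 a b c (by omega) ab' (by omega)) (by abel)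
  simp only [Prod.fst_add] at k
  refine ⟨q.1 + ((s a).1 + (r b).1) + (q.1 + ((s a).1 + (r c).1)), ?_, by nlinarith⟩
  by_contra hn
  have h1 := k.2 hn
  have h2 := abs_sub_le_of_sign he sb sc
  rw [show q.1 + (s a).1 - (q.1 + ((s a).1 + (r b).1 + (r c).1)) = -((r b).1 + (r c).1) by ring,
    abs_neg, show q.1 + ((s a).1 + (r b).1) - (q.1 + ((s a).1 + (r c).1)) = (r b).1 - (r c).1 by
    ring] at h1
  linarith

/-- All labels of a certificate at `q`. -/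
def CertOK (K : ℝ × ℝ → Prop) (o q : ℝ × ℝ) (s s' r r' : ℕ → ℝ × ℝ) : Prop :=
  EdgeOK K o r r' ∧ EdgeOK K o s r' ∧ EdgeOK K o s' r ∧ ChordOK K q s r ∧ ChordOK K q s' r'

theorem cert_lemma (hX : XorProp K J) {o q : ℝ × ℝ} (h0 : K o) {s s' r r' : ℕ → ℝ × ℝ}
    (h : CertOK K o q s s' r r') : 2 * q.1 ∈ J := by
  obtain ⟨e1, e2, e3, c1, c2⟩ := h
  have key : ∀ e : ℝ, (e = 1 ∨ e = -1) → Maj e r → (∀ x, Maj e x ∨ Maj (-e) x) →
      (∃ t ∈ J, 0 ≤ e * (t - 2 * q.1)) ∧ ∃ t ∈ J, 0 ≤ -e * (t - 2 * q.1) := by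
    intro e he hr hor
    have he' : -e = 1 ∨ -e = -1 := by rcases he with rfl | rfl <;> simp
    have hr' : Maj (-e) r' := (hor r').resolve_left (edge_lemma hX he h0 e1 hr)
    have hs : Maj e s := (hor s).resolve_right fun h => edge_lemma hX he' h0 e2 h hr'
    have hs' : Maj (-e) s' := (hor s').resolve_left fun h => edge_lemma hX he h0 e3 h hr
    exact ⟨chord_lemma hX he c1 hs hr, chord_lemma hX he' c2 hs' hr'⟩
  rcases maj_or r with hr | hr
  · obtain ⟨⟨t, ht, h1⟩, ⟨t', ht', h2⟩⟩ := key 1 (Or.inl rfl) hr maj_or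
    exact hX.1.out ht' ht ⟨by linarith, by linarith⟩
  · obtain ⟨⟨t, ht, h1⟩, ⟨t', ht', h2⟩⟩ := key (-1) (Or.inr rfl) hr fun x => by
      rw [neg_neg]; exact (maj_or x).symm
    exact hX.1.out ht ht' ⟨by linarith, by linarith⟩

/-- In the convex regime a sum of rejected vectors of the same sign is rejected. -/
theorem mono_lemma (hX : XorProp K J) {e : ℝ} (he : e = 1 ∨ e = -1) {o : ℝ × ℝ} (h0 : K o)
    (hoJ : 2 * o.1 ∈ J) (Q : ℝ) (hQ : 2 * (o.1 + Q) ∈ J) (l : List (ℝ × ℝ)) (hl : l ≠ [])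
    (hs : ∀ z ∈ l, 0 ≤ e * z.1 ∧ ¬ K (o + z)) (hle : e * l.sum.1 ≤ e * Q) : ¬ K (o + l.sum) := by
  induction l with
  | nil => exact absurd rfl hl
  | cons z l ih =>
    have hz := hs z List.mem_cons_self
    by_cases hl' : l = []
    · subst hl'; simpa using hz.2
    have hpos : 0 ≤ e * l.sum.1 := by
      clear ih hl hl' hle
      induction l with
      | nil => simp
      | cons y l ih2 =>
        have h1 := (hs y (by simp)).1
        have h2 := ih2 fun w hw => hs w (by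
          rcases List.mem_cons.1 hw with h | h
          · rw [h]; exact List.mem_cons_self
          · exact List.mem_cons_of_mem _ (List.mem_cons_of_mem _ h))
        rw [List.sum_cons, Prod.fst_add]
        linarith
    rw [List.sum_cons, Prod.fst_add] at hle
    have h1 := ih hl' (fun w hw => hs w (List.mem_cons_of_mem _ hw)) (by linarith [hz.1])
    intro h2
    rw [List.sum_cons] at h2
    have k := hX.2 _ _ _ _ h0 h2 hz.2 h1 (by abel)
    simp only [Prod.fst_add] at k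
    have hJ : o.1 + (o.1 + (z.1 + l.sum.1)) ∈ J := by
      rcases he with rfl | rfl
      · exact hX.1.out hoJ hQ ⟨by linarith [hz.1], by linarith [hz.1]⟩
      · exact hX.1.out hQ hoJ ⟨by linarith [hz.1], by linarith [hz.1]⟩
    have h3 := k.1 hJ
    have h4 := abs_sub_le_of_sign he hz.1 hpos
    rw [show o.1 - (o.1 + (z.1 + l.sum.1)) = -(z.1 + l.sum.1) by ring, abs_neg,
      show o.1 + z.1 - (o.1 + l.sum.1) = z.1 - l.sum.1 by ring] at h3
    linarith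

end Pool.Agent.H320Z.Sig
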