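import Pool.Agent.H320Z.SigGadget
import Pool.Agent.NPC.Sat2
import Pool.Agent.H671R2.PolyAuto

set_option autoImplicit false

/-! The reduction from 3-SAT: definitions, size, polynomial time, and passage to sets. -/

namespace Pool.Agent.H320Z.Sig

open Pool.Agent.NPC

abbrev Co : Type := ℕ × ℕ
abbrev Pt : Type := List Co × Bool
abbrev Cl : Type := Lit ℕ × Lit ℕ × Lit ℕ

def rg5 : List ℕ := [0, 1, 2, 3, 4]
def prs : List (ℕ × ℕ) :=
  [(0, 1), (0, 2), (0, 3), (0, 4), (1, 2), (1, 3), (1, 4), (2, 3), (2, 4), (3, 4)]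

theorem mem_rg5 {a : ℕ} : a ∈ rg5 ↔ a < 5 := by
  simp only [rg5, List.mem_cons, List.not_mem_nil, or_false]; omega

theorem mem_prs {p : ℕ × ℕ} : p ∈ prs ↔ p.1 < p.2 ∧ p.2 < 5 := by
  obtain ⟨a, b⟩ := p
  simp only [prs, List.mem_cons, List.not_mem_nil, or_false, Prod.mk.injEq]; omega

def fam (c : Co) (a : ℕ) : Co := (c.1, c.2 + a)

def edgePts (x y : Co) : List Pt :=
  prs.map (fun p => ([fam x p.1, fam x p.2], false)) ++
  (prs.map (fun p => ([fam y p.1, fam y p.2], false)) ++
  (rg5.flatMap (fun a => rg5.map fun c => ([fam x a, fam y c], true)) ++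
  prs.flatMap (fun p => prs.map fun p' => ([fam x p.1, fam x p.2, fam y p'.1, fam y p'.2], true))))

def chordPts (Q : List Co) (s r : Co) : List Pt :=
  rg5.map (fun a => (fam s a :: Q, false)) ++
  (rg5.flatMap (fun a => rg5.map fun b => (fam s a :: fam r b :: Q, true)) ++
  rg5.flatMap (fun a => prs.map fun p => (fam s a :: fam r p.1 :: fam r p.2 :: Q, false)))

def certPts (Q : List Co) (s : Co) : List Pt :=
  edgePts (0, 23) (0, 28) ++ (edgePts s (0, 28) ++ (edgePts (s.1, s.2 + 5) (0, 23) ++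
  (chordPts Q s (0, 23) ++ chordPts Q (s.1, s.2 + 5) (0, 28))))

def lc (l : Lit ℕ) : Co := (l.2, bif l.1 then 0 else 1)

def clSet (c : Cl) : List Co := [lc c.1, lc c.2.1, lc c.2.2, (0, 22)]

def varPts (i : ℕ) : List Pt :=
  ([(i, 0)], false) :: ([(i, 1)], false) :: ([(i, 0), (i, 1)], true) ::
    certPts [(i, 0), (i, 1)] (i, 2)

def clPts (p : Cl × ℕ) : List Pt := (clSet p.1, true) :: certPts (clSet p.1) (p.2, 12)

def blocks (φ : List Cl) : List ℕ := List.range (φ ++ (φ ++ φ)).length

def pts (φ : List Cl) : List Pt :=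
  ([], true) :: ([(0, 22)], false) :: (certPts [] (0, 33) ++
    ((blocks φ).flatMap varPts ++ φ.zipIdx.flatMap clPts))

def coords (φ : List Cl) : List Co :=
  (blocks φ).flatMap fun i => (List.range 43).map fun j => (i, j)

def vec (cs : List Co) (S : List Co) : List Bool := cs.map fun v => decide (v ∈ S)

def red (φ : List Cl) : Inst :=
  ((coords φ).length, (pts φ).map fun p => (vec (coords φ) p.1, p.2))

/-! ### Polynomial time -/

section PolyT
variable {α : Type} [TEnc α]

@[fun_prop] theorem poly_fam {c : α → Co} {a : α → ℕ} (hc : Poly c) (ha : Poly a) :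
    Poly (fun x => fam (c x) (a x)) := by
  unfold fam; fun_prop

@[fun_prop] theorem poly_edge {x y : α → Co} (hx : Poly x) (hy : Poly y) :
    Poly (fun t => edgePts (x t) (y t)) := by
  unfold edgePts; fun_prop

@[fun_prop] theorem poly_chord {Q : α → List Co} {x y : α → Co} (hQ : Poly Q) (hx : Poly x)
    (hy : Poly y) : Poly (fun t => chordPts (Q t) (x t) (y t)) := by
  unfold chordPts; fun_prop

@[fun_prop] theorem poly_cert {Q : α → List Co} {x : α → Co} (hQ : Poly Q) (hx : Poly x) :
    Poly (fun t => certPts (Q t) (x t)) := by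
  unfold certPts; fun_prop

@[fun_prop] theorem poly_lc {l : α → Lit ℕ} (hl : Poly l) : Poly (fun t => lc (l t)) := by
  unfold lc; fun_prop

@[fun_prop] theorem poly_clSet {l : α → Cl} (hl : Poly l) : Poly (fun t => clSet (l t)) := by
  unfold clSet; fun_prop

@[fun_prop] theorem poly_varPts {l : α → ℕ} (hl : Poly l) : Poly (fun t => varPts (l t)) := by
  unfold varPts; fun_prop

@[fun_prop] theorem poly_clPts {l : α → Cl × ℕ} (hl : Poly l) : Poly (fun t => clPts (l t)) := by
  unfold clPts; fun_prop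

@[fun_prop] theorem poly_blocks {l : α → List Cl} (hl : Poly l) :
    Poly (fun t => blocks (l t)) := by
  unfold blocks
  exact Poly.range_length (by fun_prop)

@[fun_prop] theorem poly_pts {l : α → List Cl} (hl : Poly l) : Poly (fun t => pts (l t)) := by
  unfold pts; fun_prop

@[fun_prop] theorem poly_coords {l : α → List Cl} (hl : Poly l) :
    Poly (fun t => coords (l t)) := by
  unfold coords; fun_prop

theorem poly_red : Poly red := by
  unfold red vec; fun_prop

end PolyT

/-! ### Size -/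

theorem length_edge (x y : Co) : (edgePts x y).length = 145 := by
  simp [edgePts, prs, rg5]

theorem length_chord (Q : List Co) (x y : Co) : (chordPts Q x y).length = 80 := by
  simp [chordPts, prs, rg5]

theorem length_cert (Q : List Co) (x : Co) : (certPts Q x).length = 595 := by
  simp [certPts, length_edge, length_chord]

theorem length_flatMap_const {α β : Type} (l : List α) (f : α → List β) (n : ℕ)
    (h : ∀ a, (f a).length = n) : (l.flatMap f).length = l.length * n := by
  induction l with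
  | nil => simp
  | cons a l ih => rw [List.flatMap_cons, List.length_append, ih, h, List.length_cons]; ring

theorem length_blocks (φ : List Cl) : (blocks φ).length = 3 * φ.length := by
  simp [blocks]; ring

theorem mem_blocks {φ : List Cl} {i : ℕ} : i ∈ blocks φ ↔ i < 3 * φ.length := by
  simp [blocks]; omega

theorem length_coords (φ : List Cl) : (coords φ).length = 129 * φ.length := by
  rw [coords, length_flatMap_const _ _ 43 (by simp), length_blocks]; ring

theorem length_pts (φ : List Cl) : (pts φ).length = 597 + 2390 * φ.length := by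
  simp only [pts, List.length_cons, List.length_append, length_cert]
  rw [length_flatMap_const _ _ 598 (by simp [varPts, length_cert]),
    length_flatMap_const _ _ 596 (by simp [clPts, length_cert]), length_blocks, List.length_zipIdx]
  ring

theorem red_size (φ : List Cl) (h : φ ≠ []) : (red φ).2.length ≤ 24 * (red φ).1 := by
  have := List.length_pos_of_ne_nil h
  simp only [red, List.length_map, length_pts, length_coords]
  omega

theorem red_wf (φ : List Cl) : WellFormed (red φ) := by
  intro p hp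
  simp only [red, List.mem_map] at hp
  obtain ⟨q, -, rfl⟩ := hp
  simp [red, vec]

theorem mem_coords {φ : List Cl} {v : Co} : v ∈ coords φ ↔ v.1 < 3 * φ.length ∧ v.2 < 43 := by
  obtain ⟨i, j⟩ := v
  simp [coords, mem_blocks]

theorem nodup_coords (φ : List Cl) : (coords φ).Nodup := by
  have : coords φ = (blocks φ) ×ˢ (List.range 43) := rfl
  rw [this]
  exact List.Nodup.product List.nodup_range List.nodup_range

/-! ### From Boolean vectors to sets of coordinates -/

theorem dot_vec {cs : List Co} (hcs : cs.Nodup) (W : Co → ℝ) {S : List Co} (hS : S.Nodup)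
    (hsub : ∀ v ∈ S, v ∈ cs) :
    dot (fun i : Fin cs.length => W cs[i]) (vec cs S) = (S.map W).sum := by
  classical
  unfold dot
  have h1 : ∀ i : Fin cs.length, W cs[i] * (if (vec cs S).getD i false then 1 else 0) =
      (fun v => if v ∈ S then W v else 0) cs[i] := by
    intro i
    have : (vec cs S).getD i false = decide (cs[i] ∈ S) := by
      simp [vec, List.getD_eq_getElem?_getD]
    rw [this]
    by_cases h : cs[i] ∈ S <;> simp [h]
  rw [Finset.sum_congr rfl fun i _ => h1 i]
  have h2 := Fin.sum_univ_fun_getElem cs (fun v => if v ∈ S then W v else 0)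
  refine Eq.trans h2 ?_
  rw [← List.sum_toFinset _ hcs, ← List.sum_toFinset _ hS, ← Finset.sum_filter]
  congr 1
  ext v
  simp only [Finset.mem_filter, List.mem_toFinset]
  exact ⟨fun h => h.2, fun h => ⟨hsub v h, h⟩⟩

/-- Loadability in terms of sets of coordinates. -/
def ALoad (P : List Pt) : Prop :=
  ∃ (W : Co → ℝ × ℝ) (o : ℝ × ℝ) (a₀ a₁ a₂ : ℝ), ∀ p ∈ P,
    (p.2 = true ↔ KK a₀ a₁ a₂ (o + (p.1.map W).sum))

theorem fst_sum (W : Co → ℝ × ℝ) (S : List Co) :
    (S.map W).sum.1 = (S.map fun v => (W v).1).sum := by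
  induction S with
  | nil => rfl
  | cons a S ih => simp [ih]

theorem snd_sum (W : Co → ℝ × ℝ) (S : List Co) :
    (S.map W).sum.2 = (S.map fun v => (W v).2).sum := by
  induction S with
  | nil => rfl
  | cons a S ih => simp [ih]

theorem loadable_iff {cs : List Co} (hcs : cs.Nodup) {P : List Pt}
    (hP : ∀ p ∈ P, p.1.Nodup ∧ ∀ v ∈ p.1, v ∈ cs) :
    Loadable (cs.length, P.map fun p => (vec cs p.1, p.2)) ↔ ALoad P := by
  have ext : ∀ w : Fin cs.length → ℝ, ∃ W : Co → ℝ, w = fun i : Fin cs.length => W cs[i] := by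
    intro w
    refine ⟨fun v => if h : cs.idxOf v < cs.length then w ⟨_, h⟩ else 0, funext fun i => ?_⟩
    have h : cs.idxOf cs[i] = i := List.Nodup.idxOf_getElem hcs i i.2
    simp only [h, i.2, dif_pos]
  have key : ∀ (W₁ W₂ : Co → ℝ) (b₁ b₂ a₀ a₁ a₂ : ℝ), ∀ p ∈ P,
      (0 ≤ a₁ * sigm (dot (fun i : Fin cs.length => W₁ cs[i]) (vec cs p.1) + b₁) +
        a₂ * sigm (dot (fun i : Fin cs.length => W₂ cs[i]) (vec cs p.1) + b₂) + a₀ ↔
      KK a₀ a₁ a₂ ((b₁, b₂) + (p.1.map fun v => (W₁ v, W₂ v)).sum)) := by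
    intro W₁ W₂ b₁ b₂ a₀ a₁ a₂ p hp
    rw [dot_vec hcs W₁ (hP p hp).1 (hP p hp).2, dot_vec hcs W₂ (hP p hp).1 (hP p hp).2]
    unfold KK
    rw [Prod.fst_add, Prod.snd_add, fst_sum, snd_sum, add_comm b₁, add_comm b₂]
  constructor
  · rintro ⟨w₁, w₂, b₁, b₂, a₀, a₁, a₂, h⟩
    obtain ⟨W₁, rfl⟩ := ext w₁
    obtain ⟨W₂, rfl⟩ := ext w₂
    refine ⟨fun v => (W₁ v, W₂ v), (b₁, b₂), a₀, a₁, a₂, fun p hp => ?_⟩
    rw [← key W₁ W₂ b₁ b₂ a₀ a₁ a₂ p hp]
    exact h (vec cs p.1, p.2) (List.mem_map.2 ⟨p, hp, rfl⟩)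
  · rintro ⟨W, o, a₀, a₁, a₂, h⟩
    refine ⟨fun i : Fin cs.length => (W cs[i]).1, fun i : Fin cs.length => (W cs[i]).2, o.1, o.2,
      a₀, a₁, a₂, fun p hp => ?_⟩
    obtain ⟨q, hq, rfl⟩ := List.mem_map.1 hp
    exact (h q hq).trans (key (fun v => (W v).1) (fun v => (W v).2) o.1 o.2 a₀ a₁ a₂ q hq).symm

end Pool.Agent.H320Z.Sig
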