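import Pool.Agent.H320Z.SigRed

set_option autoImplicit false

/-! Well-formedness of the sets, and soundness of the reduction. -/

namespace Pool.Agent.H320Z.Sig

open Pool.Agent.NPC

theorem forall_edge {x y : Co} {R : Pt → Prop} : (∀ p ∈ edgePts x y, R p) ↔
    (∀ a b, a < b → b < 5 → R ([fam x a, fam x b], false)) ∧
    (∀ a b, a < b → b < 5 → R ([fam y a, fam y b], false)) ∧
    (∀ a c, a < 5 → c < 5 → R ([fam x a, fam y c], true)) ∧
    (∀ a b c d, a < b → b < 5 → c < d → d < 5 →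
      R ([fam x a, fam x b, fam y c, fam y d], true)) := by
  simp only [edgePts, List.forall_mem_append, List.forall_mem_map, List.forall_mem_flatMap,
    mem_prs, mem_rg5, Prod.forall, and_imp]
  exact ⟨fun h => ⟨h.1, h.2.1, fun a c ha hc => h.2.2.1 a ha c hc,
      fun a b c d h1 h2 h3 h4 => h.2.2.2 a b h1 h2 c d h3 h4⟩,
    fun h => ⟨h.1, h.2.1, fun a ha c hc => h.2.2.1 a c ha hc,
      fun a b h1 h2 c d h3 h4 => h.2.2.2 a b c d h1 h2 h3 h4⟩⟩

theorem forall_chord {Q : List Co} {s r : Co} {R : Pt → Prop} : (∀ p ∈ chordPts Q s r, R p) ↔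
    (∀ a, a < 5 → R (fam s a :: Q, false)) ∧
    (∀ a b, a < 5 → b < 5 → R (fam s a :: fam r b :: Q, true)) ∧
    (∀ a b c, a < 5 → b < c → c < 5 → R (fam s a :: fam r b :: fam r c :: Q, false)) := by
  simp only [chordPts, List.forall_mem_append, List.forall_mem_map, List.forall_mem_flatMap,
    mem_prs, mem_rg5, Prod.forall, and_imp]
  exact ⟨fun h => ⟨h.1, fun a c ha hc => h.2.1 a ha c hc,
      fun a b c h1 h2 h3 => h.2.2 a h1 b c h2 h3⟩,
    fun h => ⟨h.1, fun a ha c hc => h.2.1 a c ha hc,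
      fun a h1 b c h2 h3 => h.2.2 a b c h1 h2 h3⟩⟩

theorem forall_pts {φ : List Cl} {R : Pt → Prop} : (∀ p ∈ pts φ, R p) ↔
    R ([], true) ∧ R ([(0, 22)], false) ∧ (∀ p ∈ certPts [] (0, 33), R p) ∧
    (∀ i, i < 3 * φ.length → R ([(i, 0)], false) ∧ R ([(i, 1)], false) ∧
      R ([(i, 0), (i, 1)], true) ∧ ∀ p ∈ certPts [(i, 0), (i, 1)] (i, 2), R p) ∧
    ∀ c i, φ[i]? = some c → R (clSet c, true) ∧ ∀ p ∈ certPts (clSet c) (i, 12), R p := by
  simp only [pts, List.forall_mem_cons, List.forall_mem_append, List.forall_mem_flatMap,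
    mem_blocks, varPts, clPts, List.mem_zipIdx_iff_getElem?]
  simp only [Prod.forall]

/-- The condition on a set of coordinates. -/
def Good (n : ℕ) (p : Pt) : Prop := p.1.Nodup ∧ ∀ v ∈ p.1, v.1 < n ∧ v.2 < 43

theorem good_edge {n : ℕ} {x y : Co} (hx : x.1 < n) (hy : y.1 < n) (hx2 : x.2 ≤ 38)
    (hy2 : y.2 ≤ 38) (h : x.2 + 5 ≤ y.2 ∨ y.2 + 5 ≤ x.2) : ∀ p ∈ edgePts x y, Good n p := by
  rw [forall_edge]
  refine ⟨fun a b h1 h2 => ?_, fun a b h1 h2 => ?_, fun a b h1 h2 => ?_,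
    fun a b c d h1 h2 h3 h4 => ?_⟩ <;>
  · simp only [Good, fam, List.nodup_cons, List.mem_cons, List.not_mem_nil, or_false,
      Prod.mk.injEq, List.nodup_nil, not_false_eq_true, and_true, forall_eq_or_imp, forall_eq]
    omega

theorem good_chord {n : ℕ} {Q : List Co} {x y : Co} (hx : x.1 < n) (hy : y.1 < n)
    (hx2 : x.2 ≤ 38) (hy2 : y.2 ≤ 38) (h : x.2 + 5 ≤ y.2 ∨ y.2 + 5 ≤ x.2)
    (hx3 : (2 ≤ x.2 ∧ x.2 ≤ 17) ∨ 23 ≤ x.2) (hy3 : 23 ≤ y.2) (hQ : Q.Nodup)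
    (hQ2 : ∀ v ∈ Q, v.1 < n ∧ (v.2 < 2 ∨ v.2 = 22)) : ∀ p ∈ chordPts Q x y, Good n p := by
  have q1 : ∀ a, a < 5 → fam x a ∉ Q := fun a ha hm => by
    have := (hQ2 _ hm).2
    simp only [fam] at this
    omega
  have q2 : ∀ a, fam y a ∉ Q := fun a hm => by
    have := (hQ2 _ hm).2
    simp only [fam] at this
    omega
  have q3 : ∀ v ∈ Q, v.1 < n ∧ v.2 < 43 := fun v hv => by
    have := hQ2 v hv
    omega
  rw [forall_chord]
  refine ⟨fun a h1 => ?_, fun a b h1 h2 => ?_, fun a b c h1 h2 h3 => ?_⟩ <;>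
  · simp only [Good, List.nodup_cons, List.mem_cons, q1 a h1, q2, hQ, or_false,
      not_false_eq_true, and_true, true_and, forall_eq_or_imp]
    simp only [fam, Prod.mk.injEq]
    refine ⟨by omega, ?_⟩
    first
      | exact q3
      | exact ⟨by omega, by omega, q3⟩
      | exact ⟨by omega, by omega, by omega, q3⟩

theorem good_cert {n : ℕ} {Q : List Co} {x : Co} (hx : x.1 < n)
    (hx3 : (2 ≤ x.2 ∧ x.2 ≤ 12) ∨ x.2 = 33) (hQ : Q.Nodup)
    (hQ2 : ∀ v ∈ Q, v.1 < n ∧ (v.2 < 2 ∨ v.2 = 22)) : ∀ p ∈ certPts Q x, Good n p := by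
  simp only [certPts, List.forall_mem_append]
  refine ⟨good_edge ?_ ?_ ?_ ?_ ?_, good_edge ?_ ?_ ?_ ?_ ?_, good_edge ?_ ?_ ?_ ?_ ?_,
    good_chord ?_ ?_ ?_ ?_ ?_ ?_ ?_ hQ hQ2, good_chord ?_ ?_ ?_ ?_ ?_ ?_ ?_ hQ hQ2⟩ <;>
  · (try simp only)
    omega

theorem lc_snd (l : Lit ℕ) : (lc l).2 < 2 := by
  obtain ⟨b, x⟩ := l
  cases b <;> simp [lc]

theorem good_pts {φ : List Cl} (hd : Distinct3 φ) (hb : Bounded3 φ) (hn : φ ≠ []) :
    ∀ p ∈ pts φ, Good (3 * φ.length) p := by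
  have hpos := List.length_pos_of_ne_nil hn
  rw [forall_pts]
  refine ⟨by simp [Good], by simp [Good]; omega, good_cert (by simp; omega) (by simp) (by simp)
    (by simp), fun i hi => ⟨by simp [Good]; omega, by simp [Good]; omega, by simp [Good]; omega,
      good_cert hi (by simp) (by simp) (by simp; omega)⟩, fun c i hc => ?_⟩
  have hm : c ∈ φ := List.mem_of_getElem? hc
  have hi : i < φ.length := by
    by_contra h
    rw [List.getElem?_eq_none (by omega)] at hc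
    simp at hc
  have h1 := hd c hm
  have h2 := hb c hm
  have l1 := lc_snd c.1
  have l2 := lc_snd c.2.1
  have l3 := lc_snd c.2.2
  have e1 : (lc c.1).1 = c.1.2 := rfl
  have e2 : (lc c.2.1).1 = c.2.1.2 := rfl
  have e3 : (lc c.2.2).1 = c.2.2.2 := rfl
  have hN : (clSet c).Nodup := by
    simp only [clSet, List.nodup_cons, List.mem_cons, List.not_mem_nil, or_false, Prod.ext_iff,
      List.nodup_nil, not_false_eq_true, and_true]
    omega
  have hQ : ∀ v ∈ clSet c, v.1 < 3 * φ.length ∧ (v.2 < 2 ∨ v.2 = 22) := by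
    simp only [clSet, List.mem_cons, List.not_mem_nil, or_false, forall_eq_or_imp, forall_eq]
    exact ⟨⟨h2.1, Or.inl l1⟩, ⟨h2.2.1, Or.inl l2⟩, ⟨h2.2.2, Or.inl l3⟩, by omega, by simp⟩
  refine ⟨⟨hN, fun v hv => ?_⟩, good_cert (by simp only; omega) (by simp) hN hQ⟩
  have := hQ v hv
  omega

theorem red_iff {φ : List Cl} (hd : Distinct3 φ) (hb : Bounded3 φ) (hn : φ ≠ []) :
    Loadable (red φ) ↔ ALoad (pts φ) :=
  loadable_iff (nodup_coords φ) fun p hp =>
    ⟨(good_pts hd hb hn p hp).1, fun v hv => mem_coords.2 ((good_pts hd hb hn p hp).2 v hv)⟩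

section Sound
variable {K : ℝ × ℝ → Prop} {W : Co → ℝ × ℝ} {o : ℝ × ℝ}

/-- The label of a set is correct. -/
def Lab (K : ℝ × ℝ → Prop) (W : Co → ℝ × ℝ) (o : ℝ × ℝ) (p : Pt) : Prop :=
  p.2 = true ↔ K (o + (p.1.map W).sum)

theorem edge_sound {x y : Co} (h : ∀ p ∈ edgePts x y, Lab K W o p) :
    EdgeOK K o (fun a => W (fam x a)) (fun a => W (fam y a)) := by
  rw [forall_edge] at h
  obtain ⟨h1, h2, h3, h4⟩ := h
  refine ⟨fun a b k1 k2 => ?_, fun a b k1 k2 => ?_, fun a b k1 k2 => ?_,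
    fun a b c d k1 k2 k3 k4 => ?_⟩
  · simpa [Lab] using h1 a b k1 k2
  · simpa [Lab] using h2 a b k1 k2
  · simpa [Lab] using h3 a b k1 k2
  · simpa [Lab, add_assoc] using h4 a b c d k1 k2 k3 k4

theorem chord_sound {Q : List Co} {x y : Co} (h : ∀ p ∈ chordPts Q x y, Lab K W o p) :
    ChordOK K (o + (Q.map W).sum) (fun a => W (fam x a)) (fun a => W (fam y a)) := by
  rw [forall_chord] at h
  obtain ⟨h1, h2, h3⟩ := h
  refine ⟨fun a k1 => ?_, fun a b k1 k2 => ?_, fun a b c k1 k2 k3 => ?_⟩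
  · have := h1 a k1
    simp only [Lab, List.map_cons, List.sum_cons, Bool.false_eq_true, false_iff] at this
    convert this using 2
    abel
  · have := h2 a b k1 k2
    simp only [Lab, List.map_cons, List.sum_cons, true_iff] at this
    convert this using 1
    abel
  · have := h3 a b c k1 k2 k3
    simp only [Lab, List.map_cons, List.sum_cons, Bool.false_eq_true, false_iff] at this
    convert this using 2
    abel

theorem cert_sound {J : Set ℝ} (hX : XorProp K J) (h0 : K o) {Q : List Co} {x : Co}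
    (h : ∀ p ∈ certPts Q x, Lab K W o p) : 2 * (o.1 + (Q.map W).sum.1) ∈ J := by
  simp only [certPts, List.forall_mem_append] at h
  obtain ⟨h1, h2, h3, h4, h5⟩ := h
  exact cert_lemma hX h0 ⟨edge_sound h1, edge_sound h2, edge_sound h3, chord_sound h4,
    chord_sound h5⟩

theorem not_mono {J : Set ℝ} (hX : XorProp K J) (h0 : K o) (hoJ : 2 * o.1 ∈ J) {Q : List Co}
    {x : Co} (hQ : Q ≠ []) (h : ∀ p ∈ certPts Q x, Lab K W o p) (hQ1 : Lab K W o (Q, true))
    (hQ2 : ∀ v ∈ Q, Lab K W o ([v], false)) {e : ℝ} (he : e = 1 ∨ e = -1) :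
    ∃ v ∈ Q, e * (W v).1 < 0 := by
  by_contra hc
  push Not at hc
  refine mono_lemma hX he h0 hoJ _ (cert_sound hX h0 h) (Q.map W) (by simpa using hQ) ?_ le_rfl
    (hQ1.1 rfl)
  intro z hz
  obtain ⟨v, hv, rfl⟩ := List.mem_map.1 hz
  refine ⟨hc v hv, ?_⟩
  simpa [Lab] using hQ2 v hv

end Sound

theorem sound {φ : List Cl} (hb : Bounded3 φ) (h : ALoad (pts φ)) : SAT3 φ := by
  obtain ⟨W, o, a₀, a₁, a₂, h⟩ := h
  obtain ⟨J, hX⟩ := xor_all a₀ a₁ a₂
  have h' : ∀ p ∈ pts φ, Lab (KK a₀ a₁ a₂) W o p := h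
  rw [forall_pts] at h'
  obtain ⟨h1, h2, h3, h4, h5⟩ := h'
  have h0 : KK a₀ a₁ a₂ o := by simpa [Lab] using h1
  have hoJ : 2 * o.1 ∈ J := by simpa using cert_sound hX h0 h3
  obtain ⟨e, he, hz⟩ : ∃ e : ℝ, (e = 1 ∨ e = -1) ∧ 0 ≤ e * (W (0, 22)).1 := by
    rcases le_total 0 (W (0, 22)).1 with h | h
    · exact ⟨1, Or.inl rfl, by linarith⟩
    · exact ⟨-1, Or.inr rfl, by linarith⟩
  have he' : -e = 1 ∨ -e = -1 := by rcases he with rfl | rfl <;> simp
  classical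
  refine ⟨fun x => decide (e * (W (x, 0)).1 < 0), fun c hc => ?_⟩
  have lit : ∀ l : Lit ℕ, l.2 < 3 * φ.length → e * (W (lc l)).1 < 0 →
      decide (e * (W (l.2, 0)).1 < 0) = l.1 := by
    rintro ⟨b, x⟩ hx hl
    cases b
    · obtain ⟨k1, k2, k3, k4⟩ := h4 x hx
      obtain ⟨v, hv, hv'⟩ := not_mono hX h0 hoJ (by simp) k4 k3 (by simp [k1, k2]) he'
      simp only [List.mem_cons, List.not_mem_nil, or_false] at hv
      have hl' : e * (W (x, 1)).1 < 0 := hl
      rcases hv with rfl | rfl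
      · simp only [decide_eq_false_iff_not, not_lt]; linarith
      · linarith
    · exact decide_eq_true hl
  have lab : ∀ l : Lit ℕ, l.2 < 3 * φ.length → Lab (KK a₀ a₁ a₂) W o ([lc l], false) := by
    rintro ⟨b, x⟩ hx
    cases b
    · exact (h4 x hx).2.1
    · exact (h4 x hx).1
  obtain ⟨i, hi⟩ := List.getElem?_of_mem hc
  obtain ⟨k1, k2⟩ := h5 c i hi
  obtain ⟨b1, b2, b3⟩ := hb c hc
  obtain ⟨v, hv, hv'⟩ := not_mono hX h0 hoJ (by simp [clSet]) k2 k1
    (by simp [clSet, lab _ b1, lab _ b2, lab _ b3, h2]) he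
  simp only [clSet, List.mem_cons, List.not_mem_nil, or_false] at hv
  rcases hv with rfl | rfl | rfl | rfl
  · exact Or.inl (lit _ b1 hv')
  · exact Or.inr (Or.inl (lit _ b2 hv'))
  · exact Or.inr (Or.inr (lit _ b3 hv'))
  · linarith

end Pool.Agent.H320Z.Sig
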