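import Pool.Agent.H320Z.SigDefs

set_option autoImplicit false

/-! The key inequality for four points `p + p' = m + m'` with `p, p'` accepted and `m, m'`
rejected. -/

namespace Pool.Agent.H320Z.Sig

theorem between {s t U1 U2 U3 U4 : ℝ} (h1 : 0 < U1) (h2 : 0 < U2) (h3 : 0 < U3) (h4 : 0 < U4)
    (h : U1 * U2 = U3 * U4) (a1 : s * U1 + t ≤ 0) (a2 : s * U2 + t ≤ 0) (a3 : 0 < s * U3 + t)
    (a4 : 0 < s * U4 + t) : False := by
  rcases lt_trichotomy s 0 with hs | hs | hs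
  · have e1 : U3 < U1 := by nlinarith
    have e2 : U4 < U2 := by nlinarith
    nlinarith [mul_lt_mul'' e1 e2 h3.le h4.le]
  · subst hs; linarith
  · have e1 : U1 < U3 := by nlinarith
    have e2 : U2 < U4 := by nlinarith
    nlinarith [mul_lt_mul'' e1 e2 h1.le h2.le]

theorem inside {s t s' t' U1 U2 U3 U4 : ℝ} (h1 : 0 < U1) (h2 : 0 < U2) (h3 : 0 < U3) (h4 : 0 < U4)
    (h : U1 * U2 = U3 * U4) (a1 : s * U1 + t ≤ 0) (a3 : 0 < s * U3 + t) (a4 : 0 < s * U4 + t)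
    (b1 : 0 < s' * U1 + t') (b2 : 0 < s' * U2 + t') : 0 < s' * U3 + t' := by
  have key : (U1 < U3 ∧ U3 < U2) ∨ (U2 < U3 ∧ U3 < U1) := by
    rcases lt_trichotomy s 0 with hs | hs | hs
    · have e1 : U3 < U1 := by nlinarith
      have e2 : U4 < U1 := by nlinarith
      right
      refine ⟨?_, e1⟩
      by_contra hc
      push Not at hc
      nlinarith [mul_le_mul_of_nonneg_left hc h1.le, mul_lt_mul_of_pos_left e2 h3]
    · subst hs; linarith
    · have e1 : U1 < U3 := by nlinarith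
      have e2 : U1 < U4 := by nlinarith
      left
      refine ⟨e1, ?_⟩
      by_contra hc
      push Not at hc
      nlinarith [mul_le_mul_of_nonneg_left hc h1.le, mul_lt_mul_of_pos_left e2 h3]
  rcases le_total s' 0 with hs | hs
  · rcases key with ⟨_, k⟩ | ⟨_, k⟩ <;> nlinarith
  · rcases key with ⟨k, _⟩ | ⟨k, _⟩ <;> nlinarith

theorem core {s t s' t' U1 U2 U3 U4 V1 V2 V3 V4 : ℝ} (h1 : 0 < U1) (h2 : 0 < U2) (h3 : 0 < U3)
    (h4 : 0 < U4) (g1 : 0 < V1) (g2 : 0 < V2) (g3 : 0 < V3) (g4 : 0 < V4)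
    (hU : U1 * U2 = U3 * U4) (hV : V1 * V2 = V3 * V4)
    (hs : ∀ U, 0 < U → 0 < (s * U + t) + (s' * U + t'))
    (k1 : (s * U1 + t) * V1 ≤ s' * U1 + t') (k2 : (s * U2 + t) * V2 ≤ s' * U2 + t')
    (k3 : s' * U3 + t' < (s * U3 + t) * V3) (k4 : s' * U4 + t' < (s * U4 + t) * V4) :
    (s' * U3 + t') * (s' * U4 + t') * ((s * U1 + t) * (s * U2 + t)) <
      (s' * U1 + t') * (s' * U2 + t') * ((s * U3 + t) * (s * U4 + t)) := by
  have hb : ∀ U V, 0 < U → 0 < V → (s * U + t) * V ≤ s' * U + t' → 0 < s' * U + t' := by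
    intro U V hU hV hk
    by_contra hc
    push Not at hc
    have := hs U hU
    have h5 : 0 < s * U + t := by linarith
    nlinarith [mul_pos h5 hV]
  have ha : ∀ U V, 0 < U → 0 < V → s' * U + t' < (s * U + t) * V → 0 < s * U + t := by
    intro U V hU hV hk
    by_contra hc
    push Not at hc
    have := hs U hU
    nlinarith [mul_nonneg (neg_nonneg.2 hc) hV.le]
  have b1 := hb _ _ h1 g1 k1
  have b2 := hb _ _ h2 g2 k2
  have a3 := ha _ _ h3 g3 k3
  have a4 := ha _ _ h4 g4 k4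
  have hR : 0 < (s' * U1 + t') * (s' * U2 + t') * ((s * U3 + t) * (s * U4 + t)) := by positivity
  by_cases c1 : s * U1 + t ≤ 0
  · have c2 : 0 < s * U2 + t := by
      by_contra hc
      exact between h1 h2 h3 h4 hU c1 (not_lt.1 hc) a3 a4
    have b3 := inside h1 h2 h3 h4 hU c1 a3 a4 b1 b2
    have b4 := inside h1 h2 h4 h3 (by linarith) c1 a4 a3 b1 b2
    have := mul_nonpos_of_nonneg_of_nonpos (mul_pos b3 b4).le
      (mul_nonpos_of_nonpos_of_nonneg c1 c2.le)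
    linarith
  push Not at c1
  by_cases c2 : s * U2 + t ≤ 0
  · have b3 := inside h2 h1 h3 h4 (by linarith) c2 a3 a4 b2 b1
    have b4 := inside h2 h1 h4 h3 (by linarith) c2 a4 a3 b2 b1
    have := mul_nonpos_of_nonneg_of_nonpos (mul_pos b3 b4).le
      (mul_nonpos_of_nonneg_of_nonpos c1.le c2)
    linarith
  push Not at c2
  by_cases d3 : s' * U3 + t' ≤ 0
  · have d4 : 0 < s' * U4 + t' := by
      by_contra hc
      exact between h3 h4 h1 h2 hU.symm d3 (not_lt.1 hc) b1 b2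
    have := mul_nonpos_of_nonpos_of_nonneg (mul_nonpos_of_nonpos_of_nonneg d3 d4.le)
      (mul_pos c1 c2).le
    linarith
  push Not at d3
  by_cases d4 : s' * U4 + t' ≤ 0
  · have := mul_nonpos_of_nonpos_of_nonneg (mul_nonpos_of_nonneg_of_nonpos d3.le d4)
      (mul_pos c1 c2).le
    linarith
  push Not at d4
  have e1 : (s' * U3 + t') * (s' * U4 + t') < (s * U3 + t) * V3 * ((s * U4 + t) * V4) :=
    mul_lt_mul'' k3 k4 d3.le d4.le
  have e2 : (s * U1 + t) * V1 * ((s * U2 + t) * V2) ≤ (s' * U1 + t') * (s' * U2 + t') :=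
    mul_le_mul k1 k2 (by positivity) b1.le
  calc (s' * U3 + t') * (s' * U4 + t') * ((s * U1 + t) * (s * U2 + t))
      < (s * U3 + t) * V3 * ((s * U4 + t) * V4) * ((s * U1 + t) * (s * U2 + t)) :=
        mul_lt_mul_of_pos_right e1 (mul_pos c1 c2)
    _ = (s * U1 + t) * V1 * ((s * U2 + t) * V2) * ((s * U3 + t) * (s * U4 + t)) := by
        linear_combination (-((s * U1 + t) * (s * U2 + t) * (s * U3 + t) * (s * U4 + t))) * hV
    _ ≤ _ := mul_le_mul_of_nonneg_right e2 (mul_pos a3 a4).le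

/-- The accepted region. -/
def KK (a₀ a₁ a₂ : ℝ) (p : ℝ × ℝ) : Prop := 0 ≤ a₁ * sigm p.1 + a₂ * sigm p.2 + a₀

theorem KK_iff (a₀ a₁ a₂ : ℝ) (p : ℝ × ℝ) : KK a₀ a₁ a₂ p ↔
    (-a₀ * Real.exp (-p.1) + -(a₀ + a₁)) * Real.exp (-p.2) ≤
      (a₀ + a₂) * Real.exp (-p.1) + (a₀ + a₁ + a₂) := by
  unfold KK sigm
  have h1 : 0 < 1 + Real.exp (-p.1) := by positivity
  have h2 : 0 < 1 + Real.exp (-p.2) := by positivity
  have : a₁ * (1 / (1 + Real.exp (-p.1))) + a₂ * (1 / (1 + Real.exp (-p.2))) + a₀ =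
      ((a₀ + a₂) * Real.exp (-p.1) + (a₀ + a₁ + a₂) -
        (-a₀ * Real.exp (-p.1) + -(a₀ + a₁)) * Real.exp (-p.2)) /
        ((1 + Real.exp (-p.1)) * (1 + Real.exp (-p.2))) := by
    field_simp
    ring
  rw [this, le_div_iff₀ (mul_pos h1 h2), zero_mul, sub_nonneg]

/-- The property of the region that the reduction uses. -/
def XorProp (K : ℝ × ℝ → Prop) (J : Set ℝ) : Prop :=
  J.OrdConnected ∧ ∀ p p' m m' : ℝ × ℝ, K p → K p' → ¬ K m → ¬ K m' → p + p' = m + m' →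
    (p.1 + p'.1 ∈ J → |p.1 - p'.1| < |m.1 - m'.1|) ∧
    (p.1 + p'.1 ∉ J → |m.1 - m'.1| < |p.1 - p'.1|)

theorem exp_sum (x y : ℝ) : Real.exp (-x) + Real.exp (-y) =
    2 * Real.exp (-(x + y) / 2) * Real.cosh ((x - y) / 2) := by
  rw [Real.cosh_eq]
  have e1 : Real.exp (-x) = Real.exp (-(x + y) / 2) * Real.exp (-((x - y) / 2)) := by
    rw [← Real.exp_add]; congr 1; ring
  have e2 : Real.exp (-y) = Real.exp (-(x + y) / 2) * Real.exp ((x - y) / 2) := by
    rw [← Real.exp_add]; congr 1; ring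
  rw [e1, e2]; ring

theorem exp_sum_lt {x y z w : ℝ} (h : x + y = z + w)
    (hl : Real.exp (-x) + Real.exp (-y) < Real.exp (-z) + Real.exp (-w)) : |x - y| < |z - w| := by
  rw [exp_sum, exp_sum, h] at hl
  have h2 := lt_of_mul_lt_mul_left hl (by positivity)
  rw [Real.cosh_lt_cosh, abs_div, abs_div] at h2
  have : (0 : ℝ) < |2| := by norm_num
  exact (div_lt_div_iff_of_pos_right this).1 h2

theorem xor_pos (a₀ a₁ a₂ : ℝ) (ha : 0 < a₂) : ∃ J, XorProp (KK a₀ a₁ a₂) J := by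
  let D : ℝ → ℝ := fun t => a₁ * a₂ * ((a₀ + a₁) * (a₀ + a₁ + a₂) - a₀ * (a₀ + a₂) * Real.exp (-t))
  refine ⟨{t | D t < 0}, ⟨fun x hx y hy z hz => ?_⟩, fun p p' m m' k1 k2 k3 k4 h => ?_⟩
  · have e1 : Real.exp (-z) ≤ Real.exp (-x) := Real.exp_le_exp.2 (by linarith [hz.1])
    have e2 : Real.exp (-y) ≤ Real.exp (-z) := Real.exp_le_exp.2 (by linarith [hz.2])
    simp only [Set.mem_ofPred_eq, D] at hx hy ⊢
    rcases le_total 0 (a₁ * a₂ * (a₀ * (a₀ + a₂))) with c | c <;> nlinarith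
  · have h1 : p.1 + p'.1 = m.1 + m'.1 := congrArg Prod.fst h
    have h2 : p.2 + p'.2 = m.2 + m'.2 := congrArg Prod.snd h
    rw [KK_iff] at k1 k2 k3 k4
    have hU : Real.exp (-p.1) * Real.exp (-p'.1) = Real.exp (-m.1) * Real.exp (-m'.1) := by
      rw [← Real.exp_add, ← Real.exp_add]; congr 1; linarith
    have hV : Real.exp (-p.2) * Real.exp (-p'.2) = Real.exp (-m.2) * Real.exp (-m'.2) := by
      rw [← Real.exp_add, ← Real.exp_add]; congr 1; linarith
    have hc := core (Real.exp_pos _) (Real.exp_pos _) (Real.exp_pos _) (Real.exp_pos _)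
      (Real.exp_pos _) (Real.exp_pos _) (Real.exp_pos _) (Real.exp_pos _) hU hV
      (fun U hU => by nlinarith) k1 k2 (not_le.1 k3) (not_le.1 k4)
    have hp : Real.exp (-(p.1 + p'.1)) = Real.exp (-p.1) * Real.exp (-p'.1) := by
      rw [← Real.exp_add]; congr 1; ring
    have key : 0 < D (p.1 + p'.1) * ((Real.exp (-p.1) + Real.exp (-p'.1)) -
        (Real.exp (-m.1) + Real.exp (-m'.1))) := by
      simp only [D, hp]
      generalize Real.exp (-p.1) = U1 at *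
      generalize Real.exp (-p'.1) = U2 at *
      generalize Real.exp (-m.1) = U3 at *
      generalize Real.exp (-m'.1) = U4 at *
      have e3 : ((a₀ + a₂) * U3 + (a₀ + a₁ + a₂)) * ((a₀ + a₂) * U4 + (a₀ + a₁ + a₂)) =
          (a₀ + a₂) ^ 2 * (U1 * U2) + (a₀ + a₂) * (a₀ + a₁ + a₂) * (U3 + U4) +
            (a₀ + a₁ + a₂) ^ 2 := by rw [hU]; ring
      have e4 : (-a₀ * U3 + -(a₀ + a₁)) * (-a₀ * U4 + -(a₀ + a₁)) =
          a₀ ^ 2 * (U1 * U2) + a₀ * (a₀ + a₁) * (U3 + U4) + (a₀ + a₁) ^ 2 := by rw [hU]; ring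
      rw [e3, e4] at hc
      nlinarith
    constructor
    · intro hJ
      apply exp_sum_lt h1
      have : D (p.1 + p'.1) < 0 := hJ
      nlinarith
    · intro hJ
      apply exp_sum_lt h1.symm
      have : 0 ≤ D (p.1 + p'.1) := not_lt.1 hJ
      by_contra hc
      push Not at hc
      nlinarith [mul_nonneg this (sub_nonneg.2 hc)]

theorem sigm_neg (v : ℝ) : sigm (-v) = 1 - sigm v := by
  unfold sigm
  rw [neg_neg, Real.exp_neg]
  have := Real.exp_pos v
  field_simp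
  ring

theorem xor_all (a₀ a₁ a₂ : ℝ) : ∃ J, XorProp (KK a₀ a₁ a₂) J := by
  rcases lt_trichotomy a₂ 0 with h | h | h
  · obtain ⟨J, hJ, hX⟩ := xor_pos (a₀ + a₂) a₁ (-a₂) (by linarith)
    have e : ∀ p : ℝ × ℝ, KK a₀ a₁ a₂ p ↔ KK (a₀ + a₂) a₁ (-a₂) (p.1, -p.2) := by
      intro p
      unfold KK
      simp only [sigm_neg]
      constructor <;> intro h <;> linarith
    refine ⟨J, hJ, fun p p' m m' k1 k2 k3 k4 hs => ?_⟩
    rw [e] at k1 k2 k3 k4
    have h1 : p.1 + p'.1 = m.1 + m'.1 := congrArg Prod.fst hs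
    refine hX (p.1, -p.2) (p'.1, -p'.2) (m.1, -m.2) (m'.1, -m'.2) k1 k2 k3 k4
      (Prod.ext h1 ?_)
    have h2 : p.2 + p'.2 = m.2 + m'.2 := congrArg Prod.snd hs
    simp only [Prod.snd_add]
    linarith
  · subst h
    refine ⟨∅, Set.ordConnected_empty, fun p p' m m' k1 k2 k3 k4 hs => ?_⟩
    exfalso
    have h1 : p.1 + p'.1 = m.1 + m'.1 := congrArg Prod.fst hs
    have hU : Real.exp (-p.1) * Real.exp (-p'.1) = Real.exp (-m.1) * Real.exp (-m'.1) := by
      rw [← Real.exp_add, ← Real.exp_add]; congr 1; linarith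
    rw [KK_iff] at k1 k2 k3 k4
    have e : ∀ U V : ℝ, 0 < V → ((-a₀ * U + -(a₀ + a₁)) * V ≤ (a₀ + 0) * U + (a₀ + a₁ + 0) ↔
        -a₀ * U + -(a₀ + a₁) ≤ 0) := by
      intro U V hV
      constructor
      · intro h
        by_contra hc
        push Not at hc
        nlinarith [mul_pos hc hV]
      · intro h
        nlinarith [mul_nonneg (neg_nonneg.2 h) hV.le]
    rw [e _ _ (Real.exp_pos _)] at k1 k2 k3 k4
    exact between (Real.exp_pos _) (Real.exp_pos _) (Real.exp_pos _) (Real.exp_pos _) hU k1 k2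
      (not_le.1 k3) (not_le.1 k4)
  · exact xor_pos a₀ a₁ a₂ h

end Pool.Agent.H320Z.Sig
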